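import Mathlib

section

set_option autoImplicit false

open Finset

namespace Pool.Agent.MP_bd74a7_nt

lemma succ_le_mul_rpow {ε : ℝ} (hε : 0 < ε) (a : ℕ) :
    (a : ℝ) + 1 ≤ (1 + 1 / (ε * Real.log 2)) * (2 : ℝ) ^ (ε * a) := by
  have hl : 0 < Real.log 2 := Real.log_pos (by norm_num)
  have hc : 0 < ε * Real.log 2 := by positivity
  have h1 : 1 + ε * Real.log 2 * a ≤ (2 : ℝ) ^ (ε * a) := by
    rw [Real.rpow_def_of_pos (by norm_num)]
    have := Real.add_one_le_exp (Real.log 2 * (ε * a))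
    linarith
  have h2 : (a : ℝ) + 1 ≤ (1 + 1 / (ε * Real.log 2)) * (1 + ε * Real.log 2 * a) := by
    have e : (1 + 1 / (ε * Real.log 2)) * (1 + ε * Real.log 2 * a) =
        1 + a + (ε * Real.log 2 * a + 1 / (ε * Real.log 2)) := by
      field_simp
      ring
    rw [e]
    have : 0 ≤ ε * Real.log 2 * a + 1 / (ε * Real.log 2) := by positivity
    linarith
  exact h2.trans (mul_le_mul_of_nonneg_left h1 (by positivity))

/-- The divisor bound. -/
theorem divisor_bound {ε : ℝ} (hε : 0 < ε) :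
    ∃ C : ℝ, 1 ≤ C ∧ ∀ n : ℕ, ((n.divisors.card : ℕ) : ℝ) ≤ C * (n : ℝ) ^ ε := by
  set c : ℝ := 1 + 1 / (ε * Real.log 2) with hc
  have hl : 0 < Real.log 2 := Real.log_pos (by norm_num)
  have hc1 : 1 ≤ c := by
    have : 0 ≤ 1 / (ε * Real.log 2) := by positivity
    linarith
  set P : ℕ := ⌈(2 : ℝ) ^ (1 / ε)⌉₊ with hP
  refine ⟨c ^ P, one_le_pow₀ hc1, fun n => ?_⟩
  rcases Nat.eq_zero_or_pos n with rfl | hn
  · simp only [Nat.divisors_zero, card_empty, Nat.cast_zero]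
    positivity
  rw [Nat.card_divisors hn.ne']
  have hprod : (n : ℝ) ^ ε = ∏ p ∈ n.primeFactors, ((p : ℝ) ^ (n.factorization p)) ^ ε := by
    rw [Real.finsetProd_rpow _ _ (fun p _ => by positivity)]
    congr 1
    conv_lhs => rw [← Nat.prod_factorization_pow_eq_self hn.ne']
    rw [Finsupp.prod, Nat.support_factorization]
    push_cast
    rfl
  have hfac : ∀ p ∈ n.primeFactors, ((n.factorization p + 1 : ℕ) : ℝ) ≤
      (if p < P then c else 1) * ((p : ℝ) ^ (n.factorization p)) ^ ε := by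
    intro p hp
    have hp2 : (2 : ℝ) ≤ p := by exact_mod_cast (Nat.prime_of_mem_primeFactors hp).two_le
    set a := n.factorization p
    have e : ((p : ℝ) ^ a) ^ ε = (p : ℝ) ^ (ε * a) := by
      rw [← Real.rpow_natCast, ← Real.rpow_mul (by positivity), mul_comm]
    rw [e]
    split_ifs with h
    · have h1 := succ_le_mul_rpow hε a
      have h2 : (2 : ℝ) ^ (ε * a) ≤ (p : ℝ) ^ (ε * a) :=
        Real.rpow_le_rpow (by norm_num) hp2 (by positivity)
      push_cast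
      exact h1.trans (mul_le_mul_of_nonneg_left h2 (by linarith))
    · have h1 : (2 : ℝ) ^ (1 / ε) ≤ p := by
        have := Nat.le_ceil ((2 : ℝ) ^ (1 / ε))
        have h' : (P : ℝ) ≤ p := by exact_mod_cast not_lt.1 h
        exact this.trans h'
      have h2 : ((2 : ℝ) ^ (1 / ε)) ^ (ε * a) ≤ (p : ℝ) ^ (ε * a) :=
        Real.rpow_le_rpow (by positivity) h1 (by positivity)
      rw [← Real.rpow_mul (by norm_num)] at h2
      have e2 : 1 / ε * (ε * a) = (a : ℝ) := by field_simp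
      rw [e2, Real.rpow_natCast] at h2
      have h3 : ((a + 1 : ℕ) : ℝ) ≤ (2 : ℝ) ^ a := by
        have : a + 1 ≤ 2 ^ a := Nat.lt_two_pow_self
        exact_mod_cast this
      linarith
  push_cast
  calc ∏ p ∈ n.primeFactors, ((n.factorization p : ℝ) + 1)
      ≤ ∏ p ∈ n.primeFactors,
          ((if p < P then c else 1) * ((p : ℝ) ^ (n.factorization p)) ^ ε) := by
        refine prod_le_prod (fun p _ => by positivity) fun p hp => ?_
        have := hfac p hp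
        push_cast at this
        exact this
    _ = (∏ p ∈ n.primeFactors, (if p < P then c else 1)) * (n : ℝ) ^ ε := by
        rw [prod_mul_distrib, hprod]
    _ ≤ c ^ P * (n : ℝ) ^ ε := by
        apply mul_le_mul_of_nonneg_right _ (by positivity)
        rw [prod_ite, prod_const_one, mul_one, prod_const]
        apply pow_le_pow_right₀ hc1
        calc #(filter (fun p => p < P) n.primeFactors) ≤ #(range P) := by
              apply card_le_card
              intro p hp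
              exact mem_range.2 (mem_filter.1 hp).2
          _ = P := card_range P

end Pool.Agent.MP_bd74a7_nt

end

section

/-!
Divisor counts, a lattice point count and the Cauchy-Schwarz step.
-/

open Finset

namespace Pool.Agent.MP_bd74a7_nt

/-- The largest number of divisors of an integer up to `N`. -/
def Dm (N : ℕ) : ℕ := (range (N + 1)).sup fun n => n.divisors.card

theorem card_divisors_le {n N : ℕ} (h : n ≤ N) : n.divisors.card ≤ Dm N :=
  le_sup (f := fun n : ℕ => n.divisors.card) (mem_range.2 (Nat.lt_succ_of_le h))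

theorem Dm_mono {N N' : ℕ} (h : N ≤ N') : Dm N ≤ Dm N' :=
  Finset.sup_le fun _ hn => card_divisors_le ((Nat.lt_succ_iff.1 (mem_range.1 hn)).trans h)

theorem one_le_Dm {N : ℕ} (h : 1 ≤ N) : 1 ≤ Dm N := by
  simpa using card_divisors_le h

theorem Dm_bound {ε : ℝ} (hε : 0 < ε) : ∃ C : ℝ, 1 ≤ C ∧ ∀ N : ℕ, (Dm N : ℝ) ≤ C * (N : ℝ) ^ ε := by
  obtain ⟨C, hC, h⟩ := divisor_bound hε
  refine ⟨C, hC, fun N => ?_⟩
  obtain ⟨n, hn, he⟩ := exists_mem_eq_sup (range (N + 1)) ⟨0, by simp⟩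
    fun n : ℕ => n.divisors.card
  rw [Dm, he]
  refine (h n).trans ?_
  have : (n : ℝ) ≤ N := by exact_mod_cast Nat.lt_succ_iff.1 (mem_range.1 hn)
  gcongr

theorem log_le_Dm {n N : ℕ} (h1 : n ≠ 0) (h : n ≤ N) : Nat.log 2 n + 1 ≤ Dm N := by
  have h2 := card_divisors_le ((Nat.pow_log_le_self 2 h1).trans h)
  rwa [Nat.divisors_prime_pow Nat.prime_two, card_map, card_range] at h2

theorem card_le_of_dvd {ι : Type*} (S : Finset ι) (f : ι → ℤ) (n : ℤ) (N : ℕ)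
    (hinj : ∀ a ∈ S, ∀ b ∈ S, f a = f b → a = b)
    (h : ∀ a ∈ S, f a ∣ n ∧ n ≠ 0 ∧ |n| ≤ N) : S.card ≤ 2 * Dm N := by
  classical
  rcases S.eq_empty_or_nonempty with rfl | ⟨a0, ha0⟩
  · simp
  obtain ⟨-, hn, hN⟩ := h a0 ha0
  have h1 : n.natAbs ≤ N := by
    rw [Int.abs_eq_natAbs] at hN
    exact_mod_cast hN
  have h2 : S.card ≤ ((univ : Finset Bool) ×ˢ n.natAbs.divisors).card := by
    refine card_le_card_of_injOn (fun a => (decide (0 ≤ f a), (f a).natAbs)) ?_ ?_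
    · intro a ha
      simp only [coe_product, coe_univ, Set.mem_prod, Set.mem_univ, true_and, mem_coe,
        Nat.mem_divisors]
      exact ⟨Int.natAbs_dvd_natAbs.2 (h a ha).1, Int.natAbs_ne_zero.2 hn⟩
    · intro a ha b hb hab
      simp only [Prod.mk.injEq, decide_eq_decide] at hab
      refine hinj a ha b hb ?_
      omega
  rw [card_product, card_univ, Fintype.card_bool] at h2
  exact h2.trans (Nat.mul_le_mul_left 2 (card_divisors_le h1))

/-- Reduction of a vector into the fundamental box of `n` independent vectors. -/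
theorem reduce {n : ℕ} (W : Matrix (Fin n) (Fin n) ℤ) (hW : W.det ≠ 0) (B : Fin n → ℕ)
    (hB : ∀ k i, |W k i| ≤ B k) (z : Fin n → ℤ) :
    ∃ c : Fin n → ℤ, ∀ k, |(z - W.mulVec c) k| ≤ n * B k := by
  refine ⟨fun i => W.cramer z i / W.det, fun k => ?_⟩
  have h1 := congrFun (Matrix.mulVec_cramer W z) k
  have h2 : W.det * (z - W.mulVec fun i => W.cramer z i / W.det) k =
      ∑ i, W k i * (W.cramer z i % W.det) := by
    simp only [Pi.sub_apply, mul_sub]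
    simp only [Pi.smul_apply, smul_eq_mul] at h1
    rw [← h1]
    simp only [Matrix.mulVec, dotProduct, mul_sum, ← sum_sub_distrib]
    refine sum_congr rfl fun i _ => ?_
    rw [Int.emod_def]
    ring
  have h3 : |W.det| * |(z - W.mulVec fun i => W.cramer z i / W.det) k| ≤ |W.det| * (n * B k) := by
    rw [← abs_mul, h2]
    refine (abs_sum_le_sum_abs _ _).trans ?_
    calc ∑ i, |W k i * (W.cramer z i % W.det)| ≤ ∑ _i : Fin n, (B k : ℤ) * |W.det| := by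
          refine sum_le_sum fun i _ => ?_
          rw [abs_mul]
          have h4 : |W.cramer z i % W.det| ≤ |W.det| := by
            rw [abs_of_nonneg (Int.emod_nonneg _ hW)]
            exact (Int.emod_lt_abs _ hW).le
          exact mul_le_mul (hB k i) h4 (abs_nonneg _) (by positivity)
      _ = _ := by
          simp only [sum_const, card_univ, Fintype.card_fin, nsmul_eq_mul]
          ring
  exact le_of_mul_le_mul_left h3 (abs_pos.2 hW)

/-- Points of a coset of a lattice of index `q` in a box, given `n` independent lattice vectors. -/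
theorem count {n q : ℕ} [NeZero q] (φ : (Fin n → ℤ) →+ ZMod q) (hφ : Function.Surjective φ)
    (W : Matrix (Fin n) (Fin n) ℤ) (hW : W.det ≠ 0) (B b : Fin n → ℕ)
    (hB : ∀ k i, |W k i| ≤ B k) (hker : ∀ i, φ (fun k => W k i) = 0)
    (X : Finset (Fin n → ℤ)) (c : ZMod q) (hX : ∀ x ∈ X, φ x = c ∧ ∀ k, |x k| ≤ b k) :
    X.card * q ≤ ∏ k, (2 * (b k + n * B k) + 1) := by
  classical
  have hρ : ∀ r : ZMod q, ∃ ρ : Fin n → ℤ, φ ρ = r ∧ ∀ k, |ρ k| ≤ n * B k := by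
    intro r
    obtain ⟨z, rfl⟩ := hφ r
    obtain ⟨c, hc⟩ := reduce W hW B hB z
    refine ⟨_, ?_, hc⟩
    have h1 : W.mulVec c = ∑ i, c i • fun k => W k i := by
      funext k
      simp [Matrix.mulVec, dotProduct, mul_comm]
    rw [map_sub, h1, map_sum]
    simp only [map_zsmul, hker, smul_zero, sum_const_zero, sub_zero]
  choose ρ h1 h2 using hρ
  have h3 : (X ×ˢ (univ : Finset (ZMod q))).card ≤
      (Fintype.piFinset fun k => Icc (-((b k + n * B k : ℕ) : ℤ)) (b k + n * B k : ℕ)).card := by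
    refine card_le_card_of_injOn (fun x => x.1 + ρ x.2) ?_ ?_
    · rintro ⟨x, r⟩ hx
      simp only [coe_product, coe_univ, Set.mem_prod, mem_coe, Set.mem_univ, and_true] at hx
      simp only [mem_coe, Fintype.mem_piFinset, mem_Icc, Pi.add_apply, ← abs_le]
      intro k
      push_cast
      exact (abs_add_le _ _).trans (add_le_add ((hX x hx).2 k) (h2 r k))
    · rintro ⟨x, r⟩ hx ⟨x', r'⟩ hx' he
      simp only [coe_product, coe_univ, Set.mem_prod, mem_coe, Set.mem_univ, and_true] at hx hx'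
      simp only at he
      have h4 := congrArg φ he
      rw [map_add, map_add, (hX x hx).1, (hX x' hx').1, h1, h1, add_right_inj] at h4
      subst h4
      rw [add_left_inj] at he
      rw [he]
  rw [card_product, card_univ, ZMod.card, Fintype.card_piFinset] at h3
  refine h3.trans (le_of_eq (prod_congr rfl fun k _ => ?_))
  rw [Int.card_Icc]
  omega

/-- Cauchy-Schwarz: a map with few values has many collisions. -/
theorem sq_le_mul_coll {α β : Type*} [DecidableEq β] (S : Finset α) (T : Finset β) (f : α → β)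
    (h : ∀ a ∈ S, f a ∈ T) :
    S.card ^ 2 ≤ T.card * ((S ×ˢ S).filter fun x => f x.1 = f x.2).card := by
  classical
  have h1 : S.card = ∑ t ∈ T, (S.filter fun a => f a = t).card :=
    card_eq_sum_card_fiberwise h
  have h2 : ((S ×ˢ S).filter fun x => f x.1 = f x.2).card =
      ∑ t ∈ T, (S.filter fun a => f a = t).card ^ 2 := by
    rw [card_eq_sum_card_fiberwise (f := fun x => f x.1) (t := T)]
    · refine sum_congr rfl fun t _ => ?_
      rw [sq, ← card_product]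
      congr 1
      ext ⟨a, b⟩
      simp only [mem_filter, mem_product]
      constructor
      · rintro ⟨⟨⟨ha, hb⟩, hab⟩, ht⟩
        exact ⟨⟨ha, ht⟩, hb, hab ▸ ht⟩
      · rintro ⟨⟨ha, ht⟩, hb, ht'⟩
        exact ⟨⟨⟨ha, hb⟩, ht.trans ht'.symm⟩, ht⟩
    · intro x hx
      simp only [coe_filter, mem_product, Set.mem_ofPred_eq] at hx
      exact h _ hx.1.1
  rw [h2, h1]
  exact sq_sum_le_card_mul_sum_sq

end Pool.Agent.MP_bd74a7_nt

end

section

/-!
Multiplicative quadruples in a subset of a short interval modulo `p`.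
-/

open Finset

namespace Pool.Agent.MP_bd74a7_nt

theorem eq_zero_of_cast {p : ℕ} {x : ℤ} (h : (x : ZMod p) = 0) (hx : |x| < p) : x = 0 :=
  Int.eq_zero_of_abs_lt_dvd ((ZMod.intCast_zmod_eq_zero_iff_dvd x p).1 h) hx

theorem par_gcd {A A' C C' : ℤ} (h : A * C' = A' * C) (hg : Int.gcd A A' = Int.gcd C C') :
    (A = C ∧ A' = C') ∨ (A = -C ∧ A' = -C') := by
  by_cases hk : Int.gcd A A' = 0
  · have h1 := Int.gcd_eq_zero_iff.1 hk
    have h2 := Int.gcd_eq_zero_iff.1 (hg ▸ hk)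
    left
    omega
  obtain ⟨a, a', hc, ha, ha'⟩ := Int.exists_gcd_one (Nat.pos_of_ne_zero hk)
  obtain ⟨c, c', hc', hb, hb'⟩ := Int.exists_gcd_one (Nat.pos_of_ne_zero (hg ▸ hk))
  rw [← hg] at hb hb'
  set k : ℤ := (Int.gcd A A' : ℤ) with hkk
  have hk0 : k ≠ 0 := by rw [hkk]; exact_mod_cast hk
  have h1 : a * c' = a' * c := by
    have : k * k * (a * c') = k * k * (a' * c) := by
      rw [ha, ha', hb, hb'] at h
      linear_combination h
    exact mul_left_cancel₀ (mul_ne_zero hk0 hk0) this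
  obtain ⟨x, y, hxy⟩ := Int.isCoprime_iff_gcd_eq_one.2 hc
  obtain ⟨x', y', hxy'⟩ := Int.isCoprime_iff_gcd_eq_one.2 hc'
  have e1 : c = a * (x * c + y * c') := by linear_combination (-c) * hxy - y * h1
  have e2 : c' = a' * (x * c + y * c') := by linear_combination (-c') * hxy + x * h1
  have e3 : (x * c + y * c') * (x' * a + y' * a') = 1 := by
    linear_combination hxy' - x' * e1 - y' * e2
  rcases Int.eq_one_or_neg_one_of_mul_eq_one e3 with e | e
  · rw [e] at e1 e2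
    left
    rw [ha, ha', hb, hb', e1, e2]
    constructor <;> ring
  · rw [e] at e1 e2
    right
    rw [ha, ha', hb, hb', e1, e2]
    constructor <;> ring

theorem decomp {A B γ : ℤ} {κ : ℕ} (hκ : 1 ≤ κ) (hk : κ ≤ Int.gcd A γ) (ht : κ ≤ Int.gcd B γ) :
    ∃ (s d u : ℕ) (g n : ℤ), 1 ≤ s ∧ γ = s * g ∧ A * B = s * n ∧ s = d * u ∧ (d : ℤ) ∣ n ∧
      u * κ ^ 2 ≤ s ^ 2 := by
  set k := Int.gcd A γ
  set t := Int.gcd B γ
  have hs : 0 < Nat.lcm k t := Nat.lcm_pos (by omega) (by omega)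
  obtain ⟨u, hu⟩ : Nat.gcd k t ∣ Nat.lcm k t := (Nat.gcd_dvd_left k t).trans (Nat.dvd_lcm_left k t)
  obtain ⟨g, hg⟩ : ((Nat.lcm k t : ℕ) : ℤ) ∣ γ := by
    rw [Int.natCast_dvd]
    exact Nat.lcm_dvd (Int.natCast_dvd.1 (Int.gcd_dvd_right A γ))
      (Int.natCast_dvd.1 (Int.gcd_dvd_right B γ))
  obtain ⟨A1, hA⟩ : (k : ℤ) ∣ A := Int.gcd_dvd_left A γ
  obtain ⟨B1, hB⟩ : (t : ℤ) ∣ B := Int.gcd_dvd_left B γ
  have h1 := Nat.gcd_mul_lcm k t
  have h2 : ((Nat.gcd k t : ℕ) : ℤ) * (Nat.lcm k t : ℕ) = k * t := by exact_mod_cast h1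
  refine ⟨Nat.lcm k t, Nat.gcd k t, u, g, Nat.gcd k t * (A1 * B1), hs, hg, ?_, hu,
    dvd_mul_right _ _, ?_⟩
  · rw [hA, hB]
    linear_combination (-(A1 * B1)) * h2
  · calc u * κ ^ 2 ≤ u * (k * t) := by
          rw [sq]
          gcongr
      _ = u * Nat.gcd k t * Nat.lcm k t := by rw [← h1]; ring
      _ = _ := by rw [mul_comm u, ← hu, sq]

/-- A family of multiplicative quadruples with entries in `V`. -/
structure Quad (p : ℕ) (V : Finset ℤ) {ι : Type*} (T : Finset ι) (v0 v1 v2 v3 : ι → ℤ) :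
    Prop where
  m0 : ∀ a ∈ T, v0 a ∈ V
  m1 : ∀ a ∈ T, v1 a ∈ V
  m2 : ∀ a ∈ T, v2 a ∈ V
  m3 : ∀ a ∈ T, v3 a ∈ V
  rel : ∀ a ∈ T, (v0 a : ZMod p) * v3 a = v1 a * v2 a
  inj : ∀ a ∈ T, ∀ b ∈ T, v0 a = v0 b → v1 a = v1 b → v2 a = v2 b → v3 a = v3 b → a = b

/-- A set of nonzero residues inside an interval of length `m`. -/
structure Short (p : ℕ) (V : Finset ℤ) (m : ℕ) : Prop where
  diam : ∀ v ∈ V, ∀ w ∈ V, |v - w| ≤ m
  nz : ∀ v ∈ V, (v : ZMod p) ≠ 0

variable {p m : ℕ} {V : Finset ℤ} {ι : Type*} {T : Finset ι} {v0 v1 v2 v3 : ι → ℤ}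

theorem Quad.mono (h : Quad p V T v0 v1 v2 v3) {T' : Finset ι} (hT : T' ⊆ T) :
    Quad p V T' v0 v1 v2 v3 :=
  ⟨fun a ha => h.m0 a (hT ha), fun a ha => h.m1 a (hT ha), fun a ha => h.m2 a (hT ha),
    fun a ha => h.m3 a (hT ha), fun a ha => h.rel a (hT ha),
    fun a ha b hb => h.inj a (hT ha) b (hT hb)⟩

theorem Quad.swap (h : Quad p V T v0 v1 v2 v3) : Quad p V T v0 v2 v1 v3 :=
  ⟨h.m0, h.m2, h.m1, h.m3, fun a ha => by rw [h.rel a ha, mul_comm],
    fun a ha b hb h0 h2 h1 h3 => h.inj a ha b hb h0 h1 h2 h3⟩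

theorem Quad.bad [Fact p.Prime] (h : Quad p V T v0 v1 v2 v3) (hV : Short p V m)
    (hp : 2 * m ^ 2 < p) {κ : ℕ}
    (hk : ∀ a ∈ T, Int.gcd (v1 a - v0 a) (v3 a - v1 a - v2 a + v0 a) < κ) :
    T.card ≤ 2 * κ * V.card ^ 2 := by
  classical
  have h2 : T.card ≤ ((V ×ˢ V) ×ˢ (range κ ×ˢ (univ : Finset Bool))).card := by
    refine card_le_card_of_injOn (fun a => ((v0 a, v2 a),
      (Int.gcd (v1 a - v0 a) (v3 a - v1 a - v2 a + v0 a),
        decide (0 < v1 a - v0 a ∨ (v1 a - v0 a = 0 ∧ 0 < v3 a - v2 a))))) ?_ ?_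
    · intro a ha
      simp only [coe_product, coe_univ, Set.mem_prod, Set.mem_univ, and_true, mem_coe, mem_range]
      exact ⟨⟨h.m0 a ha, h.m2 a ha⟩, hk a ha⟩
    · intro a ha b hb hab
      simp only [Prod.mk.injEq, decide_eq_decide] at hab
      obtain ⟨⟨e0, e2⟩, eg, es⟩ := hab
      have g1 : ∀ a, Int.gcd (v1 a - v0 a) (v3 a - v1 a - v2 a + v0 a) =
          Int.gcd (v1 a - v0 a) (v3 a - v2 a) := by
        intro a
        rw [← Int.gcd_add_self_right]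
        congr 1
        ring
      rw [g1, g1] at eg
      have hdet : (v1 a - v0 a) * (v3 b - v2 b) - (v3 a - v2 a) * (v1 b - v0 b) = 0 := by
        apply eq_zero_of_cast (p := p)
        · have r1 := h.rel a ha
          have r2 := h.rel b hb
          rw [← e0, ← e2] at r2
          apply mul_left_cancel₀ (hV.nz _ (h.m0 a ha))
          rw [← e0, ← e2]
          push_cast
          linear_combination ((v1 a : ZMod p) - v0 a) * r2 - ((v1 b : ZMod p) - v0 a) * r1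
        · have d1 := hV.diam _ (h.m1 a ha) _ (h.m0 a ha)
          have d2 := hV.diam _ (h.m3 b hb) _ (h.m2 b hb)
          have d3 := hV.diam _ (h.m3 a ha) _ (h.m2 a ha)
          have d4 := hV.diam _ (h.m1 b hb) _ (h.m0 b hb)
          have hp' : 2 * (m : ℤ) ^ 2 < p := by exact_mod_cast hp
          refine (abs_sub _ _).trans_lt ?_
          rw [abs_mul, abs_mul]
          have i1 := mul_le_mul d1 d2 (abs_nonneg _) (by positivity)
          have i2 := mul_le_mul d3 d4 (abs_nonneg _) (by positivity)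
          nlinarith
      rcases par_gcd (sub_eq_zero.1 hdet) eg with ⟨f1, f2⟩ | ⟨f1, f2⟩
      · exact h.inj a ha b hb e0 (by omega) e2 (by omega)
      · exact h.inj a ha b hb e0 (by omega) e2 (by omega)
  rw [card_product, card_product, card_product, card_range, card_univ, Fintype.card_bool] at h2
  refine h2.trans (le_of_eq ?_)
  ring

theorem Quad.col [Fact p.Prime] (h : Quad p V T v0 v1 v2 v3) (hV : Short p V m) {w g0 n0 : ℤ}
    (hw : ∀ a ∈ T, v0 a = w) (hg : (g0 : ZMod p) ≠ 0) (hn : (n0 : ZMod p) = w * g0)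
    (hg0 : |g0| ≤ 2 * m) (hn0 : |n0| ≤ m ^ 2)
    (hc : ∀ a ∈ T, (v3 a - v1 a - v2 a + v0 a) * n0 = (v1 a - v0 a) * (v2 a - v0 a) * g0) :
    T.card ≤ 2 * Dm (3 * m ^ 4) * V.card := by
  classical
  refine card_le_mul_card_image_of_maps_to h.m3 _ fun v _ => ?_
  have hg' : g0 ≠ 0 := by
    rintro rfl
    simp at hg
  have key : ∀ a ∈ T, (n0 + g0 * (v1 a - w)) * (n0 + g0 * (v2 a - w)) =
      n0 * (n0 + g0 * (v3 a - w)) := by
    intro a ha
    have := hc a ha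
    rw [hw a ha] at this
    linear_combination (-g0) * this
  have nz : ∀ x ∈ V, n0 + g0 * (x - w) ≠ 0 := by
    intro x hx h0
    have h1 : ((n0 + g0 * (x - w) : ℤ) : ZMod p) = g0 * x := by
      push_cast
      rw [hn]
      ring
    rw [h0, Int.cast_zero] at h1
    exact mul_ne_zero hg (hV.nz x hx) h1.symm
  refine card_le_of_dvd _ (fun a => n0 + g0 * (v1 a - w)) (n0 * (n0 + g0 * (v - w))) _ ?_ ?_
  · intro a ha b hb hab
    rw [mem_filter] at ha hb
    have e1 : v1 a = v1 b := by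
      have : g0 * v1 a = g0 * v1 b := by linear_combination hab
      exact mul_left_cancel₀ hg' this
    have e2 : v2 a = v2 b := by
      have k1 := key a ha.1
      have k2 := key b hb.1
      rw [ha.2] at k1
      rw [hb.2, ← e1, ← k1] at k2
      have k3 := mul_left_cancel₀ (nz _ (h.m1 a ha.1)) k2
      have : g0 * v2 a = g0 * v2 b := by linear_combination -k3
      exact mul_left_cancel₀ hg' this
    exact h.inj a ha.1 b hb.1 (by rw [hw a ha.1, hw b hb.1]) e1 e2 (by rw [ha.2, hb.2])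
  · intro a ha
    rw [mem_filter] at ha
    have k1 := key a ha.1
    rw [ha.2] at k1
    refine ⟨⟨_, k1.symm⟩, ?_, ?_⟩
    · rw [← k1]
      exact mul_ne_zero (nz _ (h.m1 a ha.1)) (nz _ (h.m2 a ha.1))
    · have d1 : |v - w| ≤ m := by
        rw [← ha.2, ← hw a ha.1]
        exact hV.diam _ (h.m3 a ha.1) _ (h.m0 a ha.1)
      have d2 : |n0 + g0 * (v - w)| ≤ 3 * m ^ 2 := by
        refine (abs_add_le _ _).trans ?_
        rw [abs_mul]
        have := mul_le_mul hg0 d1 (abs_nonneg _) (by positivity)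
        nlinarith
      rw [abs_mul]
      have := mul_le_mul hn0 d2 (abs_nonneg _) (by positivity)
      push_cast
      nlinarith

theorem Quad.fib (h : Quad p V T v0 v1 v2 v3) (hV : Short p V m) {w g n : ℤ} {U : ℕ}
    (hw : ∀ a ∈ T, v0 a = w) (hn : n ≠ 0) (hn0 : |n| ≤ m ^ 2) (d u : ι → ℕ)
    (hγ : ∀ a ∈ T, v3 a - v1 a - v2 a + v0 a = (d a * u a : ℕ) * g)
    (hAB : ∀ a ∈ T, (v1 a - v0 a) * (v2 a - v0 a) = (d a * u a : ℕ) * n)
    (hd : ∀ a ∈ T, (d a : ℤ) ∣ n) (hu : ∀ a ∈ T, 1 ≤ d a * u a ∧ u a ≤ U) :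
    T.card ≤ 2 * Dm (m ^ 2) * (Dm (m ^ 2) * U) := by
  classical
  have h1 : n.natAbs ≤ m ^ 2 := by
    rw [Int.abs_eq_natAbs] at hn0
    exact_mod_cast hn0
  have h2 : T.card ≤ 2 * Dm (m ^ 2) * (n.natAbs.divisors ×ˢ Icc 1 U).card := by
    refine card_le_mul_card_image_of_maps_to (f := fun a => (d a, u a)) ?_ _ ?_
    · intro a ha
      simp only [mem_product, Nat.mem_divisors, mem_Icc]
      refine ⟨⟨Int.natCast_dvd.1 (hd a ha), Int.natAbs_ne_zero.2 hn⟩, ?_, (hu a ha).2⟩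
      exact Nat.pos_of_mul_pos_left (hu a ha).1
    · rintro ⟨d0, u0⟩ _
      refine card_le_of_dvd _ (fun a => v1 a - v0 a) ((d0 * u0 : ℕ) * n) _ ?_ ?_
      · intro a ha b hb hab
        simp only [mem_filter, Prod.mk.injEq] at ha hb
        have k1 := hAB a ha.1
        have k2 := hAB b hb.1
        have k3 := hγ a ha.1
        have k4 := hγ b hb.1
        have k5 := (hu a ha.1).1
        rw [ha.2.1, ha.2.2] at k1 k3 k5
        rw [hb.2.1, hb.2.2] at k2 k4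
        have k6 : v1 a - v0 a ≠ 0 := by
          intro h0
          rw [h0, zero_mul] at k1
          exact mul_ne_zero (by exact_mod_cast (Nat.pos_iff_ne_zero.1 k5)) hn k1.symm
        rw [← hab, ← k1] at k2
        have k7 := mul_left_cancel₀ k6 k2
        have e0 : v0 a = v0 b := by rw [hw a ha.1, hw b hb.1]
        exact h.inj a ha.1 b hb.1 e0 (by omega) (by omega) (by omega)
      · intro a ha
        simp only [mem_filter, Prod.mk.injEq] at ha
        have k1 := hAB a ha.1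
        have k5 := (hu a ha.1).1
        rw [ha.2.1, ha.2.2] at k1 k5
        refine ⟨⟨_, k1.symm⟩, mul_ne_zero (by exact_mod_cast (Nat.pos_iff_ne_zero.1 k5)) hn, ?_⟩
        rw [← k1, abs_mul]
        have := mul_le_mul (hV.diam _ (h.m1 a ha.1) _ (h.m0 a ha.1))
          (hV.diam _ (h.m2 a ha.1) _ (h.m0 a ha.1)) (abs_nonneg _) (by positivity)
        push_cast
        nlinarith
  rw [card_product, Nat.card_Icc, Nat.add_sub_cancel] at h2
  refine h2.trans ?_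
  have := card_divisors_le h1
  gcongr

end Pool.Agent.MP_bd74a7_nt

end

section

/-!
The multiplicative energy of a subset of a short interval modulo `p`.
-/

open Finset

namespace Pool.Agent.MP_bd74a7_nt

theorem count2 {p : ℕ} [NeZero p] (w : ZMod p) (c : ZMod p) (X : Finset (ℤ × ℤ)) (b1 b2 B1 B2 : ℕ)
    (hX : ∀ P ∈ X, (P.2 : ZMod p) - w * P.1 = c ∧ |P.1| ≤ b1 ∧ |P.2| ≤ b2) {P Q : ℤ × ℤ}
    (hP : (P.2 : ZMod p) = w * P.1 ∧ |P.1| ≤ B1 ∧ |P.2| ≤ B2)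
    (hQ : (Q.2 : ZMod p) = w * Q.1 ∧ |Q.1| ≤ B1 ∧ |Q.2| ≤ B2) (hdet : P.1 * Q.2 ≠ Q.1 * P.2) :
    X.card * p ≤ (2 * (b1 + 2 * B1) + 1) * (2 * (b2 + 2 * B2) + 1) := by
  classical
  let φ : (Fin 2 → ℤ) →+ ZMod p :=
    { toFun := fun x => (x 1 : ZMod p) - w * x 0
      map_zero' := by simp
      map_add' := by
        intro x y
        simp only [Pi.add_apply, Int.cast_add]
        ring }
  have hφ : Function.Surjective φ := by
    intro r
    obtain ⟨z, rfl⟩ := ZMod.intCast_surjective r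
    exact ⟨![0, z], by simp [φ]⟩
  have hinj : Function.Injective fun P : ℤ × ℤ => (![P.1, P.2] : Fin 2 → ℤ) := by
    intro P Q h
    exact Prod.ext (congrFun h 0) (congrFun h 1)
  have h := count φ hφ !![P.1, Q.1; P.2, Q.2] (by
      rw [Matrix.det_fin_two_of]
      exact sub_ne_zero.2 hdet) ![B1, B2] ![b1, b2] (by
      intro k i
      fin_cases k <;> fin_cases i <;> simp [hP.2.1, hP.2.2, hQ.2.1, hQ.2.2]) (by
      intro i
      fin_cases i <;> simp [φ, hP.1, hQ.1]) (X.image fun P => ![P.1, P.2]) c (by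
      intro x hx
      obtain ⟨P, hP, rfl⟩ := mem_image.1 hx
      refine ⟨by simpa [φ] using (hX P hP).1, fun k => ?_⟩
      fin_cases k <;> simp [(hX P hP).2.1, (hX P hP).2.2])
  rw [card_image_of_injective _ hinj, Fin.prod_univ_two] at h
  simpa using h

variable {p m : ℕ} {V : Finset ℤ} {ι : Type*} {T : Finset ι} {v0 v1 v2 v3 : ι → ℤ}

theorem abs_le_div {x g : ℤ} {s σ b : ℕ} (hσ : 1 ≤ σ) (hs : σ ≤ s) (h : x = s * g)
    (hb : |x| ≤ b) : |g| ≤ (b / σ : ℕ) := by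
  have h1 : g.natAbs * σ ≤ b := by
    have h2 : (s : ℤ) * |g| ≤ b := by rwa [h, abs_mul, Nat.abs_cast] at hb
    rw [Int.abs_eq_natAbs] at h2
    have h3 : s * g.natAbs ≤ b := by exact_mod_cast h2
    nlinarith
  rw [Int.abs_eq_natAbs]
  exact_mod_cast (Nat.le_div_iff_mul_le hσ).2 h1

theorem Quad.level [Fact p.Prime] (h : Quad p V T v0 v1 v2 v3) (hV : Short p V m)
    (hp : 2 * m ^ 2 < p) {w : ℤ} (hw : ∀ a ∈ T, v0 a = w) {κ σ : ℕ} (hκ : 1 ≤ κ) (hσ : 1 ≤ σ)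
    (s d u : ι → ℕ) (g n : ι → ℤ)
    (hγ : ∀ a ∈ T, v3 a - v1 a - v2 a + v0 a = s a * g a)
    (hAB : ∀ a ∈ T, (v1 a - v0 a) * (v2 a - v0 a) = s a * n a)
    (hAB0 : ∀ a ∈ T, (v1 a - v0 a) * (v2 a - v0 a) ≠ 0)
    (hs : ∀ a ∈ T, s a = d a * u a) (hd : ∀ a ∈ T, (d a : ℤ) ∣ n a)
    (hu : ∀ a ∈ T, u a * κ ^ 2 ≤ s a ^ 2) (hσs : ∀ a ∈ T, σ ≤ s a ∧ s a ≤ 2 * σ) :
    T.card * (κ ^ 2 * p) ≤
      2 * Dm (3 * m ^ 4) * V.card * (κ ^ 2 * p) + 784 * Dm (3 * m ^ 4) ^ 2 * m ^ 3 := by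
  classical
  have hp' : 2 * (m : ℤ) ^ 2 < p := by exact_mod_cast hp
  have hm2 : 2 * (m : ℤ) ≤ 2 * m ^ 2 := by
    have : m ≤ m ^ 2 := Nat.le_self_pow (by norm_num) m
    have : (m : ℤ) ≤ m ^ 2 := by exact_mod_cast this
    linarith
  have bγ : ∀ a ∈ T, |v3 a - v1 a - v2 a + v0 a| ≤ (2 * m : ℕ) := by
    intro a ha
    have d1 := hV.diam _ (h.m1 a ha) _ (h.m0 a ha)
    have d2 := hV.diam _ (h.m3 a ha) _ (h.m2 a ha)
    rw [abs_le] at *
    push_cast
    constructor <;> linarith [d1.1, d1.2, d2.1, d2.2]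
  have bAB : ∀ a ∈ T, |(v1 a - v0 a) * (v2 a - v0 a)| ≤ (m ^ 2 : ℕ) := by
    intro a ha
    rw [abs_mul]
    have := mul_le_mul (hV.diam _ (h.m1 a ha) _ (h.m0 a ha))
      (hV.diam _ (h.m2 a ha) _ (h.m0 a ha)) (abs_nonneg _) (by positivity)
    push_cast
    nlinarith
  have bg : ∀ a ∈ T, |g a| ≤ (2 * m / σ : ℕ) := fun a ha =>
    abs_le_div hσ (hσs a ha).1 (hγ a ha) (bγ a ha)
  have bn : ∀ a ∈ T, |n a| ≤ (m ^ 2 / σ : ℕ) := fun a ha =>
    abs_le_div hσ (hσs a ha).1 (hAB a ha) (bAB a ha)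
  have bg' : ∀ a ∈ T, |g a| ≤ 2 * m := fun a ha =>
    (bg a ha).trans (by exact_mod_cast Nat.div_le_self _ _)
  have bn' : ∀ a ∈ T, |n a| ≤ m ^ 2 := fun a ha =>
    (bn a ha).trans (by exact_mod_cast Nat.div_le_self _ _)
  have n0 : ∀ a ∈ T, n a ≠ 0 := fun a ha h0 => hAB0 a ha (by rw [hAB a ha, h0, mul_zero])
  have crel : ∀ a ∈ T, (((v1 a - v0 a) * (v2 a - v0 a) : ℤ) : ZMod p) =
      w * ((v3 a - v1 a - v2 a + v0 a : ℤ) : ZMod p) := by
    intro a ha
    have r := h.rel a ha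
    rw [hw a ha] at r ⊢
    push_cast
    linear_combination -r
  have γ0 : ∀ a ∈ T, ((v3 a - v1 a - v2 a + v0 a : ℤ) : ZMod p) ≠ 0 := by
    intro a ha h0
    have r := crel a ha
    rw [h0, mul_zero] at r
    refine hAB0 a ha (eq_zero_of_cast r ((bAB a ha).trans_lt ?_))
    push_cast
    nlinarith [sq_nonneg (m : ℤ)]
  have g0 : ∀ a ∈ T, (g a : ZMod p) ≠ 0 := by
    intro a ha h0
    refine γ0 a ha ?_
    rw [hγ a ha]
    push_cast
    rw [h0, mul_zero]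
  have cng : ∀ a ∈ T, (n a : ZMod p) = w * g a := by
    intro a ha
    have s0 : (s a : ZMod p) ≠ 0 := by
      intro h0
      refine γ0 a ha ?_
      rw [hγ a ha]
      push_cast
      rw [h0, zero_mul]
    have r := crel a ha
    rw [hγ a ha, hAB a ha] at r
    push_cast at r
    apply mul_left_cancel₀ s0
    linear_combination r
  by_cases hcol : ∀ a ∈ T, ∀ b ∈ T, g a * n b = g b * n a
  · rcases T.eq_empty_or_nonempty with rfl | ⟨b, hb⟩
    · simp
    have := h.col hV hw (g0 b hb) (cng b hb) (bg' b hb) (bn' b hb) fun a ha => by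
      rw [hγ a ha, hAB a ha]
      linear_combination (s a : ℤ) * hcol a ha b hb
    exact (Nat.mul_le_mul_right _ this).trans (Nat.le_add_right _ _)
  push Not at hcol
  obtain ⟨a, ha, b, hb, hab⟩ := hcol
  set X := T.image fun a => (g a, n a) with hX
  set b1 := 2 * m / σ with hb1
  set b2 := m ^ 2 / σ with hb2
  set U := 4 * σ ^ 2 / κ ^ 2 with hU
  have h1 : X.card * p ≤ (2 * (b1 + 2 * b1) + 1) * (2 * (b2 + 2 * b2) + 1) := by
    refine count2 (w : ZMod p) 0 X b1 b2 b1 b2 ?_ (P := (g a, n a)) (Q := (g b, n b))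
      ⟨cng a ha, bg a ha, bn a ha⟩ ⟨cng b hb, bg b hb, bn b hb⟩ hab
    intro P hP
    obtain ⟨c, hc, rfl⟩ := mem_image.1 hP
    exact ⟨sub_eq_zero.2 (cng c hc), bg c hc, bn c hc⟩
  have hb1' : 1 ≤ b1 := by
    have h2 : g a ≠ 0 := fun h0 => g0 a ha (by rw [h0, Int.cast_zero])
    have h3 := (Int.one_le_abs h2).trans (bg a ha)
    exact_mod_cast h3
  have hb2' : 1 ≤ b2 := by
    have h3 := (Int.one_le_abs (n0 a ha)).trans (bn a ha)
    exact_mod_cast h3
  have h2 : T.card ≤ 2 * Dm (m ^ 2) * (Dm (m ^ 2) * U) * X.card := by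
    refine card_le_mul_card_image T _ fun P hP => ?_
    obtain ⟨c, hc, rfl⟩ := mem_image.1 hP
    refine (h.mono (filter_subset _ _)).fib hV (w := w) (g := g c) (fun e he => ?_) (n0 c hc)
      (bn' c hc) d u (fun e he => ?_) (fun e he => ?_) (fun e he => ?_) (fun e he => ?_)
    all_goals simp only [mem_filter, Prod.mk.injEq] at he
    · exact hw e he.1
    · rw [← hs e he.1, ← he.2.1]
      exact hγ e he.1
    · rw [← hs e he.1, ← he.2.2]
      exact hAB e he.1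
    · rw [← he.2.2]
      exact hd e he.1
    · rw [← hs e he.1]
      refine ⟨hσ.trans (hσs e he.1).1, (Nat.le_div_iff_mul_le (by positivity)).2 ?_⟩
      refine (hu e he.1).trans ?_
      have := (hσs e he.1).2
      nlinarith
  have h3 : b1 * σ ≤ 2 * m := Nat.div_mul_le_self _ _
  have h4 : b2 * σ ≤ m ^ 2 := Nat.div_mul_le_self _ _
  have h5 : U * κ ^ 2 ≤ 4 * σ ^ 2 := Nat.div_mul_le_self _ _
  have h6 : Dm (m ^ 2) ≤ Dm (3 * m ^ 4) := by
    refine Dm_mono ?_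
    have : m ^ 2 ≤ (m ^ 2) ^ 2 := Nat.le_self_pow (by norm_num) _
    nlinarith
  have h7 : X.card * p ≤ (7 * b1) * (7 * b2) :=
    h1.trans (Nat.mul_le_mul (by omega) (by omega))
  refine le_trans ?_ (Nat.le_add_left _ _)
  set D := Dm (3 * m ^ 4)
  calc T.card * (κ ^ 2 * p) ≤ 2 * D * (D * U) * X.card * (κ ^ 2 * p) := by
        refine Nat.mul_le_mul_right _ (h2.trans ?_)
        gcongr
    _ = 2 * D ^ 2 * (U * κ ^ 2) * (X.card * p) := by ring
    _ ≤ 2 * D ^ 2 * (4 * σ ^ 2) * ((7 * b1) * (7 * b2)) := by gcongr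
    _ = 392 * D ^ 2 * ((b1 * σ) * (b2 * σ)) := by ring
    _ ≤ 392 * D ^ 2 * ((2 * m) * m ^ 2) := by gcongr
    _ = _ := by ring

theorem Quad.good [Fact p.Prime] (h : Quad p V T v0 v1 v2 v3) (hV : Short p V m)
    (hp : 2 * m ^ 2 < p) {κ : ℕ} (hκ : 1 ≤ κ)
    (hk : ∀ a ∈ T, κ ≤ Int.gcd (v1 a - v0 a) (v3 a - v1 a - v2 a + v0 a))
    (ht : ∀ a ∈ T, κ ≤ Int.gcd (v2 a - v0 a) (v3 a - v1 a - v2 a + v0 a)) :
    T.card * (κ ^ 2 * p) ≤ V.card * Dm (3 * m ^ 4) *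
      (2 * Dm (3 * m ^ 4) * V.card * (κ ^ 2 * p) + 784 * Dm (3 * m ^ 4) ^ 2 * m ^ 3) := by
  classical
  have hp' : 2 * (m : ℤ) ^ 2 < p := by exact_mod_cast hp
  have hm2 : (m : ℤ) ≤ m ^ 2 := by exact_mod_cast Nat.le_self_pow (by norm_num) m
  have bγ : ∀ a ∈ T, |v3 a - v1 a - v2 a + v0 a| ≤ 2 * m := by
    intro a ha
    have d1 := hV.diam _ (h.m1 a ha) _ (h.m0 a ha)
    have d2 := hV.diam _ (h.m3 a ha) _ (h.m2 a ha)
    rw [abs_le] at *
    constructor <;> linarith [d1.1, d1.2, d2.1, d2.2]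
  have hAB0 : ∀ a ∈ T, (v1 a - v0 a) * (v2 a - v0 a) ≠ 0 := by
    intro a ha h0
    have h1 : ((v3 a - v1 a - v2 a + v0 a : ℤ) : ZMod p) = 0 := by
      have r := h.rel a ha
      have r0 : (((v1 a - v0 a) * (v2 a - v0 a) : ℤ) : ZMod p) = 0 := by rw [h0, Int.cast_zero]
      apply mul_left_cancel₀ (hV.nz _ (h.m0 a ha))
      push_cast at r0 ⊢
      linear_combination r + r0
    have h2 := eq_zero_of_cast h1 ((bγ a ha).trans_lt (by linarith))
    have h3 := hk a ha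
    have h4 := ht a ha
    rw [h2] at h3 h4
    rcases mul_eq_zero.1 h0 with h5 | h5
    · rw [h5] at h3
      simp at h3
      omega
    · rw [h5] at h4
      simp at h4
      omega
  have hdec : ∀ a, ∃ (s d u : ℕ) (g n : ℤ), a ∈ T → 1 ≤ s ∧ v3 a - v1 a - v2 a + v0 a = s * g ∧
      (v1 a - v0 a) * (v2 a - v0 a) = s * n ∧ s = d * u ∧ (d : ℤ) ∣ n ∧ u * κ ^ 2 ≤ s ^ 2 := by
    intro a
    by_cases ha : a ∈ T
    · obtain ⟨s, d, u, g, n, H⟩ := decomp hκ (hk a ha) (ht a ha)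
      exact ⟨s, d, u, g, n, fun _ => H⟩
    · exact ⟨0, 0, 0, 0, 0, fun h => absurd h ha⟩
  choose s d u g n H using hdec
  set D := Dm (3 * m ^ 4) with hD
  set Bd := 2 * D * V.card * (κ ^ 2 * p) + 784 * D ^ 2 * m ^ 3 with hBd
  have hmap : ∀ a ∈ T, (v0 a, Nat.log 2 (s a)) ∈ V ×ˢ range D := by
    intro a ha
    obtain ⟨h1, -, h3, -⟩ := H a ha
    refine mem_product.2 ⟨h.m0 a ha, mem_range.2 (log_le_Dm (by omega) ?_)⟩
    have h4 : n a ≠ 0 := fun h0 => hAB0 a ha (by rw [h3, h0, mul_zero])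
    have h5 := mul_le_mul (hV.diam _ (h.m1 a ha) _ (h.m0 a ha))
      (hV.diam _ (h.m2 a ha) _ (h.m0 a ha)) (abs_nonneg _) (by positivity)
    rw [← abs_mul, h3, abs_mul, Nat.abs_cast] at h5
    have h6 := Int.one_le_abs h4
    have h7 : (s a : ℤ) ≤ m * m := by nlinarith
    have h8 : s a ≤ m * m := by exact_mod_cast h7
    have : m ^ 2 ≤ (m ^ 2) ^ 2 := Nat.le_self_pow (by norm_num) _
    nlinarith
  rw [card_eq_sum_card_fiberwise hmap, sum_mul]
  refine (sum_le_card_nsmul _ _ Bd ?_).trans (by rw [card_product, card_range, smul_eq_mul])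
  rintro ⟨w, j⟩ _
  refine (h.mono (filter_subset _ _)).level hV hp (w := w) (fun e he => ?_) hκ
    (σ := 2 ^ j) Nat.one_le_two_pow s d u g n (fun e he => ?_) (fun e he => ?_) (fun e he => ?_)
    (fun e he => ?_) (fun e he => ?_) (fun e he => ?_) (fun e he => ?_)
  all_goals simp only [mem_filter, Prod.mk.injEq] at he
  · exact he.2.1
  · exact (H e he.1).2.1
  · exact (H e he.1).2.2.1
  · exact hAB0 e he.1
  · exact (H e he.1).2.2.2.1
  · exact (H e he.1).2.2.2.2.1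
  · exact (H e he.1).2.2.2.2.2
  · have h1 := (H e he.1).1
    rw [← he.2.2]
    refine ⟨Nat.pow_log_le_self 2 (by omega), ?_⟩
    have := Nat.lt_pow_succ_log_self (b := 2) (by norm_num) (s e)
    rw [pow_succ] at this
    omega

/-- The energy bound. -/
theorem Quad.energy [Fact p.Prime] (h : Quad p V T v0 v1 v2 v3) (hV : Short p V m)
    (hp : 2 * m ^ 2 < p) {κ : ℕ} (hκ : 1 ≤ κ) :
    T.card * (κ ^ 2 * p) ≤ 4 * κ * V.card ^ 2 * (κ ^ 2 * p) + V.card * Dm (3 * m ^ 4) *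
      (2 * Dm (3 * m ^ 4) * V.card * (κ ^ 2 * p) + 784 * Dm (3 * m ^ 4) ^ 2 * m ^ 3) := by
  classical
  set T1 := T.filter fun a => Int.gcd (v1 a - v0 a) (v3 a - v1 a - v2 a + v0 a) < κ
  set T2 := T.filter fun a => Int.gcd (v2 a - v0 a) (v3 a - v2 a - v1 a + v0 a) < κ
  set T3 := T.filter fun a => κ ≤ Int.gcd (v1 a - v0 a) (v3 a - v1 a - v2 a + v0 a) ∧
    κ ≤ Int.gcd (v2 a - v0 a) (v3 a - v1 a - v2 a + v0 a)
  have h1 : T1.card ≤ 2 * κ * V.card ^ 2 :=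
    (h.mono (filter_subset _ _)).bad hV hp fun a ha => (mem_filter.1 ha).2
  have h2 : T2.card ≤ 2 * κ * V.card ^ 2 :=
    (h.swap.mono (filter_subset _ _)).bad hV hp fun a ha => (mem_filter.1 ha).2
  have h3 := (h.mono (filter_subset _ _) : Quad p V T3 v0 v1 v2 v3).good hV hp hκ
    (fun a ha => (mem_filter.1 ha).2.1) fun a ha => (mem_filter.1 ha).2.2
  have h4 : T.card ≤ T1.card + T2.card + T3.card := by
    refine le_trans (card_le_card (t := T1 ∪ T2 ∪ T3) fun a ha => ?_)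
      ((card_union_le _ _).trans (Nat.add_le_add_right (card_union_le _ _) _))
    simp only [T1, T2, T3, mem_union, mem_filter, ha, true_and]
    rw [show v3 a - v2 a - v1 a + v0 a = v3 a - v1 a - v2 a + v0 a by ring]
    omega
  calc T.card * (κ ^ 2 * p) ≤ (T1.card + T2.card + T3.card) * (κ ^ 2 * p) := by gcongr
    _ = (T1.card + T2.card) * (κ ^ 2 * p) + T3.card * (κ ^ 2 * p) := by ring
    _ ≤ (2 * κ * V.card ^ 2 + 2 * κ * V.card ^ 2) * (κ ^ 2 * p) + _ :=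
        Nat.add_le_add (Nat.mul_le_mul_right _ (Nat.add_le_add h1 h2)) h3
    _ = _ := by ring

/-- The bound for a set with few products. -/
theorem Short.core [Fact p.Prime] (hV : Short p V m) (hp : 2 * m ^ 2 < p) (S : Finset (ZMod p))
    (hS : ∀ v ∈ V, ∀ w ∈ V, (v : ZMod p) * w ∈ S) {N : ℕ} (hN : S.card ≤ N) :
    V.card ^ 2 ≤ 8 * N * (Dm (3 * m ^ 4) + 1) ^ 2 ∨
      V.card ^ 7 * p ≤ 802816 * N ^ 3 * Dm (3 * m ^ 4) ^ 3 * m ^ 3 := by
  classical
  have h1 := sq_le_mul_coll (V ×ˢ V) S (fun x => (x.1 : ZMod p) * x.2) fun x hx =>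
    hS _ (mem_product.1 hx).1 _ (mem_product.1 hx).2
  set E := ((V ×ˢ V) ×ˢ (V ×ˢ V)).filter
    fun x => (x.1.1 : ZMod p) * x.1.2 = (x.2.1 : ZMod p) * x.2.2 with hE
  have hQ : Quad p V E (fun x => x.1.1) (fun x => x.2.1) (fun x => x.2.2) (fun x => x.1.2) := by
    refine ⟨?_, ?_, ?_, ?_, ?_, ?_⟩
    rotate_right
    · intro a _ b _ h0 h1 h2 h3
      exact Prod.ext (Prod.ext h0 h3) (Prod.ext h1 h2)
    all_goals
      intro a ha
      simp only [hE, mem_filter, mem_product] at ha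
      tauto
  rw [card_product] at h1
  set J := V.card
  set D := Dm (3 * m ^ 4)
  have h2 : J ^ 4 ≤ N * E.card := by
    calc J ^ 4 = (J * J) ^ 2 := by ring
      _ ≤ S.card * E.card := h1
      _ ≤ N * E.card := by gcongr
  rcases Nat.eq_zero_or_pos J with hJ | hJ
  · left
    simp [hJ]
  have hN0 : 0 < N := by
    rcases Nat.eq_zero_or_pos N with h0 | h0
    · rw [h0, zero_mul] at h2
      exact absurd h2 (by have := pow_pos hJ 4; omega)
    · exact h0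
  set κ := J ^ 2 / (8 * N) with hκ
  have h3 : κ * (8 * N) ≤ J ^ 2 := Nat.div_mul_le_self _ _
  have h4 : J ^ 2 < (κ + 1) * (8 * N) := by
    rw [mul_comm]
    exact Nat.lt_mul_div_succ _ (by omega)
  rcases Nat.eq_zero_or_pos κ with h0 | h0
  · left
    rw [h0] at h4
    have : 1 ≤ (D + 1) ^ 2 := Nat.one_le_pow _ _ (by omega)
    nlinarith
  have h5 := hQ.energy hV hp h0
  have hp0 : 0 < p := by omega
  set P := κ ^ 2 * p with hP
  have hP0 : 0 < P := by positivity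
  have h6 : J ^ 4 * P ≤ N * (4 * κ * J ^ 2 * P + J * D * (2 * D * J * P + 784 * D ^ 2 * m ^ 3)) := by
    calc J ^ 4 * P ≤ N * E.card * P := by gcongr
      _ = N * (E.card * P) := by ring
      _ ≤ _ := Nat.mul_le_mul_left _ h5
  have h7 : κ * (8 * N) * (J ^ 2 * P) ≤ J ^ 2 * (J ^ 2 * P) := Nat.mul_le_mul_right _ h3
  have h8 : J ^ 4 * P ≤ 4 * N * D ^ 2 * J ^ 2 * P + 1568 * N * D ^ 3 * m ^ 3 * J := by nlinarith
  by_cases h9 : 4 * N * D ^ 2 * J ^ 2 * P ≤ 1568 * N * D ^ 3 * m ^ 3 * J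
  · right
    have h10 : J ^ 3 * P * J ≤ 3136 * N * D ^ 3 * m ^ 3 * J := by nlinarith
    have h11 := Nat.le_of_mul_le_mul_right h10 hJ
    have h12 : J ^ 2 ≤ 16 * N * κ := by nlinarith
    calc J ^ 7 * p = (J ^ 2) ^ 2 * (J ^ 3 * p) := by ring
      _ ≤ (16 * N * κ) ^ 2 * (J ^ 3 * p) := by gcongr
      _ = 256 * N ^ 2 * (J ^ 3 * P) := by rw [hP]; ring
      _ ≤ 256 * N ^ 2 * (3136 * N * D ^ 3 * m ^ 3) := by gcongr
      _ = _ := by ring
  · left
    have h10 : J ^ 2 * (J ^ 2 * P) ≤ 8 * N * D ^ 2 * (J ^ 2 * P) := by nlinarith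
    have h11 := Nat.le_of_mul_le_mul_right h10 (by positivity)
    refine h11.trans ?_
    gcongr
    omega

end Pool.Agent.MP_bd74a7_nt

end

section

/-!
The ordinates of the points of the exponential curve in a box.
-/

open Finset

namespace Pool.Agent.MP_bd74a7_nt

theorem setup (p : ℕ) [Fact p.Prime] (g : ℕ) (a K L : ℤ) (M : ℕ) (ha : ¬ (p : ℤ) ∣ a)
    (hM : M < orderOf (g : ZMod p)) :
    ∃ V : Finset ℤ, V.card = ((Icc (K + 1) (K + M) ×ˢ Icc (L + 1) (L + M)).filter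
        fun xy : ℤ × ℤ => (xy.2 : ZMod p) = a * (g : ZMod p) ^ xy.1).card ∧
      (∀ v ∈ V, L + 1 ≤ v ∧ v ≤ L + M) ∧ (∀ v ∈ V, (v : ZMod p) ≠ 0) ∧
      (∃ S : Finset (ZMod p), S.card ≤ 2 * M ∧ ∀ v ∈ V, ∀ w ∈ V, (v : ZMod p) * w ∈ S) ∧
      (∃ S : Finset (ZMod p), S.card ≤ 3 * M ∧
        ∀ u ∈ V, ∀ v ∈ V, ∀ w ∈ V, (u : ZMod p) * v * w ∈ S) := by
  classical
  have hg : (g : ZMod p) ≠ 0 := by
    intro h0
    rw [h0, orderOf_zero] at hM
    omega
  have ha' : (a : ZMod p) ≠ 0 := fun h => ha ((ZMod.intCast_zmod_eq_zero_iff_dvd a p).1 h)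
  set F := (Icc (K + 1) (K + M) ×ˢ Icc (L + 1) (L + M)).filter
    fun xy : ℤ × ℤ => (xy.2 : ZMod p) = a * (g : ZMod p) ^ xy.1 with hF
  have hmem : ∀ v ∈ F.image Prod.snd, (L + 1 ≤ v ∧ v ≤ L + M) ∧
      ∃ x, (K + 1 ≤ x ∧ x ≤ K + M) ∧ (v : ZMod p) = a * (g : ZMod p) ^ x := by
    intro v hv
    obtain ⟨xy, hxy, rfl⟩ := mem_image.1 hv
    simp only [hF, mem_filter, mem_product, mem_Icc] at hxy
    exact ⟨hxy.1.2, xy.1, hxy.1.1, hxy.2⟩
  refine ⟨F.image Prod.snd, card_image_of_injOn ?_, fun v hv => (hmem v hv).1, ?_, ?_, ?_⟩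
  · rintro ⟨x, y⟩ h1 ⟨x', y'⟩ h2 he
    simp only [hF, coe_filter, mem_product, mem_Icc, Set.mem_ofPred_eq] at h1 h2 he
    subst he
    have h3 : (g : ZMod p) ^ x = (g : ZMod p) ^ x' :=
      mul_left_cancel₀ ha' (h1.2.symm.trans h2.2)
    have h4 : Units.mk0 (g : ZMod p) hg ^ x = Units.mk0 (g : ZMod p) hg ^ x' := by
      ext
      simpa using h3
    rw [zpow_eq_zpow_iff_modEq, ← orderOf_units, Units.val_mk0] at h4
    have h5 := Int.eq_zero_of_abs_lt_dvd h4.dvd (by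
      rw [abs_lt]
      omega)
    rw [show x = x' by omega]
  · intro v hv
    obtain ⟨-, x, -, hx⟩ := hmem v hv
    rw [hx]
    exact mul_ne_zero ha' (zpow_ne_zero _ hg)
  · refine ⟨(Icc (2 * K + 1) (2 * K + 2 * M)).image fun z => (a : ZMod p) ^ 2 * (g : ZMod p) ^ z,
      card_image_le.trans (by rw [Int.card_Icc]; omega), fun v hv w hw => ?_⟩
    obtain ⟨-, x, h1, hx⟩ := hmem v hv
    obtain ⟨-, y, h2, hy⟩ := hmem w hw
    refine mem_image.2 ⟨x + y, mem_Icc.2 (by omega), ?_⟩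
    rw [hx, hy, zpow_add₀ hg]
    ring
  · refine ⟨(Icc (3 * K + 1) (3 * K + 3 * M)).image fun z => (a : ZMod p) ^ 3 * (g : ZMod p) ^ z,
      card_image_le.trans (by rw [Int.card_Icc]; omega), fun u hu v hv w hw => ?_⟩
    obtain ⟨-, z, h0, hz⟩ := hmem u hu
    obtain ⟨-, x, h1, hx⟩ := hmem v hv
    obtain ⟨-, y, h2, hy⟩ := hmem w hw
    refine mem_image.2 ⟨z + x + y, mem_Icc.2 (by omega), ?_⟩
    rw [hx, hy, hz, zpow_add₀ hg, zpow_add₀ hg]
    ring

end Pool.Agent.MP_bd74a7_nt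

end

section

/-!
The bound `M ^ (1/2) + M ^ (6/7) p ^ (-1/7)`.
-/

open Finset

namespace Pool.Agent.MP_bd74a7_nt

theorem Dm_pow_bound {ε : ℝ} (hε : 0 < ε) (c r : ℕ) (hr : 1 ≤ r) :
    ∃ C : ℝ, 1 ≤ C ∧ ∀ M : ℕ, 1 ≤ M → (Dm (c * M ^ r) : ℝ) + 1 ≤ C * (M : ℝ) ^ ε := by
  have hr' : (0 : ℝ) < r := by exact_mod_cast hr
  obtain ⟨C, hC, h⟩ := Dm_bound (ε := ε / r) (by positivity)
  refine ⟨C * (c : ℝ) ^ (ε / r) + 1, le_add_of_nonneg_left (by positivity), fun M hM => ?_⟩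
  have hM' : (1 : ℝ) ≤ M := by exact_mod_cast hM
  have h1 := h (c * M ^ r)
  have h2 : ((c * M ^ r : ℕ) : ℝ) ^ (ε / r) = (c : ℝ) ^ (ε / r) * (M : ℝ) ^ ε := by
    push_cast
    rw [Real.mul_rpow (by positivity) (by positivity), ← Real.rpow_natCast,
      ← Real.rpow_mul (by positivity)]
    congr 2
    field_simp
  have h3 : (1 : ℝ) ≤ (M : ℝ) ^ ε := Real.one_le_rpow hM' hε.le
  rw [h2] at h1
  nlinarith

theorem le_of_pow_le {x y : ℝ} {n : ℕ} (hn : n ≠ 0) (hy : 0 ≤ y) (h : x ^ n ≤ y ^ n) : x ≤ y :=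
  le_of_pow_le_pow_left₀ hn hy h

theorem rpow_pow_eq {x : ℝ} (hx : 0 ≤ x) (e : ℝ) (n : ℕ) : (x ^ e) ^ n = x ^ (e * n) := by
  rw [← Real.rpow_natCast, ← Real.rpow_mul hx]

theorem short_boundA {p m M : ℕ} [Fact p.Prime] {V : Finset ℤ} (hV : Short p V m)
    (hp : 2 * m ^ 2 < p) (hm : m ≤ M) (S : Finset (ZMod p))
    (hS : ∀ v ∈ V, ∀ w ∈ V, (v : ZMod p) * w ∈ S) (hN : S.card ≤ 2 * M) {D : ℝ}
    (hD : (Dm (3 * M ^ 4) : ℝ) + 1 ≤ D) :
    (V.card : ℝ) ≤ 10 * D * ((M : ℝ) ^ (1 / 2 : ℝ) + (M : ℝ) ^ (6 / 7 : ℝ) * (p : ℝ) ^ (-1 / 7 : ℝ)) := by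
  have hd : Dm (3 * m ^ 4) ≤ Dm (3 * M ^ 4) := Dm_mono (by gcongr)
  have hd' : (Dm (3 * m ^ 4) : ℝ) + 1 ≤ D := by
    have : (Dm (3 * m ^ 4) : ℝ) ≤ Dm (3 * M ^ 4) := by exact_mod_cast hd
    linarith
  have hd0 : (0 : ℝ) ≤ Dm (3 * m ^ 4) := Nat.cast_nonneg _
  have hD1 : 1 ≤ D := by linarith
  have hp0 : (0 : ℝ) < p := by exact_mod_cast (by omega : 0 < p)
  have hM0 : (0 : ℝ) ≤ M := Nat.cast_nonneg _
  have hA : (0 : ℝ) ≤ (M : ℝ) ^ (1 / 2 : ℝ) := by positivity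
  have hB : (0 : ℝ) ≤ (M : ℝ) ^ (6 / 7 : ℝ) * (p : ℝ) ^ (-1 / 7 : ℝ) := by positivity
  rcases hV.core hp S hS hN with h | h
  · have h1 : (V.card : ℝ) ^ 2 ≤ 8 * (2 * M) * (Dm (3 * m ^ 4) + 1) ^ 2 := by exact_mod_cast h
    have h2 : (V.card : ℝ) ≤ 4 * D * (M : ℝ) ^ (1 / 2 : ℝ) := by
      refine le_of_pow_le two_ne_zero (by positivity) (h1.trans ?_)
      rw [mul_pow, mul_pow, rpow_pow_eq hM0]
      norm_num
      calc 8 * (2 * (M : ℝ)) * (Dm (3 * m ^ 4) + 1) ^ 2 ≤ 8 * (2 * M) * D ^ 2 := by gcongr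
        _ = _ := by ring
    nlinarith [mul_nonneg (zero_le_one.trans hD1) hA, mul_nonneg (zero_le_one.trans hD1) hB]
  · have h1 : (V.card : ℝ) ^ 7 * p ≤ 802816 * (2 * M) ^ 3 * (Dm (3 * m ^ 4)) ^ 3 * m ^ 3 := by
      exact_mod_cast h
    have hm' : (m : ℝ) ≤ M := by exact_mod_cast hm
    have h2 : (V.card : ℝ) ≤ 10 * D * ((M : ℝ) ^ (6 / 7 : ℝ) * (p : ℝ) ^ (-1 / 7 : ℝ)) := by
      refine le_of_pow_le (n := 7) (by norm_num) (by positivity) ?_
      rw [mul_pow, mul_pow, mul_pow, rpow_pow_eq hM0, rpow_pow_eq hp0.le]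
      norm_num
      rw [Real.rpow_neg_one, ← mul_assoc, le_mul_inv_iff₀ hp0]
      refine h1.trans ?_
      have h3 : (Dm (3 * m ^ 4) : ℝ) ^ 3 ≤ D ^ 7 :=
        (pow_le_pow_left₀ hd0 (by linarith) 3).trans (pow_le_pow_right₀ hD1 (by norm_num))
      calc 802816 * (2 * (M : ℝ)) ^ 3 * (Dm (3 * m ^ 4)) ^ 3 * m ^ 3
          ≤ 802816 * (2 * M) ^ 3 * D ^ 7 * M ^ 3 := by gcongr
        _ = 6422528 * (D ^ 7 * M ^ 6) := by ring
        _ ≤ 10000000 * (D ^ 7 * M ^ 6) := by gcongr; norm_num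
        _ = _ := by ring
    nlinarith [mul_nonneg (zero_le_one.trans hD1) hA, mul_nonneg (zero_le_one.trans hD1) hB]

theorem boundA (ε : ℝ) (hε : 0 < ε) :
    ∃ C : ℝ, 0 < C ∧ ∀ (p : ℕ) [Fact p.Prime] (g : ℕ) (a K L : ℤ) (M : ℕ),
      ¬ (p : ℤ) ∣ a → 1 ≤ M → M < orderOf (g : ZMod p) → (M : ℝ) < √p →
      ((((Icc (K + 1) (K + M) ×ˢ Icc (L + 1) (L + M)).filter
        fun xy : ℤ × ℤ => (xy.2 : ZMod p) = a * (g : ZMod p) ^ xy.1).card : ℕ) : ℝ) ≤
        C * (M : ℝ) ^ ε *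
          ((M : ℝ) ^ (1 / 2 : ℝ) + (M : ℝ) ^ (6 / 7 : ℝ) * (p : ℝ) ^ (-1 / 7 : ℝ)) := by
  obtain ⟨C, hC, hD⟩ := Dm_pow_bound hε 3 4 (by norm_num)
  refine ⟨20 * C, by positivity, fun p _ g a K L M ha hM ht hp => ?_⟩
  obtain ⟨V, hc, hI, hnz, ⟨S, hS, hS'⟩, -⟩ := setup p g a K L M ha ht
  rw [← hc]
  have hp1 : M ^ 2 < p := by
    have := (Real.lt_sqrt (Nat.cast_nonneg M)).1 hp
    exact_mod_cast this
  have hp2 : 2 * (M / 2) ^ 2 < p := by
    have := Nat.pow_le_pow_left (Nat.div_mul_le_self M 2) 2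
    rw [mul_pow] at this
    omega
  have key : ∀ W : Finset ℤ, W ⊆ V → (∀ v ∈ W, ∀ w ∈ W, |v - w| ≤ (M / 2 : ℕ)) →
      (W.card : ℝ) ≤ 10 * (C * (M : ℝ) ^ ε) *
        ((M : ℝ) ^ (1 / 2 : ℝ) + (M : ℝ) ^ (6 / 7 : ℝ) * (p : ℝ) ^ (-1 / 7 : ℝ)) :=
    fun W hW hd => short_boundA ⟨hd, fun v hv => hnz v (hW hv)⟩ hp2 (Nat.div_le_self _ _) S
      (fun v hv w hw => hS' v (hW hv) w (hW hw)) hS (hD M hM)
  have h1 := key (V.filter fun v => v ≤ L + 1 + (M / 2 : ℕ)) (filter_subset _ _) fun v hv w hw => by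
    rw [mem_filter] at hv hw
    have := hI v hv.1
    have := hI w hw.1
    rw [abs_le]
    omega
  have h2 := key (V.filter fun v => ¬ v ≤ L + 1 + (M / 2 : ℕ)) (filter_subset _ _)
    fun v hv w hw => by
      rw [mem_filter] at hv hw
      have := hI v hv.1
      have := hI w hw.1
      rw [abs_le]
      omega
  have h3 := card_filter_add_card_filter_not (s := V) fun v => v ≤ L + 1 + (M / 2 : ℕ)
  rw [← h3, Nat.cast_add]
  linarith

end Pool.Agent.MP_bd74a7_nt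

end
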