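import Pool.Agent.Mg.Fbd74a7.G9f9525

section

/-!
Covering points of a lattice coset in a box by parallel lines.
-/

open Finset Matrix

namespace Pool.Agent.MP_bd74a7_nt

theorem lines_count (A : (Fin 3 → ℤ) → Prop) (B : Fin 3 → ℕ) (q K : ℕ)
    (hc : ∀ Y : Finset (Fin 3 → ℤ), (∀ y ∈ Y, A y ∧ ∀ k, |y k| ≤ (2 * B k : ℕ)) → Y.card * q ≤ K)
    {g : Fin 3 → ℤ} (hg : g ≠ 0) (hA : ∀ y, A y → ∀ t : ℕ, A (y + (t : ℤ) • g)) {τ : ℕ}
    (hτ : ∀ k, τ * |g k| ≤ B k) (X : Finset (Fin 3 → ℤ)) (hX : ∀ x ∈ X, A x ∧ ∀ k, |x k| ≤ B k) :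
    (X.image (crossProduct g)).card * τ * q ≤ K := by
  classical
  have hr : ∀ l : Fin 3 → ℤ, ∃ x, l ∈ X.image (crossProduct g) → x ∈ X ∧ crossProduct g x = l := by
    intro l
    by_cases hl : l ∈ X.image (crossProduct g)
    · obtain ⟨x, hx, e⟩ := mem_image.1 hl
      exact ⟨x, fun _ => ⟨hx, e⟩⟩
    · exact ⟨0, fun h => absurd h hl⟩
  choose r hr using hr
  have h1 := hc ((X.image (crossProduct g) ×ˢ range τ).image fun z => r z.1 + (z.2 : ℤ) • g) (by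
    intro y hy
    obtain ⟨⟨l, t⟩, hz, rfl⟩ := mem_image.1 hy
    simp only [mem_product, mem_range] at hz
    have h2 := hX _ (hr l hz.1).1
    refine ⟨hA _ h2.1 t, fun k => ?_⟩
    simp only [Pi.add_apply, Pi.smul_apply, smul_eq_mul]
    refine (abs_add_le _ _).trans ?_
    rw [abs_mul, Nat.abs_cast]
    have h3 : (t : ℤ) * |g k| ≤ τ * |g k| := by
      have : (t : ℤ) ≤ τ := by exact_mod_cast hz.2.le
      gcongr
    push_cast
    linarith [h2.2 k, hτ k])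
  rw [card_image_of_injOn, card_product, card_range] at h1
  · exact h1
  rintro ⟨l, t⟩ hz ⟨l', t'⟩ hz' e
  simp only [coe_product, Set.mem_prod, mem_coe] at hz hz'
  have e1 := congrArg (crossProduct g) e
  simp only [map_add, map_smul, cross_self, smul_zero, add_zero, (hr l hz.1).2,
    (hr l' hz'.1).2] at e1
  subst e1
  simp only [add_right_inj] at e
  have e2 : (t : ℤ) = t' := smul_left_injective ℤ hg e
  rw [Nat.cast_inj.1 e2]

theorem short_vec {β : Type*} (ψ : (Fin 3 → ℤ) → β) (S : Finset β) (C : Fin 3 → ℕ)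
    (hψ : ∀ x : Fin 3 → ℤ, (∀ k, 0 ≤ x k ∧ x k ≤ C k) → ψ x ∈ S)
    (hcard : S.card < ∏ k, (C k + 1)) :
    ∃ x x' : Fin 3 → ℤ, x - x' ≠ 0 ∧ ψ x = ψ x' ∧ ∀ k, |(x - x') k| ≤ C k := by
  classical
  obtain ⟨x, hx, x', hx', hne, he⟩ := exists_ne_map_eq_of_card_lt_of_maps_to
    (s := Fintype.piFinset fun k => Icc (0 : ℤ) (C k)) (t := S) (f := ψ) (by
      rw [Fintype.card_piFinset]
      refine hcard.trans_le (le_of_eq (prod_congr rfl fun k _ => ?_))
      rw [Int.card_Icc]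
      omega) (fun x hx => hψ x fun k => by
      simpa using Fintype.mem_piFinset.1 (mem_coe.1 hx) k)
  refine ⟨x, x', sub_ne_zero.2 hne, he, fun k => ?_⟩
  have h1 := mem_Icc.1 (Fintype.mem_piFinset.1 hx k)
  have h2 := mem_Icc.1 (Fintype.mem_piFinset.1 hx' k)
  rw [Pi.sub_apply, abs_le]
  constructor <;> linarith [h1.1, h1.2, h2.1, h2.2]

theorem exists_root (a c k : ℕ) (ha : 1 ≤ a) (hk : 1 ≤ k) :
    ∃ τ, τ ^ k * a ≤ c ∧ c < (τ + 1) ^ k * a := by
  classical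
  have hex : ∃ τ, c < (τ + 1) ^ k * a :=
    ⟨c, by nlinarith [Nat.le_self_pow (show k ≠ 0 by omega) (c + 1)]⟩
  refine ⟨Nat.find hex, ?_, Nat.find_spec hex⟩
  rcases Nat.eq_zero_or_pos (Nat.find hex) with h | h
  · rw [h, zero_pow (by omega), zero_mul]
    exact Nat.zero_le _
  · have := Nat.find_min hex (m := Nat.find hex - 1) (by omega)
    rw [Nat.sub_add_cancel h] at this
    omega

theorem prod_div_gt (B : Fin 3 → ℕ) {τ : ℕ} (hτ : 1 ≤ τ) :
    ∏ k, B k < τ ^ 3 * ∏ k, (B k / τ + 1) := by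
  have h : ∀ k, B k < τ * (B k / τ + 1) := fun k => Nat.lt_mul_div_succ _ hτ
  rw [Fin.prod_univ_three, Fin.prod_univ_three]
  calc B 0 * B 1 * B 2 < (τ * (B 0 / τ + 1)) * (τ * (B 1 / τ + 1)) * (τ * (B 2 / τ + 1)) :=
        Nat.mul_lt_mul'' (Nat.mul_lt_mul'' (h 0) (h 1)) (h 2)
    _ = _ := by ring

theorem mul_le_of_le_div {τ b : ℕ} {x : ℤ} (h : |x| ≤ (b / τ : ℕ)) : τ * |x| ≤ b := by
  have h1 : ((b / τ * τ : ℕ) : ℤ) ≤ b := by exact_mod_cast Nat.div_mul_le_self b τ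
  rw [Nat.cast_mul] at h1
  have h2 : (τ : ℤ) * |x| ≤ τ * (b / τ : ℕ) := by gcongr
  linarith

theorem exists_prim {N : Fin 3 → ℤ} (hN : N ≠ 0) :
    ∃ (h : ℤ) (n e : Fin 3 → ℤ), h ≠ 0 ∧ N = h • n ∧ e ⬝ᵥ n = 1 := by
  set g1 : ℤ := ((Int.gcd (N 0) (N 1) : ℕ) : ℤ) with hg1
  set h : ℤ := ((Int.gcd g1 (N 2) : ℕ) : ℤ) with hh
  have d0 : h ∣ N 0 := (Int.gcd_dvd_left _ _).trans (Int.gcd_dvd_left _ _)
  have d1 : h ∣ N 1 := (Int.gcd_dvd_left _ _).trans (Int.gcd_dvd_right _ _)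
  have d2 : h ∣ N 2 := Int.gcd_dvd_right _ _
  obtain ⟨n0, e0⟩ := d0
  obtain ⟨n1, e1⟩ := d1
  obtain ⟨n2, e2⟩ := d2
  have h0 : h ≠ 0 := by
    intro h0
    apply hN
    funext k
    fin_cases k <;> simp [e0, e1, e2, h0]
  have b1 := Int.gcd_eq_gcd_ab (N 0) (N 1)
  have b2 := Int.gcd_eq_gcd_ab g1 (N 2)
  rw [← hg1] at b1
  rw [← hh] at b2
  refine ⟨h, ![n0, n1, n2], ![Int.gcdA (N 0) (N 1) * Int.gcdA g1 (N 2),
    Int.gcdB (N 0) (N 1) * Int.gcdA g1 (N 2), Int.gcdB g1 (N 2)], h0, ?_, ?_⟩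
  · funext k
    fin_cases k <;> simp [e0, e1, e2]
  · apply mul_left_cancel₀ h0
    simp only [dotProduct, Fin.sum_univ_three, cons_val_zero, cons_val_one, cons_val_two,
      Nat.succ_eq_add_one, Nat.reduceAdd, tail_cons, head_cons]
    generalize Int.gcdA (N 0) (N 1) = u at *
    generalize Int.gcdB (N 0) (N 1) = v at *
    generalize Int.gcdA g1 (N 2) = u' at *
    generalize Int.gcdB g1 (N 2) = v' at *
    linear_combination -b2 - u' * b1 - u * u' * e0 - v * u' * e1 - v' * e2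

/-- The linear form attached to a vector of residues. -/
def lf {q : ℕ} (a : Fin 3 → ZMod q) : (Fin 3 → ℤ) →+ ZMod q where
  toFun x := a 0 * x 0 + a 1 * x 1 + a 2 * x 2
  map_zero' := by simp
  map_add' x y := by
    simp only [Pi.add_apply, Int.cast_add]
    ring

theorem lf_apply {q : ℕ} (a : Fin 3 → ZMod q) (x : Fin 3 → ℤ) :
    lf a x = a 0 * x 0 + a 1 * x 1 + a 2 * x 2 := rfl

theorem count3 {q : ℕ} [NeZero q] (a : Fin 3 → ZMod q) (ha : Function.Surjective (lf a))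
    (B : Fin 3 → ℕ) (hB : ∀ k, 1 ≤ B k) {u v w : Fin 3 → ℤ} (hdet : u ⬝ᵥ crossProduct v w ≠ 0)
    (hu : lf a u = 0 ∧ ∀ k, |u k| ≤ B k) (hv : lf a v = 0 ∧ ∀ k, |v k| ≤ B k)
    (hw : lf a w = 0 ∧ ∀ k, |w k| ≤ B k) (c : ZMod q) (Y : Finset (Fin 3 → ℤ))
    (hY : ∀ y ∈ Y, lf a y = c ∧ ∀ k, |y k| ≤ (3 * B k : ℕ)) :
    Y.card * q ≤ 2197 * ∏ k, B k := by
  have h := count (lf a) ha (Matrix.of ![u, v, w])ᵀ (by
    rw [det_transpose]
    rwa [triple_product_eq_det] at hdet) B (fun k => 3 * B k) (by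
    intro k i
    fin_cases i
    · exact hu.2 k
    · exact hv.2 k
    · exact hw.2 k) (by
    intro i
    fin_cases i
    · exact hu.1
    · exact hv.1
    · exact hw.1) Y c hY
  refine h.trans ?_
  rw [Fin.prod_univ_three, Fin.prod_univ_three]
  have h0 := hB 0
  have h1 := hB 1
  have h2 := hB 2
  calc _ ≤ (13 * B 0) * (13 * B 1) * (13 * B 2) := by
        gcongr <;> omega
    _ = _ := by ring

theorem plane_count (B : Fin 3 → ℕ) (hB : ∀ k, 1 ≤ B k) {n e v w : Fin 3 → ℤ} {h : ℤ}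
    (hh : h ≠ 0) (hn : crossProduct v w = h • n) (he : e ⬝ᵥ n = 1) (hv : ∀ k, |v k| ≤ B k)
    (hw : ∀ k, |w k| ≤ B k) (c : ℤ) (k : Fin 3) (Y : Finset (Fin 3 → ℤ))
    (hY : ∀ y ∈ Y, n ⬝ᵥ y = c ∧ ∀ k, |y k| ≤ (2 * B k : ℕ)) :
    Y.card * ((n k).natAbs * B k) ≤ 2197 * ∏ k, B k := by
  classical
  by_cases hk : n k = 0
  · simp [hk]
  have : NeZero (n k).natAbs := ⟨Int.natAbs_ne_zero.2 hk⟩
  have hlf : ∀ y, lf (fun i => (n i : ZMod (n k).natAbs)) y = ((n ⬝ᵥ y : ℤ) : ZMod _) := by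
    intro y
    simp [lf_apply, dotProduct, Fin.sum_univ_three]
  have hv0 : n ⬝ᵥ v = 0 := by
    have := dot_self_cross v w
    rw [hn, dotProduct_smul, smul_eq_mul, dotProduct_comm] at this
    exact (mul_eq_zero.1 this).resolve_left hh
  have hw0 : n ⬝ᵥ w = 0 := by
    have := dot_cross_self v w
    rw [hn, dotProduct_smul, smul_eq_mul, dotProduct_comm] at this
    exact (mul_eq_zero.1 this).resolve_left hh
  have h1 := count3 (fun i => (n i : ZMod (n k).natAbs)) (by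
      intro r
      obtain ⟨z, rfl⟩ := ZMod.intCast_surjective r
      exact ⟨z • e, by rw [hlf, dotProduct_smul, dotProduct_comm, he, smul_eq_mul, mul_one]⟩)
    B hB (u := Pi.single k 1) (v := v) (w := w) (by
      rw [hn, single_dotProduct, one_mul]
      exact mul_ne_zero hh hk)
    ⟨by rw [hlf, dotProduct_single, mul_one, ZMod.intCast_zmod_eq_zero_iff_dvd]; simp, fun i => by
      by_cases hi : i = k
      · subst hi
        simpa using hB i
      · simp [hi]⟩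
    ⟨by rw [hlf, hv0, Int.cast_zero], hv⟩ ⟨by rw [hlf, hw0, Int.cast_zero], hw⟩ c
    ((Y ×ˢ range (B k)).image fun z => z.1 + (z.2 : ℤ) • Pi.single k 1) (by
      intro y hy
      obtain ⟨⟨y, t⟩, hz, rfl⟩ := mem_image.1 hy
      simp only [mem_product, mem_range] at hz
      refine ⟨?_, fun i => ?_⟩
      · rw [hlf, dotProduct_add, dotProduct_smul, dotProduct_single, (hY y hz.1).1]
        have : ((n k : ℤ) : ZMod (n k).natAbs) = 0 := by
          rw [ZMod.intCast_zmod_eq_zero_iff_dvd]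
          simp
        simp [this]
      · have h2 := (hY y hz.1).2 i
        have h3 : (t : ℤ) ≤ B k := by exact_mod_cast hz.2.le
        by_cases hi : i = k
        · subst hi
          simp only [Pi.add_apply, Pi.smul_apply, Pi.single_eq_same, smul_eq_mul, mul_one]
          refine (abs_add_le _ _).trans ?_
          rw [Nat.abs_cast]
          push_cast at h2 ⊢
          linarith
        · simp only [Pi.add_apply, Pi.smul_apply, Pi.single_eq_of_ne hi, smul_zero, add_zero]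
          push_cast at h2 ⊢
          have : (0 : ℤ) ≤ B i := Nat.cast_nonneg _
          linarith)
  rw [card_image_of_injOn, card_product, card_range] at h1
  · calc _ = Y.card * B k * (n k).natAbs := by ring
      _ ≤ _ := h1
  rintro ⟨y, t⟩ hz ⟨y', t'⟩ hz' e
  simp only [coe_product, Set.mem_prod, mem_coe] at hz hz'
  have e1 := congrArg (fun z => n ⬝ᵥ z) e
  simp only [dotProduct_add, dotProduct_smul, dotProduct_single, (hY y hz.1).1, (hY y' hz'.1).1,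
    smul_eq_mul, mul_one, add_right_inj] at e1
  have e2 : t = t' := Nat.cast_inj.1 (mul_right_cancel₀ hk e1)
  subst e2
  simp only [add_left_inj] at e
  rw [e]

end Pool.Agent.MP_bd74a7_nt

end

section

/-!
Few lines, or a small normal vector.
-/

open Finset Matrix

namespace Pool.Agent.MP_bd74a7_nt

/-- The box for sum, product and third coordinate. -/
def Bx (m : ℕ) : Fin 3 → ℕ := ![2 * m, m ^ 2, m]

variable {p m : ℕ}

theorem Bx_pos (hm : 1 ≤ m) (k : Fin 3) : 1 ≤ Bx m k := by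
  have := Nat.one_le_pow 2 m hm
  fin_cases k <;> simp [Bx] <;> omega

theorem prod_Bx : ∏ k, Bx m k = 2 * m ^ 4 := by
  simp [Bx, Fin.prod_univ_three]
  ring

theorem abs_le_of_mul {τ b : ℕ} {x : ℤ} (hτ : 1 ≤ τ) (h : τ * |x| ≤ b) : |x| ≤ b := by
  have : (1 : ℤ) ≤ τ := by exact_mod_cast hτ
  nlinarith [abs_nonneg x]

theorem geom_three [Fact p.Prime] (hm : 1 ≤ m) (a : Fin 3 → ZMod p) (ha : a 1 = 1) (c : ZMod p)
    (X : Finset (Fin 3 → ℤ)) (hX : ∀ x ∈ X, lf a x = c ∧ ∀ k, |x k| ≤ Bx m k)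
    {u v w : Fin 3 → ℤ} (hdet : u ⬝ᵥ crossProduct v w ≠ 0)
    (hu : lf a u = 0 ∧ ∀ k, |u k| ≤ Bx m k) (hv : lf a v = 0 ∧ ∀ k, |v k| ≤ Bx m k)
    (hw : lf a w = 0 ∧ ∀ k, |w k| ≤ Bx m k) :
    ∃ g : Fin 3 → ℤ, g ≠ 0 ∧ (∀ k, |g k| ≤ Bx m k) ∧
      (X.image (crossProduct g)).card ^ 3 * p ^ 2 ≤ 4 * 4394 ^ 3 * m ^ 8 := by
  have hsurj : Function.Surjective (lf a) := by
    intro r
    obtain ⟨z, rfl⟩ := ZMod.intCast_surjective r
    exact ⟨![0, z, 0], by simp [lf_apply, ha]⟩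
  have hp0 : 0 < p := (Fact.out : p.Prime).pos
  obtain ⟨τ, g, h1, hg, hg0, hτ, hlt⟩ : ∃ (τ : ℕ) (g : Fin 3 → ℤ), 1 ≤ τ ∧ g ≠ 0 ∧ lf a g = 0 ∧
      (∀ k, τ * |g k| ≤ Bx m k) ∧ 2 * m ^ 4 ≤ (2 * τ) ^ 3 * p := by
    obtain ⟨τ, h1, h2⟩ := exists_root p (2 * m ^ 4) 3 hp0 (by norm_num)
    rcases Nat.eq_zero_or_pos τ with rfl | hτ
    · refine ⟨1, u, le_rfl, ?_, hu.1, by simpa using hu.2, by omega⟩
      rintro rfl
      simp at hdet
    obtain ⟨x, x', h3, h4, h5⟩ := short_vec (lf a) univ (fun k => Bx m k / τ)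
      (fun _ _ => mem_univ _) (by
        have := prod_div_gt (Bx m) hτ
        rw [prod_Bx] at this
        rw [card_univ, ZMod.card]
        exact Nat.lt_of_mul_lt_mul_left (h1.trans_lt this))
    refine ⟨τ, x - x', hτ, h3, by rw [map_sub, h4, sub_self], fun k => mul_le_of_le_div (h5 k),
      h2.le.trans ?_⟩
    gcongr
    omega
  refine ⟨g, hg, fun k => abs_le_of_mul h1 (hτ k), ?_⟩
  have h2 := lines_count (fun y => lf a y = c) (Bx m) p (4394 * m ^ 4) (fun Y hY => by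
    have := count3 a hsurj (Bx m) (Bx_pos hm) hdet hu hv hw c Y fun y hy =>
      ⟨(hY y hy).1, fun k => ((hY y hy).2 k).trans (by exact_mod_cast (by omega))⟩
    rw [prod_Bx] at this
    omega) hg (fun y hy t => by rw [map_add, map_zsmul, hg0, smul_zero, add_zero, hy]) hτ X hX
  set l := (X.image (crossProduct g)).card
  refine Nat.le_of_mul_le_mul_right ?_ (show 0 < 2 * m ^ 4 by positivity)
  calc l ^ 3 * p ^ 2 * (2 * m ^ 4) ≤ l ^ 3 * p ^ 2 * ((2 * τ) ^ 3 * p) := by gcongr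
    _ = 8 * (l * τ * p) ^ 3 := by ring
    _ ≤ 8 * (4394 * m ^ 4) ^ 3 := by gcongr
    _ = _ := by ring

theorem geom_two (hm : 1 ≤ m) (X : Finset (Fin 3 → ℤ)) {n e v w : Fin 3 → ℤ} {h c : ℤ}
    (hX : ∀ x ∈ X, n ⬝ᵥ x = c ∧ ∀ k, |x k| ≤ Bx m k) (hh : h ≠ 0)
    (hn : crossProduct v w = h • n) (he : e ⬝ᵥ n = 1) (hn1 : n 1 ≠ 0) (hv : ∀ k, |v k| ≤ Bx m k)
    (hw : ∀ k, |w k| ≤ Bx m k) :
    ∃ g : Fin 3 → ℤ, g ≠ 0 ∧ (∀ k, |g k| ≤ Bx m k) ∧ (X.image (crossProduct g)).card ^ 2 *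
      (2 * (n 0).natAbs + m * (n 1).natAbs + (n 2).natAbs) ≤ 54 * 4394 ^ 2 * m ^ 3 := by
  set ν := ∑ k, (n k).natAbs * Bx m k with hν
  have hν1 : ν = m * (2 * (n 0).natAbs + m * (n 1).natAbs + (n 2).natAbs) := by
    simp [hν, Bx, Fin.sum_univ_three]
    ring
  have hν2 : m ^ 2 ≤ ν := by
    have := Nat.le_mul_of_pos_right m (Int.natAbs_pos.2 hn1)
    rw [hν1, sq]
    gcongr
    omega
  have hm2 : m ≤ m ^ 2 := Nat.le_self_pow (by norm_num) m
  obtain ⟨τ, g, h1, hg, hg0, hτ, hlt⟩ : ∃ (τ : ℕ) (g : Fin 3 → ℤ), 1 ≤ τ ∧ g ≠ 0 ∧ n ⬝ᵥ g = 0 ∧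
      (∀ k, τ * |g k| ≤ Bx m k) ∧ 2 * m ^ 4 ≤ (2 * τ) ^ 2 * (3 * ν) := by
    obtain ⟨τ, h1, h2⟩ := exists_root (3 * ν) (2 * m ^ 4) 2 (by omega) (by norm_num)
    rcases Nat.eq_zero_or_pos τ with rfl | hτ
    · refine ⟨1, v, le_rfl, ?_, ?_, by simpa using hv, by omega⟩
      · rintro rfl
        have := congrFun hn 1
        simp [hh, hn1] at this
      · have := dot_self_cross v w
        rw [hn, dotProduct_smul, smul_eq_mul, dotProduct_comm] at this
        exact (mul_eq_zero.1 this).resolve_left hh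
    have hτm : τ ≤ m := by
      by_contra hc
      have h3 : m ^ 2 ≤ τ ^ 2 := Nat.pow_le_pow_left (by omega) 2
      have h4 : m ^ 2 * (3 * m ^ 2) ≤ τ ^ 2 * (3 * ν) := by gcongr
      have h5 : 0 < m ^ 4 := by positivity
      nlinarith
    obtain ⟨x, x', h3, h4, h5⟩ := short_vec (fun x => n ⬝ᵥ x)
      (Icc (-((ν / τ : ℕ) : ℤ)) (ν / τ : ℕ)) (fun k => Bx m k / τ) (fun x hx => by
        rw [mem_Icc, ← abs_le]
        refine abs_le_div hτ le_rfl rfl ?_
        rw [dotProduct, mul_sum, hν]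
        refine (abs_sum_le_sum_abs _ _).trans ?_
        push_cast
        refine sum_le_sum fun k _ => ?_
        have := mul_le_of_le_div (τ := τ) (b := Bx m k) (x := x k)
          (by rw [abs_of_nonneg (hx k).1]; exact (hx k).2)
        rw [abs_mul, abs_mul, Nat.abs_cast]
        nlinarith [abs_nonneg (n k)]) (by
        have h6 := prod_div_gt (Bx m) hτ
        rw [prod_Bx] at h6
        have h7 : (Icc (-((ν / τ : ℕ) : ℤ)) (ν / τ : ℕ)).card = 2 * (ν / τ) + 1 := by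
          rw [Int.card_Icc]
          omega
        rw [h7]
        refine Nat.lt_of_mul_lt_mul_left (lt_of_le_of_lt ?_ h6)
        have h8 : ν / τ * τ ≤ ν := Nat.div_mul_le_self _ _
        calc τ ^ 3 * (2 * (ν / τ) + 1) = τ ^ 2 * (2 * (ν / τ * τ) + τ) := by ring
          _ ≤ τ ^ 2 * (3 * ν) := by gcongr; omega
          _ ≤ _ := h1)
    refine ⟨τ, x - x', hτ, h3, by rw [dotProduct_sub, sub_eq_zero]; exact h4,
      fun k => mul_le_of_le_div (h5 k), h2.le.trans ?_⟩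
    gcongr
    omega
  refine ⟨g, hg, fun k => abs_le_of_mul h1 (hτ k), ?_⟩
  have h2 := lines_count (fun y => n ⬝ᵥ y = c) (Bx m) ν (3 * (4394 * m ^ 4)) (fun Y hY => by
    have := fun k => plane_count (Bx m) (Bx_pos hm) hh hn he hv hw c k Y hY
    rw [prod_Bx] at this
    rw [hν, Fin.sum_univ_three, mul_add, mul_add]
    linarith [this 0, this 1, this 2]) hg
    (fun y hy t => by rw [dotProduct_add, dotProduct_smul, hg0, smul_zero, add_zero, hy]) hτ X hX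
  set l := (X.image (crossProduct g)).card
  refine Nat.le_of_mul_le_mul_right ?_ (show 0 < m * (2 * m ^ 4) by positivity)
  calc l ^ 2 * (2 * (n 0).natAbs + m * (n 1).natAbs + (n 2).natAbs) * (m * (2 * m ^ 4))
      = l ^ 2 * ν * (2 * m ^ 4) := by rw [hν1]; ring
    _ ≤ l ^ 2 * ν * ((2 * τ) ^ 2 * (3 * ν)) := by gcongr
    _ = 12 * (l * τ * ν) ^ 2 := by ring
    _ ≤ 12 * (3 * (4394 * m ^ 4)) ^ 2 := by gcongr
    _ = _ := by ring

theorem abs_det_le {a b c d : ℤ} {A B : ℕ} (ha : |a| ≤ A) (hb : |b| ≤ B) (hc : |c| ≤ B)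
    (hd : |d| ≤ A) : |a * b - c * d| ≤ 2 * (A * B) := by
  refine (abs_sub _ _).trans ?_
  rw [abs_mul, abs_mul]
  have i1 := mul_le_mul ha hb (abs_nonneg _) (by positivity)
  have i2 := mul_le_mul hc hd (abs_nonneg _) (by positivity)
  linarith

theorem geom [Fact p.Prime] (hm : 1 ≤ m) (hp : 4 * m ^ 3 < p) (a : Fin 3 → ZMod p) (ha : a 1 = 1)
    (c : ZMod p) (X : Finset (Fin 3 → ℤ))
    (hX : ∀ x ∈ X, lf a x = c ∧ ∀ k, 0 ≤ x k ∧ x k ≤ Bx m k) {s : ℕ} (hs : 1 ≤ s) :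
    (∃ g : Fin 3 → ℤ, g ≠ 0 ∧ (∀ k, |g k| ≤ Bx m k) ∧ (X.image (crossProduct g)).card ≤ s) ∨
    s ^ 3 * p ^ 2 ≤ 4 * 4394 ^ 3 * m ^ 8 ∨
    (s < X.card ∧ ∃ n e : Fin 3 → ℤ, e ⬝ᵥ n = 1 ∧ (n 1 : ZMod p) ≠ 0 ∧
      (∀ k, (n k : ZMod p) = n 1 * a k) ∧ (∀ x ∈ X, ∀ x' ∈ X, n ⬝ᵥ x = n ⬝ᵥ x') ∧
      s ^ 2 * (2 * (n 0).natAbs + m * (n 1).natAbs + (n 2).natAbs) ≤ 54 * 4394 ^ 2 * m ^ 3) := by
  classical
  by_cases hcov : ∃ g : Fin 3 → ℤ, g ≠ 0 ∧ (∀ k, |g k| ≤ Bx m k) ∧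
    (X.image (crossProduct g)).card ≤ s
  · exact Or.inl hcov
  right
  push Not at hcov
  have hsX : s < X.card := (hcov (fun _ => 1) (fun h => by simpa using congrFun h 0)
    (fun k => by simpa using Bx_pos hm k)).trans_le card_image_le
  have hbox : ∀ x ∈ X, ∀ k, |x k| ≤ Bx m k := fun x hx k => by
    rw [abs_of_nonneg ((hX x hx).2 k).1]
    exact ((hX x hx).2 k).2
  have hdiff : ∀ x ∈ X, ∀ y ∈ X, lf a (x - y) = 0 ∧ ∀ k, |(x - y) k| ≤ Bx m k := by
    intro x hx y hy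
    refine ⟨by rw [map_sub, (hX x hx).1, (hX y hy).1, sub_self], fun k => ?_⟩
    have h1 := (hX x hx).2 k
    have h2 := (hX y hy).2 k
    rw [Pi.sub_apply, abs_le]
    constructor <;> linarith [h1.1, h1.2, h2.1, h2.2]
  obtain ⟨x1, hx1, x0, hx0, h10⟩ := one_lt_card.1 (hs.trans_lt hsX)
  obtain ⟨x2, hx2, hN⟩ : ∃ x2 ∈ X, crossProduct (x1 - x0) (x2 - x0) ≠ 0 := by
    by_contra hn
    push Not at hn
    have h1 := hcov (x1 - x0) (sub_ne_zero.2 h10) (hdiff x1 hx1 x0 hx0).2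
    have h2 : (X.image (crossProduct (x1 - x0))).card ≤ 1 := by
      refine card_le_one.2 fun l hl l' hl' => ?_
      obtain ⟨x, hx, rfl⟩ := mem_image.1 hl
      obtain ⟨x', hx', rfl⟩ := mem_image.1 hl'
      have h3 := hn x hx
      have h4 := hn x' hx'
      rw [map_sub (crossProduct (x1 - x0)), sub_eq_zero] at h3 h4
      rw [h3, h4]
    omega
  have hv := hdiff x1 hx1 x0 hx0
  have hw := hdiff x2 hx2 x0 hx0
  generalize x1 - x0 = v at *
  generalize x2 - x0 = w at *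
  by_cases h3 : ∃ x3 ∈ X, (x3 - x0) ⬝ᵥ crossProduct v w ≠ 0
  · left
    obtain ⟨x3, hx3, hdet⟩ := h3
    obtain ⟨g, hg, hg', hl⟩ := geom_three hm a ha c X (fun x hx => ⟨(hX x hx).1, hbox x hx⟩) hdet
      (hdiff x3 hx3 x0 hx0) hv hw
    refine le_trans ?_ hl
    have := (hcov g hg hg').le
    gcongr
  right
  push Not at h3
  obtain ⟨h, n, e, hh, hn, he⟩ := exists_prim hN
  have hpl : ∀ x ∈ X, n ⬝ᵥ x = n ⬝ᵥ x0 := by
    intro x hx
    have := h3 x hx
    rw [hn, dotProduct_smul, smul_eq_mul, dotProduct_comm, dotProduct_sub] at this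
    exact sub_eq_zero.1 ((mul_eq_zero.1 this).resolve_left hh)
  have c0 : v 1 * w 2 - v 2 * w 1 = h * n 0 := by simpa [cross_apply] using congrFun hn 0
  have c1 : v 2 * w 0 - v 0 * w 2 = h * n 1 := by simpa [cross_apply] using congrFun hn 1
  have c2 : v 0 * w 1 - v 1 * w 0 = h * n 2 := by simpa [cross_apply] using congrFun hn 2
  have hm' : (1 : ℤ) ≤ m := by exact_mod_cast hm
  have hp' : 4 * (m : ℤ) ^ 3 < p := by exact_mod_cast hp
  have hbd : ∀ k, |h * n k| ≤ 4 * m ^ 3 := by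
    intro k
    have b0 := abs_det_le (hv.2 1) (hw.2 2) (hv.2 2) (hw.2 1)
    have b1 := abs_det_le (hv.2 2) (hw.2 0) (hv.2 0) (hw.2 2)
    have b2 := abs_det_le (hv.2 0) (hw.2 1) (hv.2 1) (hw.2 0)
    rw [c0] at b0
    rw [c1] at b1
    rw [c2] at b2
    simp only [Bx, cons_val_zero, cons_val_one, cons_val_two, Nat.succ_eq_add_one,
      Nat.reduceAdd, tail_cons, head_cons, Nat.cast_mul, Nat.cast_pow, Nat.cast_ofNat] at b0 b1 b2
    fin_cases k
    · exact b0.trans (by nlinarith)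
    · exact b1.trans (by nlinarith)
    · exact b2.trans (by nlinarith)
  have hhp : (h : ZMod p) ≠ 0 := by
    intro h0
    obtain ⟨k, hk⟩ : ∃ k, n k ≠ 0 := by
      by_contra hc
      push Not at hc
      rw [show n = 0 from funext hc] at he
      simp at he
    refine hh (eq_zero_of_cast h0 (lt_of_le_of_lt ?_ ((hbd k).trans_lt hp')))
    rw [abs_mul]
    nlinarith [Int.one_le_abs hk, abs_nonneg h]
  have hcong : ∀ k, (n k : ZMod p) = n 1 * a k := by
    have r1 := hv.1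
    have r2 := hw.1
    rw [lf_apply, ha] at r1 r2
    have d0 := congrArg (Int.cast : ℤ → ZMod p) c0
    have d1 := congrArg (Int.cast : ℤ → ZMod p) c1
    have d2 := congrArg (Int.cast : ℤ → ZMod p) c2
    push_cast at d0 d1 d2
    intro k
    apply mul_left_cancel₀ hhp
    fin_cases k
    · simp only [Fin.zero_eta]
      linear_combination -d0 + a 0 * d1 + (w 2 : ZMod p) * r1 - (v 2 : ZMod p) * r2
    · simp [ha]
    · simp only [Fin.reduceFinMk]
      linear_combination -d2 + a 2 * d1 - (w 0 : ZMod p) * r1 + (v 0 : ZMod p) * r2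
  have hn1 : (n 1 : ZMod p) ≠ 0 := by
    intro h0
    have := congrArg (Int.cast : ℤ → ZMod p) he
    simp only [dotProduct, Fin.sum_univ_three, Int.cast_add, Int.cast_mul, Int.cast_one] at this
    rw [hcong 0, hcong 2, h0] at this
    simp at this
  refine ⟨hsX, n, e, he, hn1, hcong, fun x hx x' hx' => by rw [hpl x hx, hpl x' hx'], ?_⟩
  obtain ⟨g, hg, hg', hl⟩ := geom_two hm X (fun x hx => ⟨hpl x hx, hbox x hx⟩) hh hn he
    (fun h0 => hn1 (by rw [h0, Int.cast_zero])) hv.2 hw.2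
  refine le_trans ?_ hl
  have := (hcov g hg hg').le
  gcongr

end Pool.Agent.MP_bd74a7_nt

end

section

/-!
Points of integral and modular hyperbolas, and pairs of representations.
-/

open Finset

namespace Pool.Agent.MP_bd74a7_nt

variable {ι : Type*} {p m : ℕ}

theorem abs_lin_le {g0 g1 b : ℤ} (h0 : |g0| ≤ 2 * m) (h1 : |g1| ≤ m ^ 2) (hb : 0 ≤ b ∧ b ≤ m) :
    |g0 * b - g1| ≤ 3 * m ^ 2 := by
  refine (abs_sub _ _).trans ?_
  rw [abs_mul, abs_of_nonneg hb.1]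
  have := mul_le_mul h0 hb.2 hb.1 (by positivity)
  nlinarith

theorem ihyp (T : Finset ι) (b c : ι → ℤ) (hinj : ∀ s ∈ T, ∀ t ∈ T, b s = b t → c s = c t → s = t)
    (hb : ∀ t ∈ T, 0 ≤ b t ∧ b t ≤ m) (hc : ∀ t ∈ T, 0 ≤ c t ∧ c t ≤ m) {g0 g1 N0 : ℤ}
    (hg : g0 ≠ 0) (h0 : |g0| ≤ 2 * m) (h1 : |g1| ≤ m ^ 2) (hN : N0 ≠ 0)
    (h : ∀ t ∈ T, (g0 * b t - g1) * (g0 * c t - g1) = N0) : T.card ≤ 2 * Dm (9 * m ^ 4) := by
  refine card_le_of_dvd T (fun t => g0 * b t - g1) N0 _ (fun s hs t ht e => ?_) fun t ht => ?_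
  · have e1 : b s = b t := mul_left_cancel₀ hg (by linear_combination e)
    have k1 := h s hs
    have k2 := h t ht
    have k3 : g0 * b s - g1 ≠ 0 := fun h0 => hN (by rw [← k1, h0, zero_mul])
    rw [← e1, ← k1] at k2
    have k4 := mul_left_cancel₀ k3 k2
    exact hinj s hs t ht e1 (mul_left_cancel₀ hg (by linear_combination -k4))
  · refine ⟨⟨_, (h t ht).symm⟩, hN, ?_⟩
    rw [← h t ht, abs_mul]
    have := mul_le_mul (abs_lin_le h0 h1 (hb t ht)) (abs_lin_le h0 h1 (hc t ht)) (abs_nonneg _)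
      (by positivity)
    push_cast
    nlinarith

theorem abs_sig {b c b' c' : ℤ} (hb : 0 ≤ b ∧ b ≤ m) (hc : 0 ≤ c ∧ c ≤ m) (hb' : 0 ≤ b' ∧ b' ≤ m)
    (hc' : 0 ≤ c' ∧ c' ≤ m) : |b + c - (b' + c')| ≤ 2 * m := by
  rw [abs_le]
  constructor <;> linarith [hb.1, hb.2, hc.1, hc.2, hb'.1, hb'.2, hc'.1, hc'.2]

theorem abs_pi {b c b' c' : ℤ} (hb : 0 ≤ b ∧ b ≤ m) (hc : 0 ≤ c ∧ c ≤ m) (hb' : 0 ≤ b' ∧ b' ≤ m)
    (hc' : 0 ≤ c' ∧ c' ≤ m) : |b * c - b' * c'| ≤ m ^ 2 := by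
  have h1 := mul_nonneg hb.1 hc.1
  have h2 := mul_nonneg hb'.1 hc'.1
  have h3 := mul_le_mul hb.2 hc.2 hc.1 (by positivity)
  have h4 := mul_le_mul hb'.2 hc'.2 hc'.1 (by positivity)
  rw [abs_le]
  constructor <;> nlinarith

theorem hyp [Fact p.Prime] (hp : 4 * m ^ 3 < p) (hm : 1 ≤ m) (T : Finset ι) (b c : ι → ℤ)
    (hinj : ∀ s ∈ T, ∀ t ∈ T, b s = b t → c s = c t → s = t)
    (hb : ∀ t ∈ T, 0 ≤ b t ∧ b t ≤ m) (hc : ∀ t ∈ T, 0 ≤ c t ∧ c t ≤ m) {κ η : ZMod p}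
    (hη : η ≠ 0) (h : ∀ t ∈ T, ((b t : ZMod p) - κ) * (c t - κ) = η) :
    T.card ≤ 2 * Dm (9 * m ^ 4) := by
  classical
  have hp' : 4 * (m : ℤ) ^ 3 < p := by exact_mod_cast hp
  have hm' : (1 : ℤ) ≤ m := by exact_mod_cast hm
  rcases T.eq_empty_or_nonempty with rfl | ⟨t0, ht0⟩
  · simp
  by_cases hs : ∀ t ∈ T, b t + c t = b t0 + c t0
  · have hπ : ∀ t ∈ T, b t * c t = b t0 * c t0 := by
      intro t ht
      refine sub_eq_zero.1 (eq_zero_of_cast (p := p) ?_ ?_)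
      · have e : ((b t + c t : ℤ) : ZMod p) = (b t0 + c t0 : ℤ) := by rw [hs t ht]
        push_cast at e ⊢
        linear_combination h t ht - h t0 ht0 + κ * e
      · refine (abs_pi (hb t ht) (hc t ht) (hb t0 ht0) (hc t0 ht0)).trans_lt ?_
        nlinarith
    have h2 : T.card ≤ ({b t0, c t0} : Finset ℤ).card := by
      refine card_le_card_of_injOn b (fun t ht => ?_) fun s hs' t ht e => ?_
      · have : (b t - b t0) * (b t - c t0) = 0 := by
          linear_combination (b t) * hs t ht - hπ t ht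
        simp only [coe_insert, coe_singleton, Set.mem_insert_iff, Set.mem_singleton_iff]
        rcases mul_eq_zero.1 this with h1 | h1
        · left; linarith
        · right; linarith
      · exact hinj s hs' t ht e (by linarith [hs s hs', hs t ht])
    have h3 : 1 ≤ Dm (9 * m ^ 4) := one_le_Dm (by nlinarith [Nat.one_le_pow 4 m hm])
    exact h2.trans (card_le_two.trans (by omega))
  push Not at hs
  obtain ⟨t1, ht1, hne⟩ := hs
  set g0 := b t1 + c t1 - (b t0 + c t0) with hg0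
  set g1 := b t1 * c t1 - b t0 * c t0 with hg1
  have b0 : |g0| ≤ 2 * m := abs_sig (hb t1 ht1) (hc t1 ht1) (hb t0 ht0) (hc t0 ht0)
  have b1 : |g1| ≤ m ^ 2 := abs_pi (hb t1 ht1) (hc t1 ht1) (hb t0 ht0) (hc t0 ht0)
  have c1 : (g1 : ZMod p) = κ * g0 := by
    rw [hg0, hg1]
    push_cast
    linear_combination h t1 ht1 - h t0 ht0
  have n0 : (g0 : ZMod p) ≠ 0 := fun h0 =>
    sub_ne_zero.2 hne (eq_zero_of_cast h0 (b0.trans_lt (by nlinarith)))
  refine ihyp T b c hinj hb hc (sub_ne_zero.2 hne) b0 b1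
    (N0 := (g0 * b t0 - g1) * (g0 * c t0 - g1)) (fun h0 => ?_) fun t ht => ?_
  · have e : (((g0 * b t0 - g1) * (g0 * c t0 - g1) : ℤ) : ZMod p) = (g0 : ZMod p) ^ 2 * η := by
      push_cast
      rw [c1, ← h t0 ht0]
      ring
    rw [h0, Int.cast_zero] at e
    exact mul_ne_zero (pow_ne_zero _ n0) hη e.symm
  · have e : g0 * (b t * c t - b t0 * c t0) - g1 * (b t + c t - (b t0 + c t0)) = 0 := by
      refine eq_zero_of_cast (p := p) ?_ ?_
      · push_cast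
        rw [c1]
        linear_combination (g0 : ZMod p) * (h t ht - h t0 ht0)
      · refine (abs_sub _ _).trans_lt ?_
        rw [abs_mul, abs_mul]
        have i1 := mul_le_mul b0 (abs_pi (hb t ht) (hc t ht) (hb t0 ht0) (hc t0 ht0))
          (abs_nonneg _) (by positivity)
        have i2 := mul_le_mul b1 (abs_sig (hb t ht) (hc t ht) (hb t0 ht0) (hc t0 ht0))
          (abs_nonneg _) (by positivity)
        nlinarith
    linear_combination g0 * e

/-- A subset of `[0, m]` whose shift by `L` avoids zero. -/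
structure Nrm (p : ℕ) (L : ZMod p) (V : Finset ℤ) (m : ℕ) : Prop where
  mem : ∀ v ∈ V, 0 ≤ v ∧ v ≤ m
  nz : ∀ v ∈ V, L + v ≠ 0

/-- A family of multiplicative sextuples. -/
structure Sext (p : ℕ) (L : ZMod p) (V : Finset ℤ) (T : Finset ι) (b c f b' c' f' : ι → ℤ) :
    Prop where
  mb : ∀ t ∈ T, b t ∈ V
  mc : ∀ t ∈ T, c t ∈ V
  mf : ∀ t ∈ T, f t ∈ V
  mb' : ∀ t ∈ T, b' t ∈ V
  mc' : ∀ t ∈ T, c' t ∈ V
  mf' : ∀ t ∈ T, f' t ∈ V
  rel : ∀ t ∈ T, (L + b t) * (L + c t) * (L + f' t) = (L + b' t) * (L + c' t) * (L + f t)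
  inj : ∀ s ∈ T, ∀ t ∈ T, b s = b t → c s = c t → f s = f t → b' s = b' t → c' s = c' t →
    f' s = f' t → s = t

variable {L : ZMod p} {V : Finset ℤ} {T : Finset ι} {b c f b' c' f' : ι → ℤ}

theorem Nrm.mono (h : Nrm p L V m) {W : Finset ℤ} (hW : W ⊆ V) : Nrm p L W m :=
  ⟨fun v hv => h.mem v (hW hv), fun v hv => h.nz v (hW hv)⟩

theorem Nrm.inj (h : Nrm p L V m) (hp : m < p) {v w : ℤ} (hv : v ∈ V) (hw : w ∈ V)
    (e : L + v = L + w) : v = w := by
  refine sub_eq_zero.1 (eq_zero_of_cast (p := p) ?_ ?_)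
  · push_cast
    linear_combination e
  · have h1 := h.mem v hv
    have h2 := h.mem w hw
    have hp' : (m : ℤ) < p := by exact_mod_cast hp
    rw [abs_lt]
    constructor <;> linarith [h1.1, h1.2, h2.1, h2.2]

theorem Sext.mono (h : Sext p L V T b c f b' c' f') {T' : Finset ι} (hT : T' ⊆ T) :
    Sext p L V T' b c f b' c' f' :=
  ⟨fun a ha => h.mb a (hT ha), fun a ha => h.mc a (hT ha), fun a ha => h.mf a (hT ha),
    fun a ha => h.mb' a (hT ha), fun a ha => h.mc' a (hT ha), fun a ha => h.mf' a (hT ha),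
    fun a ha => h.rel a (hT ha), fun a ha b hb => h.inj a (hT ha) b (hT hb)⟩

theorem Sext.swap (h : Sext p L V T b c f b' c' f') : Sext p L V T c b f b' c' f' :=
  ⟨h.mc, h.mb, h.mf, h.mb', h.mc', h.mf', fun a ha => by rw [← h.rel a ha]; ring,
    fun a ha b hb h1 h2 h3 h4 h5 h6 => h.inj a ha b hb h2 h1 h3 h4 h5 h6⟩

theorem Sext.swap' (h : Sext p L V T b c f b' c' f') : Sext p L V T b c f c' b' f' :=
  ⟨h.mb, h.mc, h.mf, h.mc', h.mb', h.mf', fun a ha => by rw [h.rel a ha]; ring,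
    fun a ha b hb h1 h2 h3 h4 h5 h6 => h.inj a ha b hb h1 h2 h3 h5 h4 h6⟩

theorem card_cube (V : Finset ℤ) : (V ×ˢ V ×ˢ V).card = V.card ^ 3 := by
  rw [card_product, card_product]
  ring

theorem Sext.share [Fact p.Prime] (h : Sext p L V T b c f b' c' f') (hV : Nrm p L V m)
    (hp : 4 * m ^ 3 < p) (hm : 1 ≤ m) (he : ∀ t ∈ T, b t = b' t) :
    T.card ≤ 2 * Dm (9 * m ^ 4) * V.card ^ 3 := by
  classical
  rw [← card_cube]
  refine card_le_mul_card_image_of_maps_to (f := fun t => (b t, c t, f' t))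
    (fun t ht => by simp [h.mb t ht, h.mc t ht, h.mf' t ht]) _ ?_
  rintro ⟨x, y, z⟩ hx
  simp only [mem_product] at hx
  refine hyp hp hm _ c' f (fun s hs t ht e1 e2 => ?_) (fun t ht => ?_) (fun t ht => ?_)
    (κ := -L) (mul_ne_zero (hV.nz y hx.2.1) (hV.nz z hx.2.2)) fun t ht => ?_
  · simp only [mem_filter, Prod.mk.injEq] at hs ht
    refine h.inj s hs.1 t ht.1 (by rw [hs.2.1, ht.2.1]) (by rw [hs.2.2.1, ht.2.2.1]) e2 ?_ e1
      (by rw [hs.2.2.2, ht.2.2.2])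
    rw [← he s hs.1, ← he t ht.1, hs.2.1, ht.2.1]
  · exact hV.mem _ (h.mc' t (mem_filter.1 ht).1)
  · exact hV.mem _ (h.mf t (mem_filter.1 ht).1)
  · simp only [mem_filter, Prod.mk.injEq] at ht
    have r := h.rel t ht.1
    rw [← he t ht.1, ht.2.2.1, ht.2.2.2] at r
    apply mul_left_cancel₀ (hV.nz _ (h.mb t ht.1))
    linear_combination -r

theorem Sext.sameSum [Fact p.Prime] (h : Sext p L V T b c f b' c' f') (hV : Nrm p L V m)
    (hp : 4 * m ^ 3 < p) (hm : 1 ≤ m) (he : ∀ t ∈ T, b t + c t = b' t + c' t ∧ f t ≠ f' t) :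
    T.card ≤ 2 * Dm (9 * m ^ 4) * V.card ^ 3 := by
  classical
  have hmp : m < p := by nlinarith [Nat.le_self_pow (show 3 ≠ 0 by norm_num) m]
  rw [← card_cube]
  refine card_le_mul_card_image_of_maps_to (f := fun t => (b' t, f t, f' t))
    (fun t ht => by simp [h.mb' t ht, h.mf t ht, h.mf' t ht]) _ ?_
  rintro ⟨x, y, z⟩ hx
  simp only [mem_product] at hx
  rcases (T.filter fun t => (b' t, f t, f' t) = (x, y, z)).eq_empty_or_nonempty with h0 | ⟨t0, ht0⟩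
  · rw [h0]
    simp
  simp only [mem_filter, Prod.mk.injEq] at ht0
  have hyz : y ≠ z := by
    rw [← ht0.2.2.1, ← ht0.2.2.2]
    exact (he t0 ht0.1).2
  have nx := hV.nz x hx.1
  have ny := hV.nz y hx.2.1
  have nz := hV.nz z hx.2.2
  set κ : ZMod p := (L + y) * (L + x) / (L + z) with hκ
  have hκ' : κ * (L + z) = (L + y) * (L + x) := div_mul_cancel₀ _ nz
  refine hyp hp hm _ b c (fun s hs t ht e1 e2 => ?_) (fun t ht => ?_) (fun t ht => ?_)
    (κ := κ - L) (η := κ * (κ - (L + x))) (mul_ne_zero (div_ne_zero (mul_ne_zero ny nx) nz) ?_)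
    fun t ht => ?_
  · simp only [mem_filter, Prod.mk.injEq] at hs ht
    have e3 : b' s = b' t := by rw [hs.2.1, ht.2.1]
    refine h.inj s hs.1 t ht.1 e1 e2 (by rw [hs.2.2.1, ht.2.2.1]) e3 ?_
      (by rw [hs.2.2.2, ht.2.2.2])
    linarith [(he s hs.1).1, (he t ht.1).1]
  · exact hV.mem _ (h.mb t (mem_filter.1 ht).1)
  · exact hV.mem _ (h.mc t (mem_filter.1 ht).1)
  · intro h0
    refine hyz (hV.inj hmp hx.2.1 hx.2.2 ?_)
    apply mul_right_cancel₀ nx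
    linear_combination -hκ' + (L + z) * h0
  · simp only [mem_filter, Prod.mk.injEq] at ht
    have r := h.rel t ht.1
    have e : ((b t + c t : ℤ) : ZMod p) = (b' t + c' t : ℤ) := by rw [(he t ht.1).1]
    rw [ht.2.1] at e
    rw [ht.2.1, ht.2.2.1, ht.2.2.2] at r
    push_cast at e
    apply mul_right_cancel₀ nz
    linear_combination r - (L + c' t) * hκ' - κ * (L + z) * e

end Pool.Agent.MP_bd74a7_nt

end

section

/-!
Quotients whose representations lie on few lines.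
-/

open Finset Matrix

namespace Pool.Agent.MP_bd74a7_nt

variable {p m : ℕ} [Fact p.Prime] {L : ZMod p} {V : Finset ℤ}

/-- The quotient attached to a triple. -/
def om (L : ZMod p) (t : ℤ × ℤ × ℤ) : ZMod p := (L + t.1) * (L + t.2.1) / (L + t.2.2)

/-- The point attached to a triple. -/
def pt (t : ℤ × ℤ × ℤ) : Fin 3 → ℤ := ![t.1 + t.2.1, t.1 * t.2.1, t.2.2]

/-- The representations of a residue. -/
def Rep (L : ZMod p) (V : Finset ℤ) (ω : ZMod p) : Finset (ℤ × ℤ × ℤ) :=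
  (V ×ˢ V ×ˢ V).filter fun t => om L t = ω

theorem mem_Rep {ω : ZMod p} {t : ℤ × ℤ × ℤ} :
    t ∈ Rep L V ω ↔ (t.1 ∈ V ∧ t.2.1 ∈ V ∧ t.2.2 ∈ V) ∧ om L t = ω := by
  simp [Rep]

theorem om_mul (hV : Nrm p L V m) {t : ℤ × ℤ × ℤ} (ht : t.2.2 ∈ V) :
    om L t * (L + t.2.2) = (L + t.1) * (L + t.2.1) := div_mul_cancel₀ _ (hV.nz _ ht)

omit [Fact p.Prime] in
theorem lt_of_cube (hp : 4 * m ^ 3 < p) : m < p := by
  nlinarith [Nat.le_self_pow (show 3 ≠ 0 by norm_num) m]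

theorem geom_rep (hV : Nrm p L V m) (hm : 1 ≤ m) (hp : 4 * m ^ 3 < p) (ω : ZMod p) {s : ℕ}
    (hs : 1 ≤ s) :
    (∃ g : Fin 3 → ℤ, g ≠ 0 ∧ (∀ k, |g k| ≤ Bx m k) ∧
      (((Rep L V ω).image pt).image (crossProduct g)).card ≤ s) ∨
    s ^ 3 * p ^ 2 ≤ 4 * 4394 ^ 3 * m ^ 8 ∨
    (s < (Rep L V ω).card ∧ ∃ n e : Fin 3 → ℤ, e ⬝ᵥ n = 1 ∧ (n 1 : ZMod p) ≠ 0 ∧
      (n 0 : ZMod p) = n 1 * L ∧ (n 2 : ZMod p) = -(n 1 * ω) ∧
      (∀ t ∈ Rep L V ω, ∀ t' ∈ Rep L V ω, n ⬝ᵥ pt t = n ⬝ᵥ pt t') ∧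
      s ^ 2 * (2 * (n 0).natAbs + m * (n 1).natAbs + (n 2).natAbs) ≤ 54 * 4394 ^ 2 * m ^ 3) := by
  rcases geom hm hp ![L, 1, -ω] (by simp) (ω * L - L ^ 2) ((Rep L V ω).image pt) (by
    intro x hx
    obtain ⟨t, ht, rfl⟩ := mem_image.1 hx
    rw [mem_Rep] at ht
    have h1 := hV.mem _ ht.1.1
    have h2 := hV.mem _ ht.1.2.1
    have h3 := hV.mem _ ht.1.2.2
    constructor
    · have := om_mul hV ht.1.2.2
      rw [ht.2] at this
      simp [lf_apply, pt]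
      linear_combination -this
    · intro k
      fin_cases k
      · simp [pt, Bx]
        constructor <;> linarith [h1.1, h1.2, h2.1, h2.2]
      · simp [pt, Bx]
        exact ⟨mul_nonneg h1.1 h2.1, by
          rw [sq]; exact mul_le_mul h1.2 h2.2 h2.1 (by positivity)⟩
      · simpa [pt, Bx] using h3) hs with h | h | ⟨h1, n, e, h2, h3, h4, h5, h6⟩
  · exact Or.inl h
  · exact Or.inr (Or.inl h)
  · refine Or.inr (Or.inr ⟨h1.trans_le card_image_le, n, e, h2, h3, by simpa using h4 0,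
      by simpa using h4 2, fun t ht t' ht' => h5 _ (mem_image_of_mem _ ht) _
        (mem_image_of_mem _ ht'), h6⟩)

theorem rep_le (hV : Nrm p L V m) (hm : 1 ≤ m) (hp : 4 * m ^ 3 < p) (ω : ZMod p) :
    (Rep L V ω).card ≤ 2 * Dm (9 * m ^ 4) * ((Rep L V ω).image fun t => t.2.2).card := by
  refine card_le_mul_card_image _ _ fun f hf => ?_
  obtain ⟨t0, ht0, rfl⟩ := mem_image.1 hf
  rw [mem_Rep] at ht0
  refine hyp hp hm _ (fun t => t.1) (fun t => t.2.1) (fun s hs t ht e1 e2 => ?_) (fun t ht => ?_)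
    (fun t ht => ?_) (κ := -L) (mul_ne_zero (hV.nz _ ht0.1.1) (hV.nz _ ht0.1.2.1)) fun t ht => ?_
  · rw [mem_filter] at hs ht
    exact Prod.ext e1 (Prod.ext e2 (by rw [hs.2, ht.2]))
  · exact hV.mem _ (mem_Rep.1 (mem_filter.1 ht).1).1.1
  · exact hV.mem _ (mem_Rep.1 (mem_filter.1 ht).1).1.2.1
  · rw [mem_filter, mem_Rep] at ht
    have h1 := om_mul hV ht.1.1.2.2
    have h2 := om_mul hV ht0.1.2.2
    rw [ht.1.2, ht.2] at h1
    rw [ht0.2] at h2
    linear_combination h2 - h1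

theorem unstr (hV : Nrm p L V m) (hm : 1 ≤ m) (hp : 4 * m ^ 3 < p) (U : Finset (ℤ × ℤ × ℤ))
    (hU : U ⊆ V ×ˢ V ×ˢ V) (S : Finset (ZMod p)) (hS : ∀ t ∈ U, om L t ∈ S)
    (G : ZMod p → Fin 3 → ℤ) {s : ℕ} (hG : ∀ t ∈ U, G (om L t) ≠ 0 ∧
      (∀ k, |G (om L t) k| ≤ Bx m k) ∧
      (((Rep L V (om L t)).image pt).image (crossProduct (G (om L t)))).card ≤ s) :
    U.card ^ 2 ≤ s * S.card * (12 * Dm (9 * m ^ 4) * V.card ^ 3) := by
  classical
  have hUm : ∀ t ∈ U, t.1 ∈ V ∧ t.2.1 ∈ V ∧ t.2.2 ∈ V := fun t ht => by simpa using hU ht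
  set lab : ℤ × ℤ × ℤ → ZMod p × (Fin 3 → ℤ) :=
    fun t => (om L t, crossProduct (G (om L t)) (pt t)) with hlab
  have h1 := sq_le_mul_coll U (U.image lab) lab fun t ht => mem_image_of_mem _ ht
  have h2 : (U.image lab).card ≤ s * S.card := by
    refine card_le_mul_card_image_of_maps_to (f := Prod.fst) (fun l hl => ?_) _ fun ω _ => ?_
    · obtain ⟨t, ht, rfl⟩ := mem_image.1 hl
      exact hS t ht
    · rcases ((U.image lab).filter fun l => l.1 = ω).eq_empty_or_nonempty with h0 | ⟨l0, hl0⟩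
      · rw [h0]
        simp
      obtain ⟨t0, ht0, rfl⟩ := mem_image.1 (mem_filter.1 hl0).1
      have e0 : om L t0 = ω := (mem_filter.1 hl0).2
      refine le_trans (card_le_card_of_injOn Prod.snd (fun l hl => ?_) fun l hl l' hl' e => ?_)
        (hG t0 ht0).2.2
      · rw [mem_coe, mem_filter] at hl
        obtain ⟨t, ht, rfl⟩ := mem_image.1 hl.1
        have e1 : om L t = om L t0 := hl.2.trans e0.symm
        rw [mem_coe]
        refine mem_image.2 ⟨pt t, mem_image_of_mem _ (mem_Rep.2 ⟨hUm t ht, e1⟩), ?_⟩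
        simp only [hlab, e1]
      · rw [mem_coe, mem_filter] at hl hl'
        exact Prod.ext (hl.2.trans hl'.2.symm) e
  set P := (U ×ˢ U).filter fun x => lab x.1 = lab x.2 with hP
  have hPm : ∀ x ∈ P, x.1 ∈ U ∧ x.2 ∈ U ∧ om L x.1 = om L x.2 ∧
      crossProduct (G (om L x.1)) (pt x.1) = crossProduct (G (om L x.1)) (pt x.2) := by
    intro x hx
    simp only [hP, hlab, mem_filter, mem_product, Prod.mk.injEq] at hx
    refine ⟨hx.1.1, hx.1.2, hx.2.1, ?_⟩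
    rw [hx.2.2, hx.2.1]
  have hX : Sext p L V P (fun x => x.1.1) (fun x => x.1.2.1) (fun x => x.1.2.2)
      (fun x => x.2.1) (fun x => x.2.2.1) (fun x => x.2.2.2) := by
    refine ⟨fun x hx => (hUm _ (hPm x hx).1).1, fun x hx => (hUm _ (hPm x hx).1).2.1,
      fun x hx => (hUm _ (hPm x hx).1).2.2, fun x hx => (hUm _ (hPm x hx).2.1).1,
      fun x hx => (hUm _ (hPm x hx).2.1).2.1, fun x hx => (hUm _ (hPm x hx).2.1).2.2,
      fun x hx => ?_, fun x _ y _ e1 e2 e3 e4 e5 e6 =>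
        Prod.ext (Prod.ext e1 (Prod.ext e2 e3)) (Prod.ext e4 (Prod.ext e5 e6))⟩
    rw [← om_mul hV (hUm _ (hPm x hx).1).2.2, ← om_mul hV (hUm _ (hPm x hx).2.1).2.2,
      (hPm x hx).2.2.1]
    ring
  set D := Dm (9 * m ^ 4)
  set N0 : (ℤ × ℤ × ℤ) → (ℤ × ℤ × ℤ) → ℤ := fun t u =>
    (G (om L t) 0 * u.1 - G (om L t) 1) * (G (om L t) 0 * u.2.1 - G (om L t) 1) with hN0
  have hN : ∀ x ∈ P, N0 x.1 x.2 = N0 x.1 x.1 := by
    intro x hx
    have := congrFun (hPm x hx).2.2.2 2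
    simp [cross_apply, pt] at this
    simp only [hN0]
    linear_combination (-G (om L x.1) 0) * this
  have a1 := (hX.mono (filter_subset (fun x => x.1.1 = x.2.1) P)).share hV hp hm
    fun x hx => (mem_filter.1 hx).2
  have a2 := (hX.swap.mono (filter_subset (fun x => x.1.2.1 = x.2.1) P)).share hV hp hm
    fun x hx => (mem_filter.1 hx).2
  have a3 := (hX.swap'.mono (filter_subset (fun x => x.1.1 = x.2.2.1) P)).share hV hp hm
    fun x hx => (mem_filter.1 hx).2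
  have a4 := (hX.swap.swap'.mono (filter_subset (fun x => x.1.2.1 = x.2.2.1) P)).share hV hp hm
    fun x hx => (mem_filter.1 hx).2
  have a5 := (hX.mono (filter_subset
    (fun x => x.1.1 + x.1.2.1 = x.2.1 + x.2.2.1 ∧ x.1.2.2 ≠ x.2.2.2) P)).sameSum hV hp hm
    fun x hx => (mem_filter.1 hx).2
  have a6 : (P.filter fun x => G (om L x.1) 0 ≠ 0 ∧ N0 x.1 x.1 ≠ 0).card ≤ 2 * D * V.card ^ 3 := by
    rw [← card_cube]
    refine card_le_mul_card_image_of_maps_to (f := Prod.fst)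
      (fun x hx => hU (hPm x (mem_filter.1 hx).1).1) _ fun t _ => ?_
    rcases ((P.filter fun x => G (om L x.1) 0 ≠ 0 ∧ N0 x.1 x.1 ≠ 0).filter
      fun x => x.1 = t).eq_empty_or_nonempty with h0 | ⟨x0, hx0⟩
    · rw [h0]
      simp
    simp only [mem_filter] at hx0
    obtain ⟨⟨hx0, hg0, hN1⟩, rfl⟩ := hx0
    have hb := (hG _ (hPm x0 hx0).1).2.1
    refine ihyp _ (fun x => x.2.1) (fun x => x.2.2.1) (fun x hx y hy e1 e2 => ?_)
      (fun x hx => ?_) (fun x hx => ?_) hg0 (by simpa [Bx] using hb 0) (by simpa [Bx] using hb 1)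
      hN1 fun x hx => ?_
    · simp only [mem_filter] at hx hy
      have k1 := hPm x hx.1.1
      have k2 := hPm y hy.1.1
      refine Prod.ext (hx.2.trans hy.2.symm) (Prod.ext e1 (Prod.ext e2 ?_))
      have f1 := (hUm _ k1.2.1).2.2
      have f2 := (hUm _ k2.2.1).2.2
      refine hV.inj (lt_of_cube hp) f1 f2 ?_
      have r1 := om_mul hV f1
      have r2 := om_mul hV f2
      rw [← k1.2.2.1, hx.2] at r1
      rw [← k2.2.2.1, hy.2, ← e1, ← e2, ← r1] at r2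
      refine (mul_left_cancel₀ ?_ r2).symm
      intro h0
      rw [h0, zero_mul] at r1
      exact mul_ne_zero (hV.nz _ (hUm _ k1.2.1).1) (hV.nz _ (hUm _ k1.2.1).2.1) r1.symm
    · simp only [mem_filter] at hx
      exact hV.mem _ (hX.mb' x hx.1.1)
    · simp only [mem_filter] at hx
      exact hV.mem _ (hX.mc' x hx.1.1)
    · simp only [mem_filter] at hx
      have := hN x hx.1.1
      rw [hx.2] at this
      exact this
  have h3 : P.card ≤ 12 * D * V.card ^ 3 := by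
    have hsub : P ⊆ (P.filter fun x => x.1.1 = x.2.1) ∪ (P.filter fun x => x.1.2.1 = x.2.1) ∪
        (P.filter fun x => x.1.1 = x.2.2.1) ∪ (P.filter fun x => x.1.2.1 = x.2.2.1) ∪
        (P.filter fun x => x.1.1 + x.1.2.1 = x.2.1 + x.2.2.1 ∧ x.1.2.2 ≠ x.2.2.2) ∪
        (P.filter fun x => G (om L x.1) 0 ≠ 0 ∧ N0 x.1 x.1 ≠ 0) := by
      intro x hx
      simp only [mem_union, mem_filter, hx, true_and]
      by_contra hc
      simp only [not_or, not_and, not_not] at hc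
      obtain ⟨⟨⟨⟨⟨n1, n2⟩, n3⟩, n4⟩, n5⟩, n6⟩ := hc
      obtain ⟨k1, k2, k3, k4⟩ := hPm x hx
      by_cases hσ : x.1.1 + x.1.2.1 = x.2.1 + x.2.2.1
      · have r := hX.rel x hx
        simp only [n5 hσ] at r
        have r1 := mul_right_cancel₀ (hV.nz _ (hUm _ k2).2.2) r
        have e : ((x.1.1 + x.1.2.1 : ℤ) : ZMod p) = (x.2.1 + x.2.2.1 : ℤ) := by rw [hσ]
        have r2 : x.1.1 * x.1.2.1 - x.2.1 * x.2.2.1 = 0 := by
          refine eq_zero_of_cast (p := p) ?_ ((abs_pi (hV.mem _ (hUm _ k1).1)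
            (hV.mem _ (hUm _ k1).2.1) (hV.mem _ (hUm _ k2).1)
            (hV.mem _ (hUm _ k2).2.1)).trans_lt ?_)
          · push_cast at e ⊢
            linear_combination r1 - L * e
          · have hp' : 4 * (m : ℤ) ^ 3 < p := by exact_mod_cast hp
            have hm' : (1 : ℤ) ≤ m := by exact_mod_cast hm
            nlinarith
        have r3 : (x.1.1 - x.2.1) * (x.1.2.1 - x.2.1) = 0 := by
          linear_combination r2 - x.2.1 * hσ
        rcases mul_eq_zero.1 r3 with h | h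
        · exact n1 (sub_eq_zero.1 h)
        · exact n2 (sub_eq_zero.1 h)
      by_cases hg : G (om L x.1) 0 = 0
      · have c1 := congrFun k4 1
        have c2 := congrFun k4 2
        simp [cross_apply, pt, hg, hσ] at c1 c2
        refine (hG _ k1).1 (funext fun k => ?_)
        fin_cases k
        · exact hg
        · exact c2
        · exact c1
      have z1 := n6 hg
      have z2 := (hN x hx).trans z1
      simp only [hN0] at z1 z2
      rcases mul_eq_zero.1 z1 with h | h <;> rcases mul_eq_zero.1 z2 with h' | h'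
      · exact n1 (mul_left_cancel₀ hg (by linear_combination h - h'))
      · exact n3 (mul_left_cancel₀ hg (by linear_combination h - h'))
      · exact n2 (mul_left_cancel₀ hg (by linear_combination h - h'))
      · exact n4 (mul_left_cancel₀ hg (by linear_combination h - h'))
    refine (card_le_card hsub).trans ?_
    refine (card_union_le _ _).trans ((Nat.add_le_add ((card_union_le _ _).trans
      (Nat.add_le_add ((card_union_le _ _).trans (Nat.add_le_add ((card_union_le _ _).trans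
      (Nat.add_le_add ((card_union_le _ _).trans (Nat.add_le_add a1 a2)) a3)) a4)) a5)) a6).trans
      (le_of_eq ?_))
    ring
  exact h1.trans (Nat.mul_le_mul h2 h3)

end Pool.Agent.MP_bd74a7_nt

end

section

/-!
Quotients whose representations lie in a plane with a small normal vector.
-/

open Finset Matrix

namespace Pool.Agent.MP_bd74a7_nt

theorem card_mul_le_of_fib {α β : Type*} [DecidableEq β] {s : Finset α} {t : Finset β} {f : α → β}
    (hf : ∀ a ∈ s, f a ∈ t) {q K : ℕ} (h : ∀ b ∈ t, (s.filter fun a => f a = b).card * q ≤ K) :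
    s.card * q ≤ t.card * K := by
  rw [card_eq_sum_card_fiberwise hf, sum_mul]
  exact (sum_le_card_nsmul _ _ K h).trans (by rw [smul_eq_mul])

theorem dich {ι : Type*} {q : ℕ} [NeZero q] (w : ZMod q) (T : Finset ι) (x y : ι → ℤ) (b1 b2 : ℕ)
    (h : ∀ t ∈ T, x t ≠ 0 ∧ y t ≠ 0 ∧ (y t : ZMod q) = w * x t ∧ |x t| ≤ b1 ∧ |y t| ≤ b2) :
    (T.image fun t => (x t, y t)).card * q ≤ 49 * b1 * b2 ∨
      ∀ s ∈ T, ∀ t ∈ T, x s * y t = x t * y s := by
  by_cases hc : ∀ s ∈ T, ∀ t ∈ T, x s * y t = x t * y s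
  · exact Or.inr hc
  left
  push Not at hc
  obtain ⟨s, hs, t, ht, hne⟩ := hc
  have h1 := count2 w 0 (T.image fun t => (x t, y t)) b1 b2 b1 b2 (fun P hP => by
    obtain ⟨c, hc, rfl⟩ := mem_image.1 hP
    exact ⟨sub_eq_zero.2 (h c hc).2.2.1, (h c hc).2.2.2⟩) (P := (x s, y s)) (Q := (x t, y t))
    (h s hs).2.2 (h t ht).2.2 hne
  have h2 : 1 ≤ b1 := by exact_mod_cast (Int.one_le_abs (h s hs).1).trans (h s hs).2.2.2.1
  have h3 : 1 ≤ b2 := by exact_mod_cast (Int.one_le_abs (h s hs).2.1).trans (h s hs).2.2.2.2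
  calc _ ≤ (7 * b1) * (7 * b2) := h1.trans (Nat.mul_le_mul (by omega) (by omega))
    _ = _ := by ring

theorem col_card {ι : Type*} (T : Finset ι) (x y : ι → ℤ) (b2 : ℕ)
    (h : ∀ t ∈ T, y t ≠ 0 ∧ |y t| ≤ b2) (hc : ∀ s ∈ T, ∀ t ∈ T, x s * y t = x t * y s) :
    (T.image fun t => (x t, y t)).card ≤ 3 * b2 := by
  rcases T.eq_empty_or_nonempty with rfl | ⟨t0, ht0⟩
  · simp
  have h3 : 1 ≤ b2 := by exact_mod_cast (Int.one_le_abs (h t0 ht0).1).trans (h t0 ht0).2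
  have h1 : (T.image fun t => (x t, y t)).card ≤ (Icc (-(b2 : ℤ)) b2).card := by
    refine card_le_card_of_injOn Prod.snd (fun P hP => ?_) fun P hP Q hQ e => ?_
    · obtain ⟨c, hc, rfl⟩ := mem_image.1 hP
      simpa [← abs_le] using (h c hc).2
    · obtain ⟨c, hc', rfl⟩ := mem_image.1 hP
      obtain ⟨d, hd, rfl⟩ := mem_image.1 hQ
      simp only at e
      have := hc c hc' d hd
      rw [e] at this
      rw [mul_right_cancel₀ (h d hd).1 this, e]
  rw [Int.card_Icc] at h1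
  omega

theorem col_param {ι : Type*} (T : Finset ι) (x y : ι → ℤ) {t0 : ι} (ht0 : t0 ∈ T)
    (hy : y t0 ≠ 0) (hc : ∀ s ∈ T, ∀ t ∈ T, x s * y t = x t * y s) :
    ∃ r q : ℤ, IsCoprime r q ∧ q ≠ 0 ∧ ∀ t ∈ T, ∃ u, x t = u * r ∧ y t = u * q := by
  obtain ⟨r, q, hc', hr, hq⟩ := Int.exists_gcd_one (Int.gcd_pos_of_ne_zero_right (x t0) hy)
  set g : ℤ := ((Int.gcd (x t0) (y t0) : ℕ) : ℤ)
  have hg : g ≠ 0 := fun h0 => hy (by rw [hq, h0, mul_zero])
  have hq0 : q ≠ 0 := fun h0 => hy (by rw [hq, h0, zero_mul])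
  obtain ⟨a, b, hab⟩ := Int.isCoprime_iff_gcd_eq_one.2 hc'
  refine ⟨r, q, ⟨a, b, hab⟩, hq0, fun t ht => ⟨a * x t + b * y t, ?_, ?_⟩⟩
  all_goals
    have h1 := hc t0 ht0 t ht
    rw [hr, hq] at h1
    have h2 : r * y t = x t * q := mul_right_cancel₀ hg (by linear_combination h1)
  · linear_combination (-x t) * hab - b * h2
  · linear_combination (-y t) * hab + a * h2

theorem short_or {j x y u r : ℤ} {T : ℕ} (h : j * (x * y) = u * r) (hj : j ≠ 0) (hx : x ≠ 0)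
    (hy : y ≠ 0) (hu : |u| ≤ T ^ 2) : |x| ≤ T * Int.gcd r x ∨ |y| ≤ T * Int.gcd r y := by
  by_contra hc
  push Not at hc
  have b1 := Int.gcd_eq_gcd_ab r x
  have b2 := Int.gcd_eq_gcd_ab r y
  have p1 : (0 : ℤ) < Int.gcd r x := by exact_mod_cast Int.gcd_pos_of_ne_zero_right r hx
  have p2 : (0 : ℤ) < Int.gcd r y := by exact_mod_cast Int.gcd_pos_of_ne_zero_right r hy
  generalize ((Int.gcd r x : ℕ) : ℤ) = g1 at *
  generalize ((Int.gcd r y : ℕ) : ℤ) = g2 at *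
  have hd : r ∣ j * (g1 * g2) := by
    refine ⟨j * (Int.gcdA r x * g2 + x * Int.gcdB r x * Int.gcdA r y) +
      u * (Int.gcdB r x * Int.gcdB r y), ?_⟩
    linear_combination j * g2 * b1 + j * x * Int.gcdB r x * b2 + Int.gcdB r x * Int.gcdB r y * h
  have h1 := Int.le_of_dvd (abs_pos.2 (mul_ne_zero hj (mul_pos p1 p2).ne'))
    ((abs_dvd_abs _ _).2 hd)
  rw [abs_mul, abs_of_pos (mul_pos p1 p2)] at h1
  have h2 := congrArg abs h
  rw [abs_mul, abs_mul, abs_mul] at h2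
  have h3 : T * g1 * (T * g2) < |x| * |y| :=
    mul_lt_mul'' hc.1 hc.2 (by positivity) (by positivity)
  have h4 : |u| * |r| ≤ T ^ 2 * (|j| * (g1 * g2)) :=
    mul_le_mul hu h1 (abs_nonneg _) (by positivity)
  have h5 := mul_lt_mul_of_pos_left h3 (abs_pos.2 hj)
  nlinarith

variable {p m : ℕ} [Fact p.Prime] {L : ZMod p} {V : Finset ℤ}

/-- An integral affine model `V0 v + U0` of `L + v`, of size about `ζ` on `V`. -/
structure Cen (p : ℕ) (L : ZMod p) (V : Finset ℤ) (V0 U0 : ℤ) (ζ : ℕ) : Prop where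
  v0 : (V0 : ZMod p) ≠ 0
  u0 : (U0 : ZMod p) = V0 * L
  lo : ∀ v ∈ V, ζ ≤ |V0 * v + U0|
  hi : ∀ v ∈ V, |V0 * v + U0| ≤ 2 * ζ
  pos : 1 ≤ ζ

/-- The data of structured triples. -/
structure Sdat (L : ZMod p) (V : Finset ℤ) (V0 U0 : ℤ) (G : Finset (ℤ × ℤ × ℤ))
    (j W e : ZMod p → ℤ) (j0 μ φ : ℕ) : Prop where
  mem : ∀ t ∈ G, t.1 ∈ V ∧ t.2.1 ∈ V ∧ t.2.2 ∈ V
  jne : ∀ t ∈ G, j (om L t) ≠ 0
  jle : ∀ t ∈ G, |j (om L t)| ≤ j0
  ele : ∀ t ∈ G, |e (om L t)| ≤ μ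
  eq : ∀ t ∈ G, ∀ u ∈ Rep L V (om L t), j (om L t) * ((V0 * u.1 + U0) * (V0 * u.2.1 + U0)) +
    W (om L t) * (V0 * u.2.2 + U0) = p * e (om L t)
  dvd : ∀ t ∈ G, ∀ u ∈ Rep L V (om L t), j (om L t) ∣ t.2.2 - u.2.2
  big : ∀ t ∈ G, φ < ((Rep L V (om L t)).image fun u => u.2.2).card

variable {V0 U0 : ℤ} {ζ j0 μ φ D : ℕ} {G : Finset (ℤ × ℤ × ℤ)} {j W e : ZMod p → ℤ}

theorem Sdat.mono (h : Sdat L V V0 U0 G j W e j0 μ φ) {G' : Finset (ℤ × ℤ × ℤ)} (hG : G' ⊆ G) :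
    Sdat L V V0 U0 G' j W e j0 μ φ :=
  ⟨fun t ht => h.mem t (hG ht), fun t ht => h.jne t (hG ht), fun t ht => h.jle t (hG ht),
    fun t ht => h.ele t (hG ht), fun t ht => h.eq t (hG ht), fun t ht => h.dvd t (hG ht),
    fun t ht => h.big t (hG ht)⟩

theorem Sdat.self (h : Sdat L V V0 U0 G j W e j0 μ φ) {t : ℤ × ℤ × ℤ} (ht : t ∈ G) :
    t ∈ Rep L V (om L t) := mem_Rep.2 ⟨h.mem t ht, rfl⟩

omit [Fact p.Prime] in
theorem Cen.ne (hC : Cen p L V V0 U0 ζ) {v : ℤ} (hv : v ∈ V) : V0 * v + U0 ≠ 0 := by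
  intro h0
  have h1 := hC.lo v hv
  have h2 := hC.pos
  rw [h0] at h1
  simp at h1
  omega

theorem Sdat.zero (h : Sdat L V V0 U0 G j W e j0 μ φ) (hC : Cen p L V V0 U0 ζ)
    (hD : Dm (8 * ζ ^ 3) ≤ D) (h0 : ∀ t ∈ G, e (om L t) = 0) :
    G.card * φ ≤ V.card ^ 3 * (2 * D) := by
  classical
  rw [← card_cube]
  have hV0 : V0 ≠ 0 := fun h0 => hC.v0 (by rw [h0, Int.cast_zero])
  refine card_mul_le_card_mul (fun t u => u.1 = t.1 ∧ u.2.1 = t.2.1 ∧
    u.2.2 ∈ (Rep L V (om L t)).image fun u => u.2.2) (fun t ht => ?_) fun u hu => ?_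
  · refine (h.big t ht).le.trans (card_le_card_of_injOn (fun f => (t.1, t.2.1, f))
      (fun f hf => ?_) fun f _ f' _ e => by simpa using e)
    have hf' := hf
    obtain ⟨u, hu, rfl⟩ := mem_image.1 (mem_coe.1 hf')
    simp only [mem_coe, mem_bipartiteAbove, mem_product, true_and]
    exact ⟨⟨(h.mem t ht).1, (h.mem t ht).2.1, (mem_Rep.1 hu).1.2.2⟩, hf⟩
  · simp only [mem_product] at hu
    refine (card_le_of_dvd _ (fun t => V0 * t.2.2 + U0)
      ((V0 * u.1 + U0) * (V0 * u.2.1 + U0) * (V0 * u.2.2 + U0)) (8 * ζ ^ 3)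
      (fun s hs t ht e => ?_) fun t ht => ?_).trans (Nat.mul_le_mul_left 2 hD)
    · rw [mem_bipartiteBelow] at hs ht
      refine Prod.ext (hs.2.1.symm.trans ht.2.1) (Prod.ext (hs.2.2.1.symm.trans ht.2.2.1) ?_)
      exact mul_left_cancel₀ hV0 (by linear_combination e)
    · rw [mem_bipartiteBelow] at ht
      obtain ⟨ht, e1, e2, e3⟩ := ht
      obtain ⟨t', ht', e4⟩ := mem_image.1 e3
      refine ⟨⟨(V0 * t'.1 + U0) * (V0 * t'.2.1 + U0), ?_⟩, mul_ne_zero (mul_ne_zero (hC.ne hu.1)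
        (hC.ne hu.2.1)) (hC.ne hu.2.2), ?_⟩
      · have k1 := h.eq t ht t (h.self ht)
        have k2 := h.eq t ht t' ht'
        rw [h0 t ht] at k1 k2
        rw [e1, e2, ← e4]
        apply mul_left_cancel₀ (h.jne t ht)
        linear_combination (V0 * t'.2.2 + U0) * k1 - (V0 * t.2.2 + U0) * k2
      · rw [abs_mul, abs_mul]
        have := mul_le_mul (mul_le_mul (hC.hi _ hu.1) (hC.hi _ hu.2.1) (abs_nonneg _)
          (by positivity)) (hC.hi _ hu.2.2) (abs_nonneg _) (by positivity)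
        push_cast
        nlinarith

theorem Sdat.jcount (h : Sdat L V V0 U0 G j W e j0 μ φ) (hV : Nrm p L V m) (hD : Dm (m ^ 2) ≤ D)
    {f : ℤ} (hf : ∀ t ∈ G, t.2.2 = f) :
    (G.image fun t => j (om L t)).card * φ ≤ V.card * (2 * D) := by
  classical
  refine card_mul_le_card_mul (fun i v => v ≠ f ∧ i ∣ f - v ∧ f ∈ V) (fun i hi => ?_)
    fun v hv => ?_
  · obtain ⟨t, ht, rfl⟩ := mem_image.1 hi
    have h1 := h.big t ht
    have h2 := pred_card_le_card_erase (s := (Rep L V (om L t)).image fun u => u.2.2) (a := f)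
    refine le_trans (by omega) (h2.trans (card_le_card fun v hv => ?_))
    rw [mem_erase] at hv
    obtain ⟨u, hu, rfl⟩ := mem_image.1 hv.2
    rw [mem_bipartiteAbove]
    refine ⟨(mem_Rep.1 hu).1.2.2, hv.1, ?_, ?_⟩
    · rw [← hf t ht]
      exact h.dvd t ht u hu
    · rw [← hf t ht]
      exact (h.mem t ht).2.2
  · refine (card_le_of_dvd _ id (f - v) (m ^ 2) (fun s _ t _ e => e) fun i hi => ?_).trans
      (Nat.mul_le_mul_left 2 hD)
    rw [mem_bipartiteBelow] at hi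
    refine ⟨hi.2.2.1, sub_ne_zero.2 hi.2.1.symm, ?_⟩
    have h1 := hV.mem _ hv
    have h2 := hV.mem _ hi.2.2.2
    have h3 : (m : ℤ) ≤ (m ^ 2 : ℕ) := by exact_mod_cast Nat.le_self_pow (by norm_num) m
    rw [abs_le]
    constructor <;> linarith [h1.1, h1.2, h2.1, h2.2]

omit [Fact p.Prime] in
theorem Nrm.abs_mul_le (hV : Nrm p L V m) {b c f : ℤ} (hb : b ∈ V) (hc : c ∈ V) (hf : f ∈ V) :
    |(b - f) * (c - f)| ≤ (m ^ 2 : ℕ) := by
  have h1 := hV.mem _ hb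
  have h2 := hV.mem _ hc
  have h3 := hV.mem _ hf
  have h4 : |b - f| ≤ m := by
    rw [abs_le]
    constructor <;> linarith [h1.1, h1.2, h3.1, h3.2]
  have h5 : |c - f| ≤ m := by
    rw [abs_le]
    constructor <;> linarith [h2.1, h2.2, h3.1, h3.2]
  rw [abs_mul, Nat.cast_pow, sq]
  exact mul_le_mul h4 h5 (abs_nonneg _) (by positivity)

theorem Sdat.cong (h : Sdat L V V0 U0 G j W e j0 μ φ) (hV : Nrm p L V m) (hC : Cen p L V V0 U0 ζ)
    {f : ℤ} (hfV : f ∈ V) (hf : ∀ t ∈ G, t.2.2 = f) :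
    ∃ w : ZMod (V0 * f + U0).natAbs, ∀ t ∈ G, (e (om L t) : ZMod (V0 * f + U0).natAbs) =
      w * (j (om L t) * ((t.1 - f) * (t.2.1 - f)) : ℤ) := by
  have hu : IsUnit (p : ZMod (V0 * f + U0).natAbs) := by
    rw [ZMod.isUnit_iff_coprime, (Fact.out : p.Prime).coprime_iff_not_dvd]
    intro hd
    have h1 : ((V0 * f + U0 : ℤ) : ZMod p) = 0 :=
      (ZMod.intCast_zmod_eq_zero_iff_dvd _ p).2 (Int.natCast_dvd.2 hd)
    push_cast at h1
    rw [hC.u0] at h1
    exact mul_ne_zero hC.v0 (hV.nz f hfV) (by linear_combination h1)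
  obtain ⟨i, hi⟩ := hu.exists_left_inv
  refine ⟨i * V0 ^ 2, fun t ht => ?_⟩
  have h0 : ((V0 * f + U0 : ℤ) : ZMod (V0 * f + U0).natAbs) = 0 := by
    rw [ZMod.intCast_zmod_eq_zero_iff_dvd]
    simp
  have h1 := congrArg (Int.cast : ℤ → ZMod (V0 * f + U0).natAbs) (h.eq t ht t (h.self ht))
  rw [hf t ht] at h1
  generalize e (om L t) = e0 at *
  generalize j (om L t) = j1 at *
  generalize W (om L t) = W0 at *
  generalize (V0 * f + U0).natAbs = q at *
  push_cast at h0 h1 ⊢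
  linear_combination (-((e0 : ℤ) : ZMod q)) * hi - i * h1 +
    i * (((j1 : ℤ) : ZMod q) * (V0 * (t.1 + t.2.1 - f) + U0) + W0) * h0

theorem Sdat.boundII (h : Sdat L V V0 U0 G j W e j0 μ φ) (hV : Nrm p L V m)
    (hC : Cen p L V V0 U0 ζ) (hD : Dm (m ^ 2) ≤ D) {f : ℤ} (hfV : f ∈ V) (hf : ∀ t ∈ G, t.2.2 = f)
    (hne : ∀ t ∈ G, e (om L t) ≠ 0 ∧ t.1 ≠ f ∧ t.2.1 ≠ f) :
    G.card * ζ * φ ≤ 4 * D ^ 2 * V.card * ((49 * m ^ 2 + 3 * ζ) * μ) := by
  classical
  obtain ⟨w, hw⟩ := h.cong hV hC hfV hf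
  have : NeZero (V0 * f + U0).natAbs := ⟨Int.natAbs_ne_zero.2 (hC.ne hfV)⟩
  have hq : ζ ≤ (V0 * f + U0).natAbs := by
    have := hC.lo f hfV
    rw [Int.abs_eq_natAbs] at this
    exact_mod_cast this
  have h1 : G.card * ζ ≤ (G.image fun t => j (om L t)).card *
      (2 * D * ((49 * m ^ 2 + 3 * ζ) * μ)) := by
    refine card_mul_le_of_fib (fun t ht => mem_image_of_mem _ ht) fun i _ => ?_
    set Y := G.filter fun t => j (om L t) = i with hY
    have hYm : ∀ t ∈ Y, t ∈ G ∧ j (om L t) = i := fun t ht => mem_filter.1 ht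
    have hx : ∀ t ∈ G, (t.1 - f) * (t.2.1 - f) ≠ 0 := fun t ht =>
      mul_ne_zero (sub_ne_zero.2 (hne t ht).2.1) (sub_ne_zero.2 (hne t ht).2.2)
    have hb : ∀ t ∈ G, |(t.1 - f) * (t.2.1 - f)| ≤ (m ^ 2 : ℕ) := fun t ht =>
      hV.abs_mul_le (h.mem t ht).1 (h.mem t ht).2.1 hfV
    have h2 : Y.card ≤ 2 * D * (Y.image fun t => ((t.1 - f) * (t.2.1 - f), e (om L t))).card := by
      refine card_le_mul_card_image _ _ fun P _ => ?_
      refine (card_le_of_dvd _ (fun t => t.1 - f) P.1 (m ^ 2) (fun s hs t ht e => ?_)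
        fun t ht => ?_).trans (Nat.mul_le_mul_left 2 hD)
      · rw [mem_filter] at hs ht
        have e1 := congrArg Prod.fst (hs.2.trans ht.2.symm)
        simp only at e e1
        rw [← e] at e1
        have e2 := mul_left_cancel₀ (sub_ne_zero.2 (hne s (hYm s hs.1).1).2.1) e1
        exact Prod.ext (by linarith) (Prod.ext (by linarith)
          (by rw [hf s (hYm s hs.1).1, hf t (hYm t ht.1).1]))
      · rw [mem_filter] at ht
        rw [← ht.2]
        exact ⟨dvd_mul_right _ _, hx t (hYm t ht.1).1, hb t (hYm t ht.1).1⟩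
    have h3 : (Y.image fun t => ((t.1 - f) * (t.2.1 - f), e (om L t))).card * ζ ≤
        (49 * m ^ 2 + 3 * ζ) * μ := by
      rcases dich (w * ((i : ℤ) : ZMod _)) Y (fun t => (t.1 - f) * (t.2.1 - f)) (fun t => e (om L t)) (m ^ 2) μ
        (fun t ht => ⟨hx t (hYm t ht).1, (hne t (hYm t ht).1).1, by
          rw [hw t (hYm t ht).1, (hYm t ht).2]
          push_cast
          ring, hb t (hYm t ht).1, h.ele t (hYm t ht).1⟩) with h4 | h4
      · exact ((Nat.mul_le_mul_left _ hq).trans h4).trans (by nlinarith)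
      · have := col_card Y _ (fun t => e (om L t)) μ
          (fun t ht => ⟨(hne t (hYm t ht).1).1, h.ele t (hYm t ht).1⟩) h4
        exact (Nat.mul_le_mul_right _ this).trans (by nlinarith)
    calc Y.card * ζ ≤ 2 * D * (Y.image fun t => ((t.1 - f) * (t.2.1 - f), e (om L t))).card * ζ :=
          Nat.mul_le_mul_right _ h2
      _ ≤ _ := by rw [mul_assoc]; exact Nat.mul_le_mul_left _ h3
  have h2 := h.jcount hV hD hf
  calc G.card * ζ * φ ≤ (G.image fun t => j (om L t)).card *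
        (2 * D * ((49 * m ^ 2 + 3 * ζ) * μ)) * φ := Nat.mul_le_mul_right _ h1
    _ = (G.image fun t => j (om L t)).card * φ * (2 * D * ((49 * m ^ 2 + 3 * ζ) * μ)) := by ring
    _ ≤ V.card * (2 * D) * (2 * D * ((49 * m ^ 2 + 3 * ζ) * μ)) := Nat.mul_le_mul_right _ h2
    _ = _ := by ring

/-- Short progressions contain few elements of `V`. -/
def FewAP (V : Finset ℤ) (m T B : ℕ) : Prop :=
  ∀ f ∈ V, ∀ r : ℕ, 1 ≤ r → r ≤ m →
    (V.filter fun b => (r : ℤ) ∣ b - f ∧ |b - f| ≤ T * r).card ≤ B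

theorem Sdat.boundI (h : Sdat L V V0 U0 G j W e j0 μ φ) (hV : Nrm p L V m)
    (hC : Cen p L V V0 U0 ζ) (hD : Dm (j0 * m ^ 2) ≤ D) {f : ℤ} (hfV : f ∈ V)
    (hf : ∀ t ∈ G, t.2.2 = f) (hne : ∀ t ∈ G, e (om L t) ≠ 0 ∧ t.1 ≠ f ∧ t.2.1 ≠ f) {T B : ℕ}
    (hT : μ ≤ T ^ 2) (hB : FewAP V m T B) :
    G.card * ζ ≤ 196 * D ^ 2 * (j0 * m ^ 2) * μ ∨ G.card ≤ 2 * D * B * V.card := by
  classical
  obtain ⟨w, hw⟩ := h.cong hV hC hfV hf
  have : NeZero (V0 * f + U0).natAbs := ⟨Int.natAbs_ne_zero.2 (hC.ne hfV)⟩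
  have hq : ζ ≤ (V0 * f + U0).natAbs := by
    have := hC.lo f hfV
    rw [Int.abs_eq_natAbs] at this
    exact_mod_cast this
  have hx : ∀ t ∈ G, j (om L t) * ((t.1 - f) * (t.2.1 - f)) ≠ 0 := fun t ht =>
    mul_ne_zero (h.jne t ht)
      (mul_ne_zero (sub_ne_zero.2 (hne t ht).2.1) (sub_ne_zero.2 (hne t ht).2.2))
  have hb : ∀ t ∈ G, |j (om L t) * ((t.1 - f) * (t.2.1 - f))| ≤ (j0 * m ^ 2 : ℕ) := fun t ht => by
    rw [abs_mul, Nat.cast_mul]
    exact mul_le_mul (h.jle t ht) (hV.abs_mul_le (h.mem t ht).1 (h.mem t ht).2.1 hfV)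
      (abs_nonneg _) (by positivity)
  rcases dich w G (fun t => j (om L t) * ((t.1 - f) * (t.2.1 - f))) (fun t => e (om L t))
    (j0 * m ^ 2) μ (fun t ht => ⟨hx t ht, (hne t ht).1, hw t ht, hb t ht, h.ele t ht⟩) with h4 | h4
  · left
    have h2 : G.card ≤ 2 * D * (2 * D) *
        (G.image fun t => (j (om L t) * ((t.1 - f) * (t.2.1 - f)), e (om L t))).card := by
      refine card_le_mul_card_image _ _ fun P _ => ?_
      set Y := G.filter fun t => (j (om L t) * ((t.1 - f) * (t.2.1 - f)), e (om L t)) = P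
      have hY : ∀ t ∈ Y, t ∈ G ∧ j (om L t) * ((t.1 - f) * (t.2.1 - f)) = P.1 := fun t ht =>
        ⟨(mem_filter.1 ht).1, congrArg Prod.fst (mem_filter.1 ht).2⟩
      have hP : ∀ t ∈ Y, P.1 ≠ 0 ∧ |P.1| ≤ (j0 * m ^ 2 : ℕ) := fun t ht => by
        rw [← (hY t ht).2]
        exact ⟨hx t (hY t ht).1, hb t (hY t ht).1⟩
      refine (card_le_mul_card_image (f := fun t => t.1) Y (2 * D) fun b _ => ?_).trans
        (Nat.mul_le_mul_left _ ?_)
      · refine (card_le_of_dvd _ (fun t => t.2.1 - f) P.1 (j0 * m ^ 2) (fun s hs t ht e => ?_)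
          fun t ht => ?_).trans (Nat.mul_le_mul_left 2 hD)
        · rw [mem_filter] at hs ht
          exact Prod.ext (hs.2.trans ht.2.symm) (Prod.ext (by linarith)
            (by rw [hf s (hY s hs.1).1, hf t (hY t ht.1).1]))
        · rw [mem_filter] at ht
          refine ⟨?_, hP t ht.1⟩
          rw [← (hY t ht.1).2]
          exact (dvd_mul_left _ _).mul_left _
      · refine (card_le_of_dvd _ (fun b => b - f) P.1 (j0 * m ^ 2) (fun s _ t _ e => by linarith)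
          fun b hb => ?_).trans (Nat.mul_le_mul_left 2 hD)
        obtain ⟨t, ht, rfl⟩ := mem_image.1 hb
        refine ⟨?_, hP t ht⟩
        rw [← (hY t ht).2]
        exact (dvd_mul_right _ _).mul_left _
    calc G.card * ζ ≤ 2 * D * (2 * D) * (G.image fun t =>
          (j (om L t) * ((t.1 - f) * (t.2.1 - f)), e (om L t))).card * (V0 * f + U0).natAbs :=
          Nat.mul_le_mul h2 hq
      _ ≤ 2 * D * (2 * D) * (49 * (j0 * m ^ 2) * μ) := by
          rw [mul_assoc]; exact Nat.mul_le_mul_left _ h4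
      _ = _ := by ring
  right
  rcases G.eq_empty_or_nonempty with rfl | ⟨t0, ht0⟩
  · simp
  obtain ⟨r, q, -, hq0, hr⟩ := col_param G _ _ ht0 (hne t0 ht0).1 h4
  obtain ⟨u0, hu0, -⟩ := hr t0 ht0
  have hr0 : r ≠ 0 := fun h0 => hx t0 ht0 (by rw [hu0, h0, mul_zero])
  have hr1 : r.natAbs ≤ j0 * m ^ 2 := by
    have h5 := hb t0 ht0
    have h6 : u0 ≠ 0 := fun h0 => hx t0 ht0 (by rw [hu0, h0, zero_mul])
    rw [hu0, abs_mul] at h5
    have h7 : |r| ≤ (j0 * m ^ 2 : ℕ) := by nlinarith [Int.one_le_abs h6, abs_nonneg r]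
    rw [Int.abs_eq_natAbs] at h7
    exact_mod_cast h7
  set S := V.filter fun b => b ≠ f ∧ |b - f| ≤ T * Int.gcd r (b - f) with hS
  have hSc : S.card ≤ B * D := by
    refine (card_le_mul_card_image_of_maps_to (f := fun b => Int.gcd r (b - f))
      (t := r.natAbs.divisors) (fun b _ => ?_) B fun g _ => ?_).trans
      (Nat.mul_le_mul_left _ ((card_divisors_le hr1).trans hD))
    · exact Nat.mem_divisors.2 ⟨Int.natCast_dvd.1 (Int.gcd_dvd_left _ _), Int.natAbs_ne_zero.2 hr0⟩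
    · rcases (S.filter fun b => Int.gcd r (b - f) = g).eq_empty_or_nonempty with h0 | ⟨b, hb⟩
      · rw [h0]
        simp
      simp only [hS, mem_filter] at hb
      have k1 : b - f ≠ 0 := sub_ne_zero.2 hb.1.2.1
      refine le_trans (card_le_card fun b' hb' => ?_) (hB f hfV g ?_ ?_)
      · simp only [hS, mem_filter] at hb' ⊢
        rw [← hb'.2]
        exact ⟨hb'.1.1, Int.gcd_dvd_right _ _, hb'.1.2.2⟩
      · rw [← hb.2]
        exact Int.gcd_pos_of_ne_zero_right _ k1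
      · rw [← hb.2]
        have k2 := Int.le_of_dvd (abs_pos.2 k1) ((dvd_abs _ _).2 (Int.gcd_dvd_right r (b - f)))
        have k3 := hV.mem _ hb.1.1
        have k4 := hV.mem _ hfV
        have k5 : |b - f| ≤ m := by
          rw [abs_le]
          constructor <;> linarith [k3.1, k3.2, k4.1, k4.2]
        exact_mod_cast k2.trans k5
  have h5 : G.card ≤ (S ×ˢ V ∪ V ×ˢ S).card := by
    refine card_le_card_of_injOn (fun t => (t.1, t.2.1)) (fun t ht => ?_) fun s hs t ht e => ?_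
    · obtain ⟨u, hu, hu'⟩ := hr t ht
      have k1 : |u| ≤ T ^ 2 := by
        have k2 := h.ele t ht
        have k3 : (μ : ℤ) ≤ T ^ 2 := by exact_mod_cast hT
        rw [hu', abs_mul] at k2
        nlinarith [Int.one_le_abs hq0, abs_nonneg u]
      have hm := h.mem t ht
      have hn := hne t ht
      simp only [coe_union, coe_product, Set.mem_union, Set.mem_prod, mem_coe, hS, mem_filter]
      rcases short_or hu (h.jne t ht) (sub_ne_zero.2 hn.2.1) (sub_ne_zero.2 hn.2.2) k1 with k | k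
      · exact Or.inl ⟨⟨hm.1, hn.2.1, k⟩, hm.2.1⟩
      · exact Or.inr ⟨hm.1, hm.2.1, hn.2.2, k⟩
    · simp only [Prod.mk.injEq] at e
      exact Prod.ext e.1 (Prod.ext e.2 (by rw [hf s hs, hf t ht]))
  refine h5.trans ((card_union_le _ _).trans ?_)
  rw [card_product, card_product]
  nlinarith

end Pool.Agent.MP_bd74a7_nt

end
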