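import Pool.Agent.Mg.Fbd74a7.Ga0bda5
import Pool.Agent.Mg.Fbd74a7.G9f9525

section

/-!
Choice of the centre, dyadic decomposition and short progressions.
-/

open Finset

namespace Pool.Agent.MP_bd74a7_nt

variable {p m : ℕ} [Fact p.Prime] {L : ZMod p} {V : Finset ℤ}

theorem exists_centre (hV : Nrm p L V m) (hm : 1 ≤ m) : ∃ V0 U0 : ℤ, Centre p L m V0 U0 ∧
    ∀ v ∈ V, V0 * v + U0 ≠ 0 ∧ (V0 * v + U0).natAbs ≤ cp * m ^ 3 := by
  by_cases h : ∃ (V' U : ℤ) (Z : ℕ), Z ^ 2 < p * m ∧ Z ≤ cp * m ^ 3 ∧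
    2 * U.natAbs + m * V'.natAbs ≤ Z ∧ (U : ZMod p) = V' * L ∧ (V' : ZMod p) ≠ 0
  swap
  · refine ⟨0, 1, fun V' U Z h1 h2 h3 h4 h5 => absurd ⟨V', U, Z, h1, h2, h3, h4, h5⟩ h,
      fun v _ => ⟨by simp, ?_⟩⟩
    have := one_le_cp
    have := Nat.one_le_pow 3 m hm
    simp only [zero_mul, zero_add, Int.natAbs_one]
    exact Nat.mul_pos (by omega) (by omega)
  obtain ⟨V1, U1, Z1, h1, h2, h3, h4, h5⟩ := h
  have hV1 : V1 ≠ 0 := fun h0 => h5 (by rw [h0, Int.cast_zero])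
  obtain ⟨V0, U0, hco, e1, e2⟩ := Int.exists_gcd_one (Int.gcd_pos_of_ne_zero_left U1 hV1)
  generalize ((Int.gcd V1 U1 : ℕ) : ℤ) = g at *
  have hg : g ≠ 0 := fun h0 => hV1 (by rw [e1, h0, mul_zero])
  obtain ⟨a, b, hab⟩ := Int.isCoprime_iff_gcd_eq_one.2 hco
  have h3' : 2 * |U1| + m * |V1| ≤ Z1 := by
    simp only [Int.abs_eq_natAbs]
    exact_mod_cast h3
  have hm' : (0 : ℤ) < m := by exact_mod_cast hm
  refine ⟨V0, U0, fun V' U Z k1 _ k3 k4 _ => ?_, fun v hv => ?_⟩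
  · have k3' : 2 * |U| + m * |V'| ≤ Z := by
      simp only [Int.abs_eq_natAbs]
      exact_mod_cast k3
    have hdet : U1 * V' - U * V1 = 0 := by
      refine eq_zero_of_cast (p := p) (by push_cast; rw [h4, k4]; ring) ?_
      have i1 : (Z1 : ℤ) ^ 2 < p * m := by exact_mod_cast h1
      have i2 : (Z : ℤ) ^ 2 < p * m := by exact_mod_cast k1
      have i3 := abs_sub (U1 * V') (U * V1)
      rw [abs_mul, abs_mul] at i3
      have i4 : 2 * |U1| * (m * |V'|) ≤ Z1 * Z :=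
        mul_le_mul (by nlinarith [abs_nonneg V1]) (by nlinarith [abs_nonneg U]) (by positivity)
          (by positivity)
      have i5 : 2 * |U| * (m * |V1|) ≤ Z * Z1 :=
        mul_le_mul (by nlinarith [abs_nonneg V']) (by nlinarith [abs_nonneg U1]) (by positivity)
          (by positivity)
      have i6 := mul_le_mul_of_nonneg_left i3 hm'.le
      refine lt_of_mul_lt_mul_left (a := (m : ℤ)) ?_ hm'.le
      nlinarith [sq_nonneg ((Z1 : ℤ) - Z)]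
    rw [e1, e2] at hdet
    have h6 : U0 * V' = U * V0 := mul_right_cancel₀ hg (by linear_combination hdet)
    exact ⟨a * V' + b * U, by linear_combination (-V') * hab + b * h6,
      by linear_combination (-U) * hab - a * h6⟩
  · have e3 : (V0 * v + U0) * g = V1 * v + U1 := by rw [e1, e2]; ring
    constructor
    · intro h0
      rw [h0, zero_mul] at e3
      have e4 := congrArg (Int.cast : ℤ → ZMod p) e3
      push_cast at e4
      rw [h4] at e4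
      exact mul_ne_zero h5 (hV.nz v hv) (by linear_combination -e4)
    · refine le_trans ?_ h2
      have k := hV.mem v hv
      have i1 := abs_add_le (V1 * v) U1
      rw [← e3, abs_mul, abs_mul, abs_of_nonneg k.1] at i1
      have i2 : |V0 * v + U0| ≤ Z1 := by
        nlinarith [Int.one_le_abs hg, abs_nonneg (V0 * v + U0), abs_nonneg U1, abs_nonneg V1, k.2]
      rw [Int.abs_eq_natAbs] at i2
      exact_mod_cast i2

theorem core2 (hV : Nrm p L V m) (hm : 1 ≤ m) (hp : 4 * m ^ 3 < p) (S : Finset (ZMod p))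
    (hS : ∀ t ∈ V ×ˢ V ×ˢ V, om L t ∈ S) {N : ℕ} (hN : S.card ≤ N) (hN1 : 1 ≤ N)
    {T B D : ℕ} (hT : 4 * m ≤ T ^ 2) (hB : FewAP V m T B) (hD : Dm (8 * cp ^ 3 * m ^ 9) ≤ D) :
    ∃ j φ : ℕ, V.card ≤ j * D ∧ j ^ 3 ≤ 96 * N * D ^ 2 * (φ + 1) ∧ (φ < 16 * D ∨ j < 16 ∨
      j ≤ 8 * D * B ∨ j * φ ^ 3 * p ≤ 3328 * cp * D ^ 2 * m ^ 5 ∨
      j ^ 3 * φ ^ 7 * p ^ 2 ≤ 10436608 * cp ^ 3 * D ^ 4 * m ^ 11 ∨
      φ ^ 4 * p ≤ cp ^ 2 * m ^ 5 ∨ φ ^ 3 * p ^ 2 ≤ ce * m ^ 8) := by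
  obtain ⟨V0, U0, hc, hz⟩ := exists_centre hV hm
  have hle : cp * m ^ 3 ≤ 8 * cp ^ 3 * m ^ 9 := by
    have h1 : cp * m ^ 3 ≤ (cp * m ^ 3) ^ 3 := Nat.le_self_pow (by norm_num) _
    have h2 : 8 * cp ^ 3 * m ^ 9 = 8 * (cp * m ^ 3) ^ 3 := by ring
    omega
  have hD1 : 1 ≤ D := by
    refine le_trans (one_le_Dm (le_trans ?_ hle)) hD
    have := one_le_cp
    exact Nat.mul_pos (by omega) (Nat.one_le_pow 3 m hm)
  obtain ⟨i, -, hi⟩ := exists_max_image (range D)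
    (fun i => (V.filter fun v => Nat.log 2 (V0 * v + U0).natAbs = i).card) ⟨0, mem_range.2 hD1⟩
  set W := V.filter fun v => Nat.log 2 (V0 * v + U0).natAbs = i with hW
  have hWV : W ⊆ V := filter_subset _ _
  have h1 : V.card ≤ W.card * D := by
    have := card_le_mul_card_image_of_maps_to (s := V) (t := range D)
      (f := fun v => Nat.log 2 (V0 * v + U0).natAbs) (fun v hv => mem_range.2
        ((log_le_Dm (Int.natAbs_ne_zero.2 (hz v hv).1) ((hz v hv).2.trans hle)).trans hD)) _ hi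
    rwa [card_range] at this
  obtain ⟨φ, h2⟩ := core (ζ := 2 ^ i) (hV.mono hWV) hm hp S
    (fun t ht => hS t (product_subset_product hWV (product_subset_product hWV hWV) ht)) hN hN1
    (fun v hv => by
      rw [mem_filter] at hv
      rw [Int.abs_eq_natAbs, ← hv.2]
      exact_mod_cast Nat.pow_log_le_self 2 (Int.natAbs_ne_zero.2 (hz v hv.1).1))
    (fun v hv => by
      rw [mem_filter] at hv
      have := Nat.lt_pow_succ_log_self (b := 2) (by norm_num) (V0 * v + U0).natAbs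
      rw [hv.2, pow_succ'] at this
      rw [Int.abs_eq_natAbs]
      exact_mod_cast this.le) Nat.one_le_two_pow hc hT
    (fun f hf r h1 h2 => (card_le_card (filter_subset_filter _ hWV)).trans (hB f (hWV hf) r h1 h2))
    hD
  exact ⟨W.card, φ, h1, h2⟩

theorem exists_T {m : ℕ} (hm : 1 ≤ m) : ∃ T, 1 ≤ T ∧ 4 * m ≤ T ^ 2 ∧ T ^ 2 ≤ 10 * m := by
  refine ⟨Nat.sqrt (4 * m) + 1, by omega, (Nat.lt_succ_sqrt' _).le, ?_⟩
  have := Nat.sqrt_le' (4 * m)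
  nlinarith [sq_nonneg ((Nat.sqrt (4 * m) : ℤ) - 1)]

theorem fewAP_triv (V : Finset ℤ) (m T : ℕ) : FewAP V m T (2 * T + 1) := by
  intro f _ r hr _
  have h : (V.filter fun b => (r : ℤ) ∣ b - f ∧ |b - f| ≤ T * r).card ≤
      (Icc (-(T : ℤ)) T).card := by
    refine card_le_card_of_injOn (fun b => (b - f) / r) (fun b hb => ?_) fun b hb b' hb' e => ?_
    · obtain ⟨-, ⟨c, hc⟩, h2⟩ := mem_filter.1 hb
      have hr' : (0 : ℤ) < r := by exact_mod_cast hr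
      simp only [mem_coe, mem_Icc, ← abs_le]
      rw [hc, Int.mul_ediv_cancel_left _ hr'.ne']
      rw [hc, abs_mul, abs_of_pos hr', mul_comm] at h2
      exact le_of_mul_le_mul_right h2 hr'
    · have h1 := Int.mul_ediv_cancel' (mem_filter.1 hb).2.1
      have h2 := Int.mul_ediv_cancel' (mem_filter.1 hb').2.1
      simp only at e
      rw [e] at h1
      linarith
  rw [Int.card_Icc] at h
  omega

theorem pow_bound {x c D k i : ℕ} (hk : k ≠ 0) (hD : 1 ≤ D) (hi : i ≤ k) (hc : c ≤ (10 ^ 7) ^ k)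
    (h : x ^ k ≤ c * D ^ i) : x ≤ 10 ^ 7 * D := by
  refine (Nat.pow_le_pow_iff_left hk).1 (h.trans ?_)
  rw [mul_pow]
  exact Nat.mul_le_mul hc (Nat.pow_le_pow_right hD hi)

theorem inner {m' : ℕ} (hV : Nrm p L V m') (hm : 1 ≤ m') (hp : 4 * m ^ 3 < p) (h1 : m' ≤ m)
    (h2 : m' ^ 2 ≤ 40 * m) (S : Finset (ZMod p)) (hS : ∀ t ∈ V ×ˢ V ×ˢ V, om L t ∈ S) {N : ℕ}
    (hN : S.card ≤ N) (hN1 : m ≤ N) {D : ℕ} (hD : Dm (8 * cp ^ 3 * m ^ 9) ≤ D) :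
    V.card ^ 3 ≤ 2 * 10 ^ 9 * N * D ^ 6 := by
  obtain ⟨T, hT1, hT, hT'⟩ := exists_T hm
  have hD' : Dm (8 * cp ^ 3 * m' ^ 9) ≤ D := (Dm_mono (by gcongr)).trans hD
  have hD1 : 1 ≤ D := by
    refine le_trans (one_le_Dm ?_) hD'
    have : 0 < cp := lt_of_lt_of_le (by norm_num) one_le_cp
    exact Nat.succ_le_of_lt (by positivity)
  have hN0 : 1 ≤ N := by omega
  obtain ⟨j, φ, k1, k2, k3⟩ := core2 hV hm (lt_of_le_of_lt (by gcongr) hp) S hS hN hN0 hT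
    (fewAP_triv V m' T) hD'
  suffices h : j ^ 3 ≤ 2 * 10 ^ 9 * N * D ^ 3 by
    calc V.card ^ 3 ≤ (j * D) ^ 3 := by gcongr
      _ = j ^ 3 * D ^ 3 := by ring
      _ ≤ 2 * 10 ^ 9 * N * D ^ 3 * D ^ 3 := by gcongr
      _ = _ := by ring
  rcases Nat.eq_zero_or_pos j with rfl | hj
  · simp
  have hp0 : 0 < p := by omega
  have h6 : m' ^ 6 ≤ 16000 * p := by
    calc m' ^ 6 = (m' ^ 2) ^ 3 := by ring
      _ ≤ (40 * m) ^ 3 := by gcongr
      _ = 16000 * (4 * m ^ 3) := by ring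
      _ ≤ _ := by gcongr
  have h5 : m' ^ 5 ≤ 16000 * p := (Nat.pow_le_pow_right hm (by norm_num)).trans h6
  have h12 : m' ^ 12 ≤ 16000 ^ 2 * p ^ 2 := by
    calc m' ^ 12 = (m' ^ 6) ^ 2 := by ring
      _ ≤ (16000 * p) ^ 2 := by gcongr
      _ = _ := by ring
  have h11 : m' ^ 11 ≤ 16000 ^ 2 * p ^ 2 := (Nat.pow_le_pow_right hm (by norm_num)).trans h12
  have h8 : m' ^ 8 ≤ 16000 ^ 2 * p ^ 2 := (Nat.pow_le_pow_right hm (by norm_num)).trans h12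
  have fin : φ ≤ 10 ^ 7 * D → j ^ 3 ≤ 2 * 10 ^ 9 * N * D ^ 3 := fun h => by
    refine k2.trans ?_
    calc 96 * N * D ^ 2 * (φ + 1) ≤ 96 * N * D ^ 2 * (2 * 10 ^ 7 * D) := by gcongr; omega
      _ = 1920000000 * N * D ^ 3 := by ring
      _ ≤ _ := Nat.mul_le_mul_right _ (Nat.mul_le_mul_right _ (by norm_num))
  have hND : 1 ≤ N * D ^ 3 := Nat.mul_pos hN0 (by positivity)
  rcases k3 with h | h | h | h | h | h | h
  · exact fin (by omega)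
  · calc j ^ 3 ≤ 16 ^ 3 := by gcongr
      _ ≤ 2 * 10 ^ 9 * 1 := by norm_num
      _ ≤ _ := by rw [mul_assoc (2 * 10 ^ 9)]; gcongr
  · calc j ^ 3 ≤ (8 * D * (3 * T)) ^ 3 := by gcongr; exact h.trans (by gcongr; omega)
      _ = 13824 * D ^ 3 * T ^ 3 := by ring
      _ ≤ 13824 * D ^ 3 * (T ^ 2) ^ 2 := by
          rw [← pow_mul]
          gcongr
          norm_num
      _ ≤ 13824 * D ^ 3 * (10 * m') ^ 2 := by gcongr
      _ = 1382400 * D ^ 3 * m' ^ 2 := by ring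
      _ ≤ 1382400 * D ^ 3 * (40 * N) := by gcongr; omega
      _ = 55296000 * N * D ^ 3 := by ring
      _ ≤ _ := by gcongr; norm_num
  · refine fin (pow_bound (k := 3) (i := 2) (c := 3328 * cp * 16000) (by norm_num) hD1
      (by norm_num) (by norm_num [cp]) (Nat.le_of_mul_le_mul_right ?_ hp0))
    calc φ ^ 3 * p ≤ j * φ ^ 3 * p := by gcongr; exact Nat.le_mul_of_pos_left _ hj
      _ ≤ 3328 * cp * D ^ 2 * (16000 * p) := h.trans (by gcongr)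
      _ = _ := by ring
  · refine fin (pow_bound (k := 7) (i := 4) (c := 10436608 * cp ^ 3 * 16000 ^ 2) (by norm_num) hD1
      (by norm_num) (by norm_num [cp]) (Nat.le_of_mul_le_mul_right ?_ (pow_pos hp0 2)))
    calc φ ^ 7 * p ^ 2 ≤ j ^ 3 * φ ^ 7 * p ^ 2 := by
          gcongr; exact Nat.le_mul_of_pos_left _ (pow_pos hj 3)
      _ ≤ 10436608 * cp ^ 3 * D ^ 4 * (16000 ^ 2 * p ^ 2) := h.trans (by gcongr)
      _ = _ := by ring
  · refine fin (pow_bound (k := 4) (i := 0) (c := cp ^ 2 * 16000) (by norm_num) hD1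
      (by norm_num) (by norm_num [cp]) (Nat.le_of_mul_le_mul_right ?_ hp0))
    calc φ ^ 4 * p ≤ cp ^ 2 * (16000 * p) := h.trans (by gcongr)
      _ = _ := by ring
  · refine fin (pow_bound (k := 3) (i := 0) (c := ce * 16000 ^ 2) (by norm_num) hD1
      (by norm_num) (by norm_num [ce]) (Nat.le_of_mul_le_mul_right ?_ (pow_pos hp0 2)))
    calc φ ^ 3 * p ^ 2 ≤ ce * (16000 ^ 2 * p ^ 2) := h.trans (by gcongr)
      _ = _ := by ring

theorem fewAP_inner (hV : Nrm p L V m) (hp : 4 * m ^ 3 < p) {T : ℕ} (hT1 : 1 ≤ T)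
    (hT : T ^ 2 ≤ 10 * m) (hm : 40 ≤ m) (S : Finset (ZMod p))
    (hS : ∀ t ∈ V ×ˢ V ×ˢ V, om L t ∈ S) {N : ℕ} (hN : S.card ≤ N) (hN1 : m ≤ N) {D : ℕ}
    (hD : Dm (8 * cp ^ 3 * m ^ 9) ≤ D) :
    ∃ B, FewAP V m T B ∧ B ^ 3 ≤ 2 * 10 ^ 9 * N * D ^ 6 := by
  classical
  obtain ⟨B, h1, h2⟩ := exists_root 1 (2 * 10 ^ 9 * N * D ^ 6) 3 le_rfl (by norm_num)
  refine ⟨B, fun f hf r hr hr' => ?_, by simpa using h1⟩
  have hr0 : (r : ZMod p) ≠ 0 := by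
    rw [Ne, ZMod.natCast_eq_zero_iff]
    exact Nat.not_dvd_of_pos_of_lt hr (hr'.trans_lt (lt_of_cube hp))
  have hr1 : (0 : ℤ) < r := by exact_mod_cast hr
  set W := V.filter fun b => (r : ℤ) ∣ b - f ∧ |b - f| ≤ T * r with hW
  have hmem : ∀ x ∈ W.image fun b => (b - f) / r + T, (0 ≤ x ∧ x ≤ (2 * T : ℕ)) ∧
      ∃ b ∈ V, (L + f) / r - T + x = (L + b) / r := by
    intro x hx
    obtain ⟨b, hb, rfl⟩ := mem_image.1 hx
    obtain ⟨hb, ⟨c, hc⟩, h3⟩ := mem_filter.1 hb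
    rw [hc, Int.mul_ediv_cancel_left _ hr1.ne']
    rw [hc, abs_mul, abs_of_pos hr1, mul_comm] at h3
    have h4 := abs_le.1 (le_of_mul_le_mul_right h3 hr1)
    refine ⟨by push_cast; constructor <;> linarith [h4.1, h4.2], b, hb, ?_⟩
    rw [show b = f + r * c by linarith]
    push_cast
    field_simp
    ring
  have h3 := inner (m := m) (L := (L + (f : ZMod p)) / (r : ZMod p) - (T : ZMod p)) (V := W.image fun b => (b - f) / r + T)
    (m' := 2 * T) ⟨fun x hx => (hmem x hx).1, fun x hx => by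
      obtain ⟨-, b, hb, e⟩ := hmem x hx
      rw [e]
      exact div_ne_zero (hV.nz b hb) hr0⟩ (by omega) hp (by nlinarith) (by nlinarith)
    (S.image fun s => s / r) (fun t ht => by
      simp only [mem_product] at ht
      obtain ⟨-, b, hb, e1⟩ := hmem _ ht.1
      obtain ⟨-, c, hc, e2⟩ := hmem _ ht.2.1
      obtain ⟨-, d, hd, e3⟩ := hmem _ ht.2.2
      refine mem_image.2 ⟨om L (b, c, d), hS _ (by simp [hb, hc, hd]), ?_⟩
      have := hV.nz d hd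
      simp only [om, e1, e2, e3]
      field_simp) (card_image_le.trans hN) hN1 hD
  rw [card_image_of_injOn] at h3
  · have h4 := h3.trans_lt h2
    rw [mul_one] at h4
    exact Nat.lt_succ_iff.1 (lt_of_pow_lt_pow_left₀ 3 (Nat.zero_le _) h4)
  · intro b hb b' hb' e
    have k1 := Int.mul_ediv_cancel' (mem_filter.1 hb).2.1
    have k2 := Int.mul_ediv_cancel' (mem_filter.1 hb').2.1
    simp only [add_left_inj] at e
    rw [e] at k1
    linarith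

end Pool.Agent.MP_bd74a7_nt

end

section

/-!
The bound `M ^ (1/3) + M ^ (3/4) p ^ (-1/12) + M ^ (11/9) p ^ (-2/9)`.
-/

open Finset

namespace Pool.Agent.MP_bd74a7_nt

theorem mul_bound {c d D i k X : ℕ} (hD : 1 ≤ D) (hi : i ≤ 3 * k) (hc : c ≤ d ^ k) :
    c * D ^ i * X ≤ (d * D ^ 3) ^ k * X := by
  rw [mul_pow, ← pow_mul]
  exact Nat.mul_le_mul_right _ (Nat.mul_le_mul hc (Nat.pow_le_pow_right hD hi))

theorem outer {p M : ℕ} [Fact p.Prime] {L : ZMod p} {V : Finset ℤ} (hV : Nrm p L V M) (hm : 1 ≤ M)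
    (hp : 4 * M ^ 3 < p) (S : Finset (ZMod p)) (hS : ∀ t ∈ V ×ˢ V ×ˢ V, om L t ∈ S)
    (hN : S.card ≤ 3 * M) {D : ℕ} (hD : Dm (8 * cp ^ 3 * M ^ 9) ≤ D) :
    ∃ j : ℕ, V.card ≤ j * D ∧ (j ^ 3 ≤ (10 ^ 5 * D ^ 3) ^ 3 * M ∨
      j ^ 12 * p ≤ (10 ^ 5 * D ^ 3) ^ 12 * M ^ 9 ∨ j ^ 9 * p ^ 2 ≤ (10 ^ 5 * D ^ 3) ^ 9 * M ^ 11) := by
  have hD1 : 1 ≤ D := by
    refine le_trans (one_le_Dm ?_) hD
    have : 0 < cp := lt_of_lt_of_le (by norm_num) one_le_cp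
    exact Nat.succ_le_of_lt (by positivity)
  have small : ∀ j, j ≤ 41 → j ^ 3 ≤ (10 ^ 5 * D ^ 3) ^ 3 * M := fun j hj => by
    refine le_trans ?_ (mul_bound (c := 41 ^ 3) (i := 0) hD1 (by norm_num) (by norm_num))
    calc j ^ 3 ≤ 41 ^ 3 * 1 * 1 := by rw [mul_one, mul_one]; gcongr
      _ ≤ _ := by rw [pow_zero]; gcongr
  by_cases h40 : M < 40
  · refine ⟨V.card, Nat.le_mul_of_pos_right _ hD1, Or.inl (small _ ?_)⟩
    have : V.card ≤ (Icc (0 : ℤ) M).card := card_le_card fun v hv => mem_Icc.2 (hV.mem v hv)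
    rw [Int.card_Icc] at this
    omega
  obtain ⟨T, hT1, hT, hT'⟩ := exists_T hm
  obtain ⟨B, hB, hB'⟩ := fewAP_inner hV hp hT1 hT' (by omega) S hS hN (by omega) hD
  obtain ⟨j, φ, k1, k2, k3⟩ := core2 hV hm hp S hS hN (by omega) hT hB hD
  refine ⟨j, k1, ?_⟩
  by_cases hφ : φ < 16 * D
  · left
    refine le_trans ?_ (mul_bound (c := 4608) (i := 3) hD1 (by norm_num) (by norm_num))
    calc j ^ 3 ≤ 96 * (3 * M) * D ^ 2 * (16 * D) := k2.trans (by gcongr; omega)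
      _ = _ := by ring
  have k4 : j ^ 3 ≤ 576 * M * D ^ 2 * φ := by
    calc j ^ 3 ≤ 96 * (3 * M) * D ^ 2 * (2 * φ) := k2.trans (by gcongr; omega)
      _ = _ := by ring
  have hp0 : 0 < p := by omega
  rcases k3 with h | h | h | h | h | h | h
  · exact absurd h hφ
  · exact Or.inl (small j (by omega))
  · left
    refine le_trans ?_ (mul_bound (c := 3072000000000) (i := 9) hD1 (by norm_num) (by norm_num))
    calc j ^ 3 ≤ (8 * D * B) ^ 3 := by gcongr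
      _ = 512 * D ^ 3 * B ^ 3 := by ring
      _ ≤ 512 * D ^ 3 * (2 * 10 ^ 9 * (3 * M) * D ^ 6) := by gcongr
      _ = _ := by ring
  · right; left
    have h1 : j ^ 10 * p ≤ 576 ^ 3 * 3328 * cp * D ^ 8 * M ^ 8 := by
      calc j ^ 10 * p = (j ^ 3) ^ 3 * (j * p) := by ring
        _ ≤ (576 * M * D ^ 2 * φ) ^ 3 * (j * p) := by gcongr
        _ = 576 ^ 3 * M ^ 3 * D ^ 6 * (j * φ ^ 3 * p) := by ring
        _ ≤ 576 ^ 3 * M ^ 3 * D ^ 6 * (3328 * cp * D ^ 2 * M ^ 5) := by gcongr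
        _ = _ := by ring
    refine (Nat.pow_le_pow_iff_left (show 5 ≠ 0 by norm_num)).1 ?_
    rw [mul_pow _ (M ^ 9), ← pow_mul, ← pow_mul]
    refine le_trans ?_ (mul_bound (c := (576 ^ 3 * 3328 * cp) ^ 6) (i := 48) hD1 (by norm_num)
      (by norm_num [cp]))
    refine Nat.le_of_mul_le_mul_right ?_ hp0
    calc (j ^ 12 * p) ^ 5 * p = (j ^ 10 * p) ^ 6 := by ring
      _ ≤ (576 ^ 3 * 3328 * cp * D ^ 8 * M ^ 8) ^ 6 := by gcongr
      _ = (576 ^ 3 * 3328 * cp) ^ 6 * D ^ 48 * M ^ (9 * 5) * M ^ 3 := by ring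
      _ ≤ _ := by gcongr; omega
  · right; left
    refine (Nat.pow_le_pow_iff_left (show 2 ≠ 0 by norm_num)).1 ?_
    rw [mul_pow _ (M ^ 9), ← pow_mul, ← pow_mul]
    refine le_trans ?_ (mul_bound (c := 576 ^ 7 * 10436608 * cp ^ 3) (i := 18) hD1 (by norm_num)
      (by norm_num [cp]))
    calc (j ^ 12 * p) ^ 2 = (j ^ 3) ^ 7 * (j ^ 3 * p ^ 2) := by ring
      _ ≤ (576 * M * D ^ 2 * φ) ^ 7 * (j ^ 3 * p ^ 2) := by gcongr
      _ = 576 ^ 7 * M ^ 7 * D ^ 14 * (j ^ 3 * φ ^ 7 * p ^ 2) := by ring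
      _ ≤ 576 ^ 7 * M ^ 7 * D ^ 14 * (10436608 * cp ^ 3 * D ^ 4 * M ^ 11) := by gcongr
      _ = _ := by ring
  · right; left
    refine le_trans ?_ (mul_bound (c := 576 ^ 4 * cp ^ 2) (i := 8) hD1 (by norm_num)
      (by norm_num [cp]))
    calc j ^ 12 * p = (j ^ 3) ^ 4 * p := by ring
      _ ≤ (576 * M * D ^ 2 * φ) ^ 4 * p := by gcongr
      _ = 576 ^ 4 * M ^ 4 * D ^ 8 * (φ ^ 4 * p) := by ring
      _ ≤ 576 ^ 4 * M ^ 4 * D ^ 8 * (cp ^ 2 * M ^ 5) := by gcongr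
      _ = _ := by ring
  · right; right
    refine le_trans ?_ (mul_bound (c := 576 ^ 3 * ce) (i := 6) hD1 (by norm_num)
      (by norm_num [ce]))
    calc j ^ 9 * p ^ 2 = (j ^ 3) ^ 3 * p ^ 2 := by ring
      _ ≤ (576 * M * D ^ 2 * φ) ^ 3 * p ^ 2 := by gcongr
      _ = 576 ^ 3 * M ^ 3 * D ^ 6 * (φ ^ 3 * p ^ 2) := by ring
      _ ≤ 576 ^ 3 * M ^ 3 * D ^ 6 * (ce * M ^ 8) := by gcongr
      _ = _ := by ring

theorem setup2 (p : ℕ) [Fact p.Prime] (g : ℕ) (a K L : ℤ) (M : ℕ) (ha : ¬ (p : ℤ) ∣ a)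
    (hM : M < orderOf (g : ZMod p)) :
    ∃ V : Finset ℤ, V.card = ((Icc (K + 1) (K + M) ×ˢ Icc (L + 1) (L + M)).filter
        fun xy : ℤ × ℤ => (xy.2 : ZMod p) = a * (g : ZMod p) ^ xy.1).card ∧
      Nrm p L V M ∧ ∃ S : Finset (ZMod p), S.card ≤ 3 * M ∧ ∀ t ∈ V ×ˢ V ×ˢ V, om L t ∈ S := by
  classical
  have hg : (g : ZMod p) ≠ 0 := by
    intro h0
    rw [h0, orderOf_zero] at hM
    omega
  have ha' : (a : ZMod p) ≠ 0 := fun h => ha ((ZMod.intCast_zmod_eq_zero_iff_dvd a p).1 h)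
  set F := (Icc (K + 1) (K + M) ×ˢ Icc (L + 1) (L + M)).filter
    fun xy : ℤ × ℤ => (xy.2 : ZMod p) = a * (g : ZMod p) ^ xy.1 with hF
  have hmem : ∀ v ∈ F.image fun xy => xy.2 - L, (0 ≤ v ∧ v ≤ M) ∧
      ∃ x, (K + 1 ≤ x ∧ x ≤ K + M) ∧ (L : ZMod p) + v = a * (g : ZMod p) ^ x := by
    intro v hv
    obtain ⟨xy, hxy, rfl⟩ := mem_image.1 hv
    simp only [hF, mem_filter, mem_product, mem_Icc] at hxy
    exact ⟨by omega, xy.1, hxy.1.1, by rw [← hxy.2]; push_cast; ring⟩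
  refine ⟨F.image fun xy => xy.2 - L, card_image_of_injOn ?_, ⟨fun v hv => (hmem v hv).1, ?_⟩, ?_⟩
  · rintro ⟨x, y⟩ h1 ⟨x', y'⟩ h2 he
    simp only [hF, coe_filter, mem_product, mem_Icc, Set.mem_ofPred_eq, sub_left_inj] at h1 h2 he
    subst he
    have h3 : (g : ZMod p) ^ x = (g : ZMod p) ^ x' :=
      mul_left_cancel₀ ha' (h1.2.symm.trans h2.2)
    have h4 : Units.mk0 (g : ZMod p) hg ^ x = Units.mk0 (g : ZMod p) hg ^ x' := by
      ext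
      simpa using h3
    rw [zpow_eq_zpow_iff_modEq, ← orderOf_units, Units.val_mk0] at h4
    have h5 := Int.eq_zero_of_abs_lt_dvd h4.dvd (by
      rw [abs_lt]
      omega)
    rw [show x = x' by omega]
  · intro v hv
    obtain ⟨-, x, -, hx⟩ := hmem v hv
    rw [hx]
    exact mul_ne_zero ha' (zpow_ne_zero _ hg)
  · refine ⟨(Icc (K - M + 1) (K + 2 * M)).image fun z => (a : ZMod p) * (g : ZMod p) ^ z,
      card_image_le.trans (by rw [Int.card_Icc]; omega), fun t ht => ?_⟩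
    simp only [mem_product] at ht
    obtain ⟨-, x, h1, hx⟩ := hmem _ ht.1
    obtain ⟨-, y, h2, hy⟩ := hmem _ ht.2.1
    obtain ⟨-, z, h3, hz⟩ := hmem _ ht.2.2
    refine mem_image.2 ⟨x + y - z, mem_Icc.2 (by omega), ?_⟩
    rw [om, hx, hy, hz, zpow_sub₀ hg, zpow_add₀ hg]
    have := zpow_ne_zero z hg
    field_simp

theorem le_root {j E M p α β : ℝ} {k r i : ℕ} (hk : k ≠ 0) (hE : 0 ≤ E) (hM : 0 ≤ M) (hp : 0 < p)
    (hα : α * k = r) (hβ : β * k = -i) (h : j ^ k * p ^ i ≤ E ^ k * M ^ r) :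
    j ≤ E * (M ^ α * p ^ β) := by
  refine le_of_pow_le hk (by positivity) ?_
  rw [mul_pow, mul_pow, rpow_pow_eq hM, rpow_pow_eq hp.le, hα, hβ, Real.rpow_neg hp.le,
    Real.rpow_natCast, Real.rpow_natCast, ← mul_assoc, le_mul_inv_iff₀ (by positivity)]
  exact h

theorem boundB (ε : ℝ) (hε : 0 < ε) :
    ∃ C : ℝ, 0 < C ∧ ∀ (p : ℕ) [Fact p.Prime] (g : ℕ) (a K L : ℤ) (M : ℕ),
      ¬ (p : ℤ) ∣ a → 1 ≤ M → M < orderOf (g : ZMod p) → (M : ℝ) < √p →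
      ((((Icc (K + 1) (K + M) ×ˢ Icc (L + 1) (L + M)).filter
        fun xy : ℤ × ℤ => (xy.2 : ZMod p) = a * (g : ZMod p) ^ xy.1).card : ℕ) : ℝ) ≤
        C * (M : ℝ) ^ ε * ((M : ℝ) ^ (1 / 3 : ℝ) + (M : ℝ) ^ (3 / 4 : ℝ) * (p : ℝ) ^ (-1 / 12 : ℝ) +
          (M : ℝ) ^ (11 / 9 : ℝ) * (p : ℝ) ^ (-2 / 9 : ℝ)) := by
  obtain ⟨C1, hC1, hA⟩ := boundA ε hε
  obtain ⟨C2, hC2, hD⟩ := Dm_pow_bound (ε := ε / 4) (by positivity) (8 * cp ^ 3) 9 (by norm_num)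
  refine ⟨2 * C1 + 10 ^ 5 * C2 ^ 4, by positivity, fun p _ g a K L M ha hM ht hp => ?_⟩
  have hp0 : (0 : ℝ) < p := by exact_mod_cast (Fact.out : p.Prime).pos
  have hM1 : (1 : ℝ) ≤ M := by exact_mod_cast hM
  have hM0 : (0 : ℝ) ≤ M := by positivity
  have x1 : (0 : ℝ) ≤ (M : ℝ) ^ (1 / 3 : ℝ) := by positivity
  have x2 : (0 : ℝ) ≤ (M : ℝ) ^ (3 / 4 : ℝ) * (p : ℝ) ^ (-1 / 12 : ℝ) := by positivity
  have x3 : (0 : ℝ) ≤ (M : ℝ) ^ (11 / 9 : ℝ) * (p : ℝ) ^ (-2 / 9 : ℝ) := by positivity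
  have x4 : (0 : ℝ) ≤ (M : ℝ) ^ ε := by positivity
  set X := (M : ℝ) ^ (1 / 3 : ℝ) + (M : ℝ) ^ (3 / 4 : ℝ) * (p : ℝ) ^ (-1 / 12 : ℝ) +
    (M : ℝ) ^ (11 / 9 : ℝ) * (p : ℝ) ^ (-2 / 9 : ℝ) with hX
  have x5 : 0 ≤ X := by positivity
  by_cases h4 : 4 * M ^ 3 < p
  · obtain ⟨V, hc, hV, S, hS, hS'⟩ := setup2 p g a K L M ha ht
    rw [← hc]
    obtain ⟨j, k1, k2⟩ := outer hV hM h4 S hS' hS le_rfl
    set D := Dm (8 * cp ^ 3 * M ^ 9)
    have hj : (j : ℝ) ≤ 10 ^ 5 * (D : ℝ) ^ 3 * X := by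
      have hE : (0 : ℝ) ≤ 10 ^ 5 * (D : ℝ) ^ 3 := by positivity
      rcases k2 with h | h | h
      · have := le_root (k := 3) (r := 1) (i := 0) (α := 1 / 3) (β := 0) (j := j) (by norm_num) hE
          hM0 hp0 (by norm_num) (by norm_num) (by
            rw [pow_zero, mul_one, pow_one]
            exact_mod_cast h)
        rw [Real.rpow_zero, mul_one] at this
        exact this.trans (mul_le_mul_of_nonneg_left (by linarith) hE)
      · exact (le_root (k := 12) (r := 9) (i := 1) (α := 3 / 4) (β := -1 / 12) (j := j)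
          (by norm_num) hE hM0 hp0 (by norm_num) (by norm_num) (by
            rw [pow_one]
            exact_mod_cast h)).trans (mul_le_mul_of_nonneg_left (by linarith) hE)
      · exact (le_root (k := 9) (r := 11) (i := 2) (α := 11 / 9) (β := -2 / 9) (j := j)
          (by norm_num) hE hM0 hp0 (by norm_num) (by norm_num) (by
            exact_mod_cast h)).trans (mul_le_mul_of_nonneg_left (by linarith) hE)
    have hD4 : (D : ℝ) ^ 4 ≤ C2 ^ 4 * (M : ℝ) ^ ε := by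
      have h1 : (D : ℝ) ≤ C2 * (M : ℝ) ^ (ε / 4) := by linarith [hD M hM]
      have h2 := pow_le_pow_left₀ (Nat.cast_nonneg D) h1 4
      rwa [mul_pow, rpow_pow_eq hM0, show ε / 4 * (4 : ℕ) = ε by push_cast; ring] at h2
    calc (V.card : ℝ) ≤ j * D := by exact_mod_cast k1
      _ ≤ 10 ^ 5 * (D : ℝ) ^ 3 * X * D := by gcongr
      _ = 10 ^ 5 * (D : ℝ) ^ 4 * X := by ring
      _ ≤ 10 ^ 5 * (C2 ^ 4 * (M : ℝ) ^ ε) * X := by gcongr
      _ = 10 ^ 5 * C2 ^ 4 * (M : ℝ) ^ ε * X := by ring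
      _ ≤ _ := by gcongr; linarith
  have h5 : (p : ℝ) ≤ 4 * M ^ 3 := by exact_mod_cast not_lt.1 h4
  have y1 : (M : ℝ) ^ (1 / 2 : ℝ) ≤ 2 * ((M : ℝ) ^ (3 / 4 : ℝ) * (p : ℝ) ^ (-1 / 12 : ℝ)) := by
    refine le_root (k := 12) (r := 9) (i := 1) (by norm_num) (by norm_num) hM0 hp0 (by norm_num)
      (by norm_num) ?_
    rw [rpow_pow_eq hM0, show (1 / 2 : ℝ) * (12 : ℕ) = (6 : ℕ) by norm_num, Real.rpow_natCast,
      pow_one]
    calc (M : ℝ) ^ 6 * p ≤ (M : ℝ) ^ 6 * (4 * (M : ℝ) ^ 3) := by gcongr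
      _ = 4 * (M : ℝ) ^ 9 := by ring
      _ ≤ _ := by gcongr; norm_num
  have y2 : (M : ℝ) ^ (6 / 7 : ℝ) * (p : ℝ) ^ (-1 / 7 : ℝ) ≤
      2 * ((M : ℝ) ^ (11 / 9 : ℝ) * (p : ℝ) ^ (-2 / 9 : ℝ)) := by
    refine le_root (k := 63) (r := 77) (i := 14) (by norm_num) (by norm_num) hM0 hp0 (by norm_num)
      (by norm_num) ?_
    rw [mul_pow, rpow_pow_eq hM0, rpow_pow_eq hp0.le,
      show (6 / 7 : ℝ) * (63 : ℕ) = (54 : ℕ) by norm_num,
      show (-1 / 7 : ℝ) * (63 : ℕ) = -((9 : ℕ) : ℝ) by norm_num, Real.rpow_neg hp0.le,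
      Real.rpow_natCast, Real.rpow_natCast]
    calc (M : ℝ) ^ 54 * ((p : ℝ) ^ 9)⁻¹ * (p : ℝ) ^ 14 = (M : ℝ) ^ 54 * (p : ℝ) ^ 5 := by field_simp
      _ ≤ (M : ℝ) ^ 54 * (4 * (M : ℝ) ^ 3) ^ 5 := by gcongr
      _ = 1024 * (M : ℝ) ^ 69 := by ring
      _ ≤ _ := mul_le_mul (by norm_num) (pow_le_pow_right₀ hM1 (by norm_num)) (by positivity)
          (by positivity)
  refine (hA p g a K L M ha hM ht hp).trans ?_
  calc C1 * (M : ℝ) ^ ε * ((M : ℝ) ^ (1 / 2 : ℝ) + (M : ℝ) ^ (6 / 7 : ℝ) * (p : ℝ) ^ (-1 / 7 : ℝ))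
      ≤ C1 * (M : ℝ) ^ ε * (2 * X) := by gcongr; linarith
    _ = 2 * C1 * (M : ℝ) ^ ε * X := by ring
    _ ≤ _ := by gcongr; exact le_add_of_nonneg_right (by positivity)

end Pool.Agent.MP_bd74a7_nt

end
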