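import Pool.Agent.Mg.Fbd74a7.G5c02c2

/-!
The bound for one dyadic piece.
-/

open Finset Matrix

namespace Pool.Agent.MP_bd74a7_nt

/-- The constant of the planar case. -/
def cp : ℕ := 54 * 4394 ^ 2

/-- The constant of the spatial case. -/
def ce : ℕ := 4 * 4394 ^ 3

/-- All small lattice points are multiples of `(V0, U0)`. -/
def Centre (p : ℕ) (L : ZMod p) (m : ℕ) (V0 U0 : ℤ) : Prop :=
  ∀ (V' U : ℤ) (Z : ℕ), Z ^ 2 < p * m → Z ≤ cp * m ^ 3 → 2 * U.natAbs + m * V'.natAbs ≤ Z →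
    (U : ZMod p) = V' * L → (V' : ZMod p) ≠ 0 → ∃ j : ℤ, V' = j * V0 ∧ U = j * U0

variable {p m : ℕ} [Fact p.Prime] {L : ZMod p} {V : Finset ℤ} {V0 U0 : ℤ} {ζ : ℕ}

theorem str_data (hV : Nrm p L V m) (hlo : ∀ v ∈ V, (ζ : ℤ) ≤ |V0 * v + U0|)
    (hhi : ∀ v ∈ V, |V0 * v + U0| ≤ 2 * ζ) (hc : Centre p L m V0 U0) {Z : ℕ} (hZ : Z ^ 2 < p * m)
    (hZ' : Z ≤ cp * m ^ 3) {ω : ZMod p} {t0 : ℤ × ℤ × ℤ} (ht0 : t0 ∈ Rep L V ω)
    {n e : Fin 3 → ℤ} (he : e ⬝ᵥ n = 1) (h1 : (n 1 : ZMod p) ≠ 0) (h0 : (n 0 : ZMod p) = n 1 * L)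
    (h2 : (n 2 : ZMod p) = -(n 1 * ω))
    (hpl : ∀ t ∈ Rep L V ω, ∀ t' ∈ Rep L V ω, n ⬝ᵥ pt t = n ⬝ᵥ pt t')
    (hb : 2 * (n 0).natAbs + m * (n 1).natAbs + (n 2).natAbs ≤ Z) :
    ∃ j W k : ℤ, ((V0 : ZMod p) ≠ 0 ∧ (U0 : ZMod p) = V0 * L) ∧ j ≠ 0 ∧ |j| * ζ ≤ Z ∧
      |k| * p ≤ 4 * Z * ζ ∧
      (∀ u ∈ Rep L V ω, j * ((V0 * u.1 + U0) * (V0 * u.2.1 + U0)) + W * (V0 * u.2.2 + U0) = p * k) ∧
      ∀ t ∈ Rep L V ω, ∀ u ∈ Rep L V ω, j ∣ t.2.2 - u.2.2 := by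
  obtain ⟨j, e1, e0⟩ := hc (n 1) (n 0) Z hZ hZ' (by omega) h0 h1
  have hpl' : ∀ t ∈ Rep L V ω, ∀ u ∈ Rep L V ω,
      j * U0 * (t.1 + t.2.1) + j * V0 * (t.1 * t.2.1) + n 2 * t.2.2 =
        j * U0 * (u.1 + u.2.1) + j * V0 * (u.1 * u.2.1) + n 2 * u.2.2 := by
    intro t ht u hu
    have := hpl t ht u hu
    simpa [dotProduct, Fin.sum_univ_three, pt, e1, e0] using this
  rw [e1] at h1 h2
  rw [e1, e0] at h0
  push_cast at h0 h1 h2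
  have hj : (j : ZMod p) ≠ 0 := left_ne_zero_of_mul h1
  have hU : (U0 : ZMod p) = V0 * L := mul_left_cancel₀ hj (by linear_combination h0)
  have hm0 := mem_Rep.1 ht0
  have hb' : 2 * |n 0| + m * |n 1| + |n 2| ≤ Z := by
    simp only [Int.abs_eq_natAbs]
    exact_mod_cast hb
  have hjz : ∀ v ∈ V, |j| * |V0 * v + U0| ≤ Z := by
    intro v hv
    have k := hV.mem v hv
    rw [← abs_mul, show j * (V0 * v + U0) = n 1 * v + n 0 by rw [e1, e0]; ring]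
    refine (abs_add_le _ _).trans ?_
    rw [abs_mul, abs_of_nonneg k.1]
    nlinarith [abs_nonneg (n 0), abs_nonneg (n 1), abs_nonneg (n 2), k.2]
  obtain ⟨k, hk⟩ : (p : ℤ) ∣ j * ((V0 * t0.1 + U0) * (V0 * t0.2.1 + U0)) +
      n 2 * (V0 * t0.2.2 + U0) := by
    rw [← ZMod.intCast_zmod_eq_zero_iff_dvd]
    have r := om_mul hV hm0.1.2.2
    rw [hm0.2] at r
    push_cast
    rw [h2, hU]
    linear_combination (-(j : ZMod p) * V0 ^ 2) * r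
  refine ⟨j, n 2, k, ⟨right_ne_zero_of_mul h1, hU⟩, fun h => hj (by rw [h, Int.cast_zero]),
    le_trans ?_ (hjz _ hm0.1.1), ?_, fun u hu => ?_, fun t ht u hu => ?_⟩
  · exact mul_le_mul_of_nonneg_left (hlo _ hm0.1.1) (abs_nonneg _)
  · have k1 : |k| * p = |j * ((V0 * t0.1 + U0) * (V0 * t0.2.1 + U0)) +
        n 2 * (V0 * t0.2.2 + U0)| := by rw [hk, abs_mul, Nat.abs_cast, mul_comm]
    rw [k1]
    refine (abs_add_le _ _).trans ?_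
    rw [abs_mul, abs_mul, abs_mul, ← mul_assoc]
    have k2 := mul_le_mul (hjz _ hm0.1.1) (hhi _ hm0.1.2.1) (abs_nonneg _) (by positivity)
    have k3 : |n 2| ≤ Z := by nlinarith [abs_nonneg (n 0), abs_nonneg (n 1)]
    have k4 := mul_le_mul k3 (hhi _ hm0.1.2.2) (abs_nonneg _) (by positivity)
    linarith
  · rw [← hk]
    linear_combination V0 * hpl' u hu t0 ht0
  · have hco : IsCoprime j (n 2) := ⟨e 0 * U0 + e 1 * V0, e 2, by
      simp only [dotProduct, Fin.sum_univ_three, e1, e0] at he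
      linear_combination he⟩
    refine hco.dvd_of_dvd_mul_left ⟨U0 * (u.1 + u.2.1) + V0 * (u.1 * u.2.1) -
      U0 * (t.1 + t.2.1) - V0 * (t.1 * t.2.1), ?_⟩
    linear_combination hpl' t ht u hu

theorem core_arith {J P D m p Z ζ μ j0 φ : ℕ} (hJ : 0 < J) (hζ : 0 < ζ) (hP : J ^ 2 ≤ 4 * P)
    (hμ : μ * p ≤ 4 * Z * ζ) (hj : j0 * ζ ≤ Z) (hZ : Z * φ ^ 2 ≤ cp * m ^ 3)
    (h1 : P * ζ ≤ 196 * D ^ 2 * (j0 * m ^ 2) * μ)
    (h2 : P * ζ * φ ≤ 4 * D ^ 2 * J * ((49 * m ^ 2 + 3 * ζ) * μ)) :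
    J * φ ^ 3 * p ≤ 3328 * cp * D ^ 2 * m ^ 5 ∨
      J ^ 3 * φ ^ 7 * p ^ 2 ≤ 10436608 * cp ^ 3 * D ^ 4 * m ^ 11 := by
  have k2 : J * φ * p ≤ 64 * D ^ 2 * (49 * m ^ 2 + 3 * ζ) * Z := by
    refine Nat.le_of_mul_le_mul_right ?_ (Nat.mul_pos hJ hζ)
    calc J * φ * p * (J * ζ) = J ^ 2 * (ζ * φ * p) := by ring
      _ ≤ 4 * P * (ζ * φ * p) := by gcongr
      _ = 4 * (P * ζ * φ) * p := by ring
      _ ≤ 4 * (4 * D ^ 2 * J * ((49 * m ^ 2 + 3 * ζ) * μ)) * p := by gcongr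
      _ = 16 * D ^ 2 * J * (49 * m ^ 2 + 3 * ζ) * (μ * p) := by ring
      _ ≤ 16 * D ^ 2 * J * (49 * m ^ 2 + 3 * ζ) * (4 * Z * ζ) := by gcongr
      _ = _ := by ring
  by_cases h : ζ ≤ m ^ 2
  · left
    calc J * φ ^ 3 * p = J * φ * p * φ ^ 2 := by ring
      _ ≤ 64 * D ^ 2 * (49 * m ^ 2 + 3 * m ^ 2) * Z * φ ^ 2 := by
          refine Nat.mul_le_mul_right _ (k2.trans ?_)
          gcongr
      _ = 3328 * D ^ 2 * m ^ 2 * (Z * φ ^ 2) := by ring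
      _ ≤ 3328 * D ^ 2 * m ^ 2 * (cp * m ^ 3) := by gcongr
      _ = _ := by ring
  right
  have k3 : J * φ * p ≤ 3328 * D ^ 2 * ζ * Z := by
    refine k2.trans ?_
    have : m ^ 2 ≤ ζ := by omega
    calc _ ≤ 64 * D ^ 2 * (49 * ζ + 3 * ζ) * Z := by gcongr
      _ = _ := by ring
  have k1 : J ^ 2 * ζ * p ≤ 3136 * D ^ 2 * m ^ 2 * Z ^ 2 := by
    refine Nat.le_of_mul_le_mul_right ?_ hζ
    calc J ^ 2 * ζ * p * ζ ≤ 4 * P * ζ * p * ζ := by gcongr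
      _ = 4 * (P * ζ) * (p * ζ) := by ring
      _ ≤ 4 * (196 * D ^ 2 * (j0 * m ^ 2) * μ) * (p * ζ) := by gcongr
      _ = 784 * D ^ 2 * m ^ 2 * (j0 * ζ) * (μ * p) := by ring
      _ ≤ 784 * D ^ 2 * m ^ 2 * Z * (4 * Z * ζ) := by gcongr
      _ = _ := by ring
  refine Nat.le_of_mul_le_mul_right ?_ hζ
  calc J ^ 3 * φ ^ 7 * p ^ 2 * ζ = (J * φ * p) * (J ^ 2 * ζ * p) * φ ^ 6 := by ring
    _ ≤ (3328 * D ^ 2 * ζ * Z) * (3136 * D ^ 2 * m ^ 2 * Z ^ 2) * φ ^ 6 := by gcongr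
    _ = 10436608 * D ^ 4 * m ^ 2 * ζ * (Z * φ ^ 2) ^ 3 := by ring
    _ ≤ 10436608 * D ^ 4 * m ^ 2 * ζ * (cp * m ^ 3) ^ 3 := by gcongr
    _ = _ := by ring

theorem one_le_cp : 9 ≤ cp := by norm_num [cp]

theorem core (hV : Nrm p L V m) (hm : 1 ≤ m) (hp : 4 * m ^ 3 < p) (S : Finset (ZMod p))
    (hS : ∀ t ∈ V ×ˢ V ×ˢ V, om L t ∈ S) {N : ℕ} (hN : S.card ≤ N) (hN1 : 1 ≤ N)
    (hlo : ∀ v ∈ V, (ζ : ℤ) ≤ |V0 * v + U0|) (hhi : ∀ v ∈ V, |V0 * v + U0| ≤ 2 * ζ) (hζ : 1 ≤ ζ)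
    (hc : Centre p L m V0 U0) {T B D : ℕ} (hT : 4 * m ≤ T ^ 2) (hB : FewAP V m T B)
    (hD : Dm (8 * cp ^ 3 * m ^ 9) ≤ D) :
    ∃ φ : ℕ, V.card ^ 3 ≤ 96 * N * D ^ 2 * (φ + 1) ∧ (φ < 16 * D ∨ V.card < 16 ∨
      V.card ≤ 8 * D * B ∨ V.card * φ ^ 3 * p ≤ 3328 * cp * D ^ 2 * m ^ 5 ∨
      V.card ^ 3 * φ ^ 7 * p ^ 2 ≤ 10436608 * cp ^ 3 * D ^ 4 * m ^ 11 ∨
      φ ^ 4 * p ≤ cp ^ 2 * m ^ 5 ∨ φ ^ 3 * p ^ 2 ≤ ce * m ^ 8) := by
  classical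
  have hcp := one_le_cp
  have hbig : ∀ x, x ≤ cp * m ^ 5 → Dm x ≤ D := fun x hx => by
    refine (Dm_mono (hx.trans ?_)).trans hD
    have h1 : cp ≤ cp ^ 3 := Nat.le_self_pow (by norm_num) _
    have h2 : m ^ 5 ≤ m ^ 9 := Nat.pow_le_pow_right hm (by norm_num)
    calc cp * m ^ 5 ≤ cp ^ 3 * m ^ 9 := Nat.mul_le_mul h1 h2
      _ ≤ _ := by rw [mul_assoc]; omega
  have hD9 : Dm (9 * m ^ 4) ≤ D :=
    hbig _ (Nat.mul_le_mul hcp (Nat.pow_le_pow_right hm (by norm_num)))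
  have hD2 : Dm (m ^ 2) ≤ D := (Dm_mono (by
    have := Nat.pow_le_pow_right hm (show 2 ≤ 4 by norm_num)
    omega)).trans hD9
  have hD1 : 1 ≤ D := (one_le_Dm (Nat.one_le_pow _ _ hm)).trans hD2
  set J := V.card with hJ
  set φ := J ^ 3 / (96 * N * D ^ 2) with hφ
  refine ⟨φ, (Nat.lt_mul_div_succ _ (by positivity)).le, ?_⟩
  by_contra hcon
  simp only [not_or, not_lt] at hcon
  obtain ⟨n1, n2, n3, n4, n5, n6, n7⟩ := hcon
  have hφ0 : 0 < φ := by omega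
  have hφ1 : φ * (96 * N * D ^ 2) ≤ J ^ 3 := Nat.div_mul_le_self _ _
  set Z := cp * m ^ 3 / φ ^ 2 with hZdef
  have hZ1 : Z * φ ^ 2 ≤ cp * m ^ 3 := Nat.div_mul_le_self _ _
  have hZ2 : Z ≤ cp * m ^ 3 := Nat.div_le_self _ _
  have hZ : Z ^ 2 < p * m := by
    by_contra h
    refine n6 (Nat.le_of_mul_le_mul_right ?_ hm)
    calc φ ^ 4 * p * m = φ ^ 4 * (p * m) := by ring
      _ ≤ φ ^ 4 * Z ^ 2 := by gcongr; omega
      _ = (Z * φ ^ 2) ^ 2 := by ring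
      _ ≤ (cp * m ^ 3) ^ 2 := by gcongr
      _ = _ := by ring
  have hs : φ ≤ 2 * D * φ := Nat.le_mul_of_pos_left _ (by omega)
  set A : ZMod p → Prop := fun ω => ∃ g : Fin 3 → ℤ, g ≠ 0 ∧ (∀ k, |g k| ≤ Bx m k) ∧
    (((Rep L V ω).image pt).image (crossProduct g)).card ≤ 2 * D * φ with hA
  have hgA : ∀ ω, ∃ g : Fin 3 → ℤ, A ω → g ≠ 0 ∧ (∀ k, |g k| ≤ Bx m k) ∧
      (((Rep L V ω).image pt).image (crossProduct g)).card ≤ 2 * D * φ := by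
    intro ω
    by_cases h : A ω
    · obtain ⟨g, hg⟩ := h
      exact ⟨g, fun _ => hg⟩
    · exact ⟨0, fun h' => absurd h' h⟩
  choose g hg using hgA
  have hU := unstr hV hm hp ((V ×ˢ V ×ˢ V).filter fun t => A (om L t)) (filter_subset _ _) S
    (fun t ht => hS t (mem_filter.1 ht).1) g fun t ht => hg _ (mem_filter.1 ht).2
  set U := (V ×ˢ V ×ˢ V).filter fun t => A (om L t)
  set G := (V ×ˢ V ×ˢ V).filter fun t => ¬ A (om L t) with hG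
  have hUG : U.card + G.card = J ^ 3 := by
    rw [card_filter_add_card_filter_not, card_cube]
  have hU2 : 2 * U.card ≤ J ^ 3 := by
    refine Nat.le_of_not_lt fun h => ?_
    have h1 : (J ^ 3) ^ 2 < (2 * U.card) ^ 2 := Nat.pow_lt_pow_left h (by norm_num)
    have h2 : 2 * D * φ * S.card * (12 * Dm (9 * m ^ 4) * J ^ 3) ≤
        2 * D * φ * N * (12 * D * J ^ 3) := by gcongr
    have h3 := Nat.mul_le_mul_right (J ^ 3) hφ1
    nlinarith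
  have hdat : ∀ ω, ∃ j W k : ℤ, ¬ A ω → φ < ((Rep L V ω).image fun u => u.2.2).card ∧
      ((V0 : ZMod p) ≠ 0 ∧ (U0 : ZMod p) = V0 * L) ∧ j ≠ 0 ∧ |j| * ζ ≤ Z ∧ |k| * p ≤ 4 * Z * ζ ∧
      (∀ u ∈ Rep L V ω, j * ((V0 * u.1 + U0) * (V0 * u.2.1 + U0)) + W * (V0 * u.2.2 + U0) = p * k) ∧
      ∀ t ∈ Rep L V ω, ∀ u ∈ Rep L V ω, j ∣ t.2.2 - u.2.2 := by
    intro ω
    by_cases h : A ω
    · exact ⟨0, 0, 0, fun h' => absurd h h'⟩
    rcases geom_rep hV hm hp ω (s := 2 * D * φ) (by omega) with h1 | h1 | ⟨h1, n, e, h2, h3, h4, h5,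
      h6, h7⟩
    · exact absurd h1 h
    · exact absurd ((Nat.mul_le_mul_right _ (Nat.pow_le_pow_left hs 3)).trans h1) n7
    obtain ⟨t0, ht0⟩ := card_pos.1 (Nat.zero_lt_of_lt h1)
    obtain ⟨j, W, k, H⟩ := str_data hV hlo hhi hc hZ hZ2 ht0 h2 h3 h4 h5 h6
      ((Nat.le_div_iff_mul_le (by positivity)).2 (by
        rw [mul_comm]
        exact (Nat.mul_le_mul_right _ (Nat.pow_le_pow_left hs 2)).trans h7))
    refine ⟨j, W, k, fun _ => ⟨?_, H⟩⟩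
    have h8 := h1.trans_le ((rep_le hV hm hp ω).trans
      (Nat.mul_le_mul_right _ (Nat.mul_le_mul_left 2 hD9)))
    exact Nat.lt_of_mul_lt_mul_left h8
  choose j W k H using hdat
  have hJ0 : 0 < J := by omega
  have hJ3 : 0 < J ^ 3 := by positivity
  obtain ⟨t0, ht0⟩ : G.Nonempty := card_pos.1 (by omega)
  have H0 := H _ (mem_filter.1 ht0).2
  have hC : Cen p L V V0 U0 ζ := ⟨H0.2.1.1, H0.2.1.2, hlo, hhi, hζ⟩
  have hζZ : ζ ≤ Z := by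
    have h1 := Int.one_le_abs H0.2.2.1
    have h2 := H0.2.2.2.1
    have h3 : (ζ : ℤ) ≤ Z := by nlinarith
    exact_mod_cast h3
  have hp0 : 0 < p := by omega
  have hSd : Sdat L V V0 U0 G j W k (Z / ζ) (4 * Z * ζ / p) φ := by
    refine ⟨fun t ht => by simpa using (mem_filter.1 ht).1, fun t ht => ?_, fun t ht => ?_,
      fun t ht => ?_, fun t ht => ?_, fun t ht u hu => ?_, fun t ht => ?_⟩
    all_goals have Ht := H _ (mem_filter.1 ht).2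
    · exact Ht.2.2.1
    · refine abs_le_div (x := ζ * j (om L t)) hζ le_rfl rfl ?_
      rw [abs_mul, Nat.abs_cast, mul_comm]
      exact Ht.2.2.2.1
    · refine abs_le_div (x := p * k (om L t)) hp0 le_rfl rfl ?_
      rw [abs_mul, Nat.abs_cast, mul_comm]
      exact_mod_cast Ht.2.2.2.2.1
    · exact Ht.2.2.2.2.2.1
    · exact Ht.2.2.2.2.2.2 t (mem_Rep.2 ⟨by simpa using (mem_filter.1 ht).1, rfl⟩) u hu
    · exact Ht.1
  have hμ : 4 * Z * ζ / p * p ≤ 4 * Z * ζ := Nat.div_mul_le_self _ _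
  have hj0 : Z / ζ * ζ ≤ Z := Nat.div_mul_le_self _ _
  have hμT : 4 * Z * ζ / p ≤ T ^ 2 := by
    refine le_trans (Nat.div_le_of_le_mul ?_) hT
    nlinarith
  have a0 := (hSd.mono (filter_subset (fun t => k (om L t) = 0) G)).zero hC (D := D)
    ((Dm_mono (by
      calc 8 * ζ ^ 3 ≤ 8 * (cp * m ^ 3) ^ 3 := by gcongr; omega
        _ = _ := by ring)).trans hD) fun t ht => (mem_filter.1 ht).2
  have a1 : (G.filter fun t => t.1 = t.2.2).card ≤ J ^ 2 := by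
    rw [sq, ← card_product]
    refine card_le_card_of_injOn Prod.snd (fun t ht => ?_) fun s hs t ht e => ?_
    · have := hSd.mem t (mem_filter.1 ht).1
      simpa using this.2
    · exact Prod.ext (by rw [(mem_filter.1 hs).2, (mem_filter.1 ht).2, e]) e
  have a2 : (G.filter fun t => t.2.1 = t.2.2).card ≤ J ^ 2 := by
    rw [sq, ← card_product]
    refine card_le_card_of_injOn (fun t => (t.1, t.2.2)) (fun t ht => ?_) fun s hs t ht e => ?_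
    · have := hSd.mem t (mem_filter.1 ht).1
      simpa using ⟨this.1, this.2.2⟩
    · simp only [Prod.mk.injEq] at e
      exact Prod.ext e.1 (Prod.ext (by rw [(mem_filter.1 hs).2, (mem_filter.1 ht).2, e.2]) e.2)
  set G2 := G.filter fun t => k (om L t) ≠ 0 ∧ t.1 ≠ t.2.2 ∧ t.2.1 ≠ t.2.2 with hG2
  have a3 : G.card ≤ (G.filter fun t => k (om L t) = 0).card + J ^ 2 + J ^ 2 + G2.card := by
    refine le_trans (card_le_card (t := (G.filter fun t => k (om L t) = 0) ∪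
      (G.filter fun t => t.1 = t.2.2) ∪ (G.filter fun t => t.2.1 = t.2.2) ∪ G2) fun t ht => ?_)
      ((card_union_le _ _).trans (Nat.add_le_add_right ((card_union_le _ _).trans
        (Nat.add_le_add ((card_union_le _ _).trans (Nat.add_le_add_left a1 _)) a2)) _))
    simp only [hG2, mem_union, mem_filter, ht, true_and]
    tauto
  have a4 : 8 * (G.filter fun t => k (om L t) = 0).card ≤ J ^ 3 := by
    refine Nat.le_of_mul_le_mul_right ?_ (show 0 < 2 * D by omega)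
    refine le_trans ?_ a0
    calc _ = (G.filter fun t => k (om L t) = 0).card * (16 * D) := by ring
      _ ≤ _ := by gcongr
  have a5 : 16 * J ^ 2 ≤ J ^ 3 := by
    rw [pow_succ J 2, mul_comm]
    gcongr
  obtain ⟨f, hf, hP⟩ : ∃ f ∈ V, J ^ 2 ≤ 4 * (G2.filter fun t => t.2.2 = f).card := by
    by_contra h
    push Not at h
    have h1 := card_mul_le_of_fib (s := G2) (t := V) (f := fun t => t.2.2)
      (fun t ht => (hSd.mem t (mem_filter.1 ht).1).2.2) (q := 4) (K := J ^ 2 - 1)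
      fun f hf => by have := h f hf; omega
    have h2 : J * (J ^ 2 - 1) + J = J ^ 3 := by
      have : 1 ≤ J ^ 2 := Nat.one_le_pow _ _ hJ0
      rw [← Nat.mul_succ, Nat.succ_eq_add_one, Nat.sub_add_cancel this]
      ring
    rw [← hJ] at h1
    omega
  have hsub : (G2.filter fun t => t.2.2 = f) ⊆ G := (filter_subset _ _).trans (filter_subset _ _)
  have hf1 : ∀ t ∈ G2.filter fun t => t.2.2 = f, t.2.2 = f := fun t ht => (mem_filter.1 ht).2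
  have hne : ∀ t ∈ G2.filter fun t => t.2.2 = f, k (om L t) ≠ 0 ∧ t.1 ≠ f ∧ t.2.1 ≠ f := by
    intro t ht
    rw [← hf1 t ht]
    exact (mem_filter.1 (mem_filter.1 ht).1).2
  have b2 := (hSd.mono hsub).boundII hV hC hD2 hf hf1 hne
  rcases (hSd.mono hsub).boundI hV hC (D := D) (hbig _ (by
    calc Z / ζ * m ^ 2 ≤ cp * m ^ 3 * m ^ 2 :=
          Nat.mul_le_mul_right _ ((Nat.div_le_self _ _).trans hZ2)
      _ = _ := by ring)) hf hf1 hne hμT hB with b1 | b1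
  · rcases core_arith hJ0 hζ hP hμ hj0 hZ1 b1 b2 with h | h
    · exact n4 h
    · exact n5 h
  · refine n3 (Nat.le_of_mul_le_mul_right ?_ hJ0)
    nlinarith

end Pool.Agent.MP_bd74a7_nt
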